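import Mathlib

set_option autoImplicit false

/-!
# Definitions: virtual retracts, property (VRC), amalgamated free products
-/

namespace Pool.Agent.W2helper29.VR

universe u v

/-- `H` is a virtual retract of `G`: there is a subgroup `K` of finite index in `G` that contains
`H`, and a homomorphism `K → H` that restricts to the identity on `H`. -/
def IsVirtualRetract {G : Type u} [Group G] (H : Subgroup G) : Prop :=
  ∃ (K : Subgroup G) (h : H ≤ K), K.FiniteIndex ∧
    ∃ ρ : K →* H, ∀ x : H, ρ (Subgroup.inclusion h x) = x

/-- `G` has property (VRC): every cyclic subgroup of `G` is a virtual retract of `G`. -/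
def HasVRC (G : Type u) [Group G] : Prop :=
  ∀ g : G, IsVirtualRetract (Subgroup.zpowers g)

/-- `G` is virtually cyclic: it has a cyclic subgroup of finite index. -/
def IsVirtuallyCyclic (G : Type u) [Group G] : Prop :=
  ∃ r : G, (Subgroup.zpowers r).FiniteIndex

/-- The amalgamated free product `P *_{R = S} Q`, where the subgroup `R` of `P` is identified with
the subgroup `S` of `Q` via the isomorphism `e`: the quotient of the free product `P * Q` by the
normal closure of all elements `r (e r)⁻¹`, `r` in `R`. -/
def Amalgam {P : Type u} {Q : Type v} [Group P] [Group Q] {R : Subgroup P} {S : Subgroup Q}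
    (e : R ≃* S) : Type (max u v) :=
  Monoid.Coprod P Q ⧸ Subgroup.normalClosure
    {x : Monoid.Coprod P Q | ∃ r : R,
      x = Monoid.Coprod.inl (r : P) * (Monoid.Coprod.inr ((e r : S) : Q))⁻¹}

instance {P : Type u} {Q : Type v} [Group P] [Group Q] {R : Subgroup P} {S : Subgroup Q}
    (e : R ≃* S) : Group (Amalgam e) :=
  inferInstanceAs (Group (Monoid.Coprod P Q ⧸ Subgroup.normalClosure
    {x : Monoid.Coprod P Q | ∃ r : R,
      x = Monoid.Coprod.inl (r : P) * (Monoid.Coprod.inr ((e r : S) : Q))⁻¹}))

end Pool.Agent.W2helper29.VR
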