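import Mathlib
import Pool.Agent.W2helper29.VRC0

set_option autoImplicit false

/-!
# Virtual retracts: general lemmas
-/

namespace Pool.Agent.W2helper29.VR

universe u v w

section general

theorem comap_fi {G : Type u} {G' : Type v} [Group G] [Group G'] (f : G →* G') (H : Subgroup G')
    (hH : H.FiniteIndex) : (H.comap f).FiniteIndex := by
  constructor
  rw [Subgroup.index_comap]
  exact Subgroup.isFiniteRelIndex_of_finiteIndex.relIndex_ne_zero

theorem map_subtype_fi {G : Type u} [Group G] (N : Subgroup G) (hN : N.FiniteIndex)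
    (T : Subgroup N) (hT : T.FiniteIndex) : (T.map N.subtype).FiniteIndex := by
  constructor
  rw [Subgroup.index_map_subtype]
  exact mul_ne_zero hT.index_ne_zero hN.index_ne_zero

theorem zpowers_fi (c : Multiplicative ℤ) (hc : c ≠ 1) : (Subgroup.zpowers c).FiniteIndex := by
  have hc0 : Multiplicative.toAdd c ≠ 0 := hc
  constructor
  have h1 : (Subgroup.zpowers c).index = (Multiplicative.toAdd c).natAbs := by
    have := Int.index_zmultiples (Multiplicative.toAdd c)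
    rw [← this]
    rfl
  rw [h1]
  exact Int.natAbs_ne_zero.2 hc0

variable {G : Type u} [Group G]

theorem vr_of_compl (g : G) (L : Subgroup G)
    (hn : ∀ (k : ℤ), ∀ x ∈ L, g ^ k * x * (g ^ k)⁻¹ ∈ L)
    (hd : ∀ k : ℤ, g ^ k ∈ L → g ^ k = 1)
    (hf : ∀ K : Subgroup G, L ≤ K → g ∈ K → K.FiniteIndex) :
    IsVirtualRetract (Subgroup.zpowers g) := by
  let K : Subgroup G :=
    { carrier := {x | ∃ k : ℤ, ∃ l ∈ L, x = g ^ k * l}
      one_mem' := ⟨0, 1, L.one_mem, by simp⟩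
      mul_mem' := by
        rintro _ _ ⟨k, l, hl, rfl⟩ ⟨k', l', hl', rfl⟩
        refine ⟨k + k', (g ^ (-k') * l * (g ^ (-k'))⁻¹) * l', L.mul_mem (hn _ _ hl) hl', ?_⟩
        rw [zpow_add]; group
      inv_mem' := by
        rintro _ ⟨k, l, hl, rfl⟩
        refine ⟨-k, g ^ k * l⁻¹ * (g ^ k)⁻¹, hn _ _ (L.inv_mem hl), ?_⟩
        group }
  have hLK : L ≤ K := fun l hl => ⟨0, l, hl, by simp⟩
  have hgK : g ∈ K := ⟨1, 1, L.one_mem, by simp⟩
  have huniq : ∀ (k k' : ℤ) (l l' : G), l ∈ L → l' ∈ L → g ^ k * l = g ^ k' * l' →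
      g ^ k = g ^ k' := by
    intro k k' l l' hl hl' h
    have h1 : g ^ (-k' + k) = l' * l⁻¹ := by
      rw [zpow_add, zpow_neg]
      calc (g ^ k')⁻¹ * g ^ k = (g ^ k')⁻¹ * (g ^ k * l) * l⁻¹ := by group
        _ = _ := by rw [h]; group
    have h2 : g ^ (-k' + k) = 1 := hd _ (by rw [h1]; exact L.mul_mem hl' (L.inv_mem hl))
    rw [zpow_add, zpow_neg] at h2
    exact (inv_mul_eq_one.1 h2).symm
  choose kk ll hll hkl using fun x : K => x.2
  have hρ : ∀ (x : K) (k : ℤ) (l : G), l ∈ L → (x : G) = g ^ k * l → g ^ kk x = g ^ k := by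
    intro x k l hl hx
    exact huniq _ _ _ _ (hll x) hl ((hkl x).symm.trans hx)
  let ρ : K →* Subgroup.zpowers g := MonoidHom.mk' (fun x => ⟨g ^ kk x, ⟨kk x, rfl⟩⟩) (by
    intro x y
    apply Subtype.ext
    show g ^ kk (x * y) = g ^ kk x * g ^ kk y
    rw [← zpow_add]
    refine hρ (x * y) (kk x + kk y)
      ((g ^ (-kk y) * ll x * (g ^ (-kk y))⁻¹) * ll y) (L.mul_mem (hn _ _ (hll x)) (hll y)) ?_
    rw [Subgroup.coe_mul, hkl x, hkl y, zpow_add]; group)
  have hle : Subgroup.zpowers g ≤ K := by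
    rw [Subgroup.zpowers_le]; exact hgK
  refine ⟨K, hle, hf K hLK hgK, ρ, ?_⟩
  rintro ⟨x, k, rfl⟩
  apply Subtype.ext
  show g ^ kk _ = g ^ k
  exact hρ _ k 1 L.one_mem (by simp)

/-- finite-index criterion inside a normal subgroup -/
theorem vr_of_normal_disjoint (g : G) (N : Subgroup G) [N.Normal] (hN : N.FiniteIndex)
    (hd : ∀ k : ℤ, g ^ k ∈ N → g ^ k = 1) : IsVirtualRetract (Subgroup.zpowers g) :=
  vr_of_compl g N (fun k x hx => Subgroup.Normal.conj_mem inferInstance x hx _) hd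
    (fun _ h _ => Subgroup.finiteIndex_of_le h)

theorem vr_of_hom (g : G) (N : Subgroup G) [hNn : N.Normal] (hN : N.FiniteIndex)
    (θ : N →* Multiplicative ℤ) (m : ℕ) (hgm : g ^ m ∈ N) (hθ : θ ⟨g ^ m, hgm⟩ ≠ 1) :
    IsVirtualRetract (Subgroup.zpowers g) := by
  -- the averaged homomorphism
  let θ₁ : N →* Multiplicative ℤ :=
    ∏ i ∈ Finset.range m, θ.comp (MulAut.conjNormal (g ^ i) : MulAut N).toMonoidHom
  have hθ₁ : ∀ x : N, θ₁ x = ∏ i ∈ Finset.range m, θ (MulAut.conjNormal (g ^ i) x) := by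
    intro x
    simp only [θ₁, MonoidHom.finsetProd_apply]
    rfl
  have hm0 : m ≠ 0 := by
    rintro rfl
    apply hθ
    have : (⟨g ^ 0, hgm⟩ : N) = 1 := Subtype.ext (pow_zero g)
    rw [this, map_one]
  have hinv : ∀ x : N, θ₁ (MulAut.conjNormal g x) = θ₁ x := by
    intro x
    rw [hθ₁, hθ₁]
    have h1 : ∀ i, θ (MulAut.conjNormal (g ^ i) (MulAut.conjNormal g x)) =
        θ (MulAut.conjNormal (g ^ (i + 1)) x) := by
      intro i
      rw [pow_succ, map_mul]; rfl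
    simp_rw [h1]
    have h2 : θ (MulAut.conjNormal (g ^ m) x) = θ (MulAut.conjNormal (g ^ 0) x) := by
      have h3 : MulAut.conjNormal (g ^ m) x = (⟨g ^ m, hgm⟩ : N) * x * (⟨g ^ m, hgm⟩ : N)⁻¹ := by
        apply Subtype.ext
        rw [MulAut.conjNormal_apply]; rfl
      rw [h3, map_mul, map_mul, map_inv, pow_zero, map_one, MulAut.one_apply]
      rw [mul_comm (θ _) (θ x), mul_inv_cancel_right]
    have h4 := Finset.prod_range_succ (fun i => θ (MulAut.conjNormal (g ^ i) x)) m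
    have h5 := Finset.prod_range_succ' (fun i => θ (MulAut.conjNormal (g ^ i) x)) m
    rw [h4, h2] at h5
    exact (mul_right_cancel h5).symm
  have hself : ∀ i : ℕ, MulAut.conjNormal (g ^ i) (⟨g ^ m, hgm⟩ : N) = ⟨g ^ m, hgm⟩ := by
    intro i
    apply Subtype.ext
    rw [MulAut.conjNormal_apply]
    show g ^ i * g ^ m * (g ^ i)⁻¹ = g ^ m
    rw [← pow_add, add_comm, pow_add, mul_inv_cancel_right]
  have hval : θ₁ ⟨g ^ m, hgm⟩ = θ ⟨g ^ m, hgm⟩ ^ m := by
    rw [hθ₁]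
    simp_rw [hself]
    rw [Finset.prod_const, Finset.card_range]
  have hval1 : θ₁ ⟨g ^ m, hgm⟩ ≠ 1 := by
    rw [hval]
    intro h
    exact hθ ((pow_eq_one_iff_left hm0).1 h)
  -- the kernel
  let L : Subgroup G := θ₁.ker.map N.subtype
  have hL : ∀ x : G, x ∈ L ↔ ∃ h : x ∈ N, θ₁ ⟨x, h⟩ = 1 := by
    intro x
    constructor
    · rintro ⟨y, hy, rfl⟩
      exact ⟨y.2, hy⟩
    · rintro ⟨h, hx⟩
      exact ⟨⟨x, h⟩, hx, rfl⟩
  have hconj : ∀ x ∈ L, g * x * g⁻¹ ∈ L := by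
    intro x hx
    obtain ⟨h, hx⟩ := (hL x).1 hx
    refine (hL _).2 ⟨hNn.conj_mem x h g, ?_⟩
    have : (⟨g * x * g⁻¹, hNn.conj_mem x h g⟩ : N) = MulAut.conjNormal g ⟨x, h⟩ := by
      apply Subtype.ext; rw [MulAut.conjNormal_apply]
    rw [this, hinv, hx]
  have hconj' : ∀ x ∈ L, g⁻¹ * x * g ∈ L := by
    intro x hx
    obtain ⟨h, hx⟩ := (hL x).1 hx
    have h' : g⁻¹ * x * g ∈ N := by simpa using hNn.conj_mem x h g⁻¹
    refine (hL _).2 ⟨h', ?_⟩
    rw [← hinv ⟨g⁻¹ * x * g, h'⟩]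
    have : MulAut.conjNormal g (⟨g⁻¹ * x * g, h'⟩ : N) = ⟨x, h⟩ := by
      apply Subtype.ext; rw [MulAut.conjNormal_apply]
      show g * (g⁻¹ * x * g) * g⁻¹ = x
      group
    rw [this, hx]
  have hconjk : ∀ (k : ℤ), ∀ x ∈ L, g ^ k * x * (g ^ k)⁻¹ ∈ L := by
    intro k
    induction k using Int.induction_on with
    | zero => intro x hx; simpa using hx
    | succ n ih =>
      intro x hx
      have := ih _ (hconj x hx)
      rw [zpow_add, zpow_one]
      convert this using 1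
      group
    | pred n ih =>
      intro x hx
      have := ih _ (hconj' x hx)
      rw [zpow_sub, zpow_one]
      convert this using 1
      group
  refine vr_of_compl g L hconjk ?_ ?_
  · intro k hk
    obtain ⟨h, hk1⟩ := (hL _).1 hk
    have h1 : (⟨g ^ k, h⟩ : N) ^ m = (⟨g ^ m, hgm⟩ : N) ^ k := by
      apply Subtype.ext
      show (g ^ k) ^ m = (g ^ m) ^ k
      rw [← zpow_natCast, ← zpow_natCast, ← zpow_mul, ← zpow_mul, mul_comm]
    have h2 : θ₁ (⟨g ^ m, hgm⟩ : N) ^ k = 1 := by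
      rw [← map_zpow, ← h1, map_pow, hk1, one_pow]
    have hk0 : k = 0 := by
      by_contra hk0
      apply hval1
      have h3 : Multiplicative.toAdd (θ₁ (⟨g ^ m, hgm⟩ : N) ^ k) = 0 := by rw [h2]; rfl
      rw [toAdd_zpow, smul_eq_mul] at h3
      rcases mul_eq_zero.1 h3 with h4 | h4
      · exact absurd h4 hk0
      · exact h4
    rw [hk0, zpow_zero]
  · intro K hLK hgK
    -- the preimage of the multiples
    let c := θ₁ ⟨g ^ m, hgm⟩
    have hT2 : (((Subgroup.zpowers c).comap θ₁).map N.subtype).FiniteIndex :=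
      map_subtype_fi N hN _ (comap_fi θ₁ _ (zpowers_fi c hval1))
    refine Subgroup.finiteIndex_of_le (H := ((Subgroup.zpowers c).comap θ₁).map N.subtype) ?_
    rintro _ ⟨x, hx, rfl⟩
    obtain ⟨j, hj⟩ := hx
    have hj' : c ^ j = θ₁ x := hj
    have h1 : (x : G) * ((g ^ m) ^ j)⁻¹ ∈ L := by
      refine (hL _).2 ⟨N.mul_mem x.2 (N.inv_mem (N.zpow_mem hgm j)), ?_⟩
      have : (⟨(x : G) * ((g ^ m) ^ j)⁻¹, N.mul_mem x.2 (N.inv_mem (N.zpow_mem hgm j))⟩ : N) =
          x * ((⟨g ^ m, hgm⟩ : N) ^ j)⁻¹ := by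
        apply Subtype.ext; simp
      rw [this, map_mul, map_inv, map_zpow, ← hj', mul_inv_cancel]
    have h2 := K.mul_mem (hLK h1) (K.zpow_mem (K.pow_mem hgK m) j)
    simpa using h2

end general

end Pool.Agent.W2helper29.VR
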