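import Mathlib
import Pool.Agent.W2helper29.VRC1

set_option autoImplicit false

/-!
# Consequences of property (VRC): residual finiteness, separability, quasi-potency
-/

namespace Pool.Agent.W2helper29.VR

universe u v w

variable {P : Type u} [Group P]

/-- the isomorphism of an infinite cyclic subgroup with the integers -/
noncomputable def zEquiv (r : P) (hr : ∀ k : ℤ, r ^ k = 1 → k = 0) :
    Multiplicative ℤ ≃* Subgroup.zpowers r :=
  MulEquiv.ofBijective
    (MonoidHom.codRestrict (zpowersHom P r) (Subgroup.zpowers r)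
      (fun k => ⟨Multiplicative.toAdd k, rfl⟩)) (by
    constructor
    · intro a b h
      have h1 : r ^ (Multiplicative.toAdd a) = r ^ (Multiplicative.toAdd b) :=
        congrArg Subtype.val h
      have h2 : r ^ (Multiplicative.toAdd a - Multiplicative.toAdd b) = 1 := by
        rw [zpow_sub, h1, mul_inv_cancel]
      have h3 := hr _ h2
      exact Multiplicative.toAdd.injective (by omega)
    · rintro ⟨_, k, rfl⟩
      exact ⟨Multiplicative.ofAdd k, rfl⟩)

theorem zEquiv_symm_pow (r : P) (hr : ∀ k : ℤ, r ^ k = 1 → k = 0) (k : ℤ)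
    (h : r ^ k ∈ Subgroup.zpowers r) :
    (zEquiv r hr).symm ⟨r ^ k, h⟩ = Multiplicative.ofAdd k := by
  rw [MulEquiv.symm_apply_eq]
  rfl

/-- a homomorphism to the integers detecting an element of infinite order -/
theorem exists_hom {r : P} (hV : IsVirtualRetract (Subgroup.zpowers r))
    (hr : ∀ k : ℤ, r ^ k = 1 → k = 0) :
    ∃ (N : Subgroup P) (_ : N.Normal), N.FiniteIndex ∧ ∃ φ : N →* Multiplicative ℤ,
      ∀ (k : ℤ) (h : r ^ k ∈ N), φ ⟨r ^ k, h⟩ = Multiplicative.ofAdd k := by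
  obtain ⟨K, hle, hK, ρ, hρ⟩ := hV
  refine ⟨K.normalCore, inferInstance, inferInstance,
    (zEquiv r hr).symm.toMonoidHom.comp (ρ.comp (Subgroup.inclusion K.normalCore_le)), ?_⟩
  intro k h
  show (zEquiv r hr).symm (ρ ⟨r ^ k, _⟩) = _
  have h1 : ρ ⟨r ^ k, K.normalCore_le h⟩ = ⟨r ^ k, ⟨k, rfl⟩⟩ := hρ ⟨r ^ k, ⟨k, rfl⟩⟩
  rw [h1]
  exact zEquiv_symm_pow r hr k _

/-- an element of finite order: a normal subgroup of finite index missing all its nontrivial
powers -/
theorem exists_fin {r : P} (hV : IsVirtualRetract (Subgroup.zpowers r))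
    (hr : ¬ ∀ k : ℤ, r ^ k = 1 → k = 0) :
    ∃ (N : Subgroup P) (_ : N.Normal), N.FiniteIndex ∧ ∀ k : ℤ, r ^ k ∈ N → r ^ k = 1 := by
  obtain ⟨K, hle, hK, ρ, hρ⟩ := hV
  have hfin : Finite (Subgroup.zpowers r) := by
    push Not at hr
    obtain ⟨k, hk, hk0⟩ := hr
    have h1 : IsOfFinOrder r := isOfFinOrder_iff_zpow_eq_one.2 ⟨k, hk0, hk⟩
    exact (finite_zpowers.2 h1).to_subtype
  have hker : ρ.ker.FiniteIndex := inferInstance
  have h2 : (ρ.ker.map K.subtype).FiniteIndex := map_subtype_fi K hK _ hker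
  refine ⟨(ρ.ker.map K.subtype).normalCore, inferInstance, inferInstance, ?_⟩
  intro k hk
  obtain ⟨x, hx, hxk⟩ := Subgroup.normalCore_le _ hk
  have h3 : x = Subgroup.inclusion hle ⟨r ^ k, ⟨k, rfl⟩⟩ := Subtype.ext hxk
  have h4 : ρ x = 1 := hx
  rw [h3, hρ] at h4
  exact congrArg Subtype.val h4

/-- a group with (VRC) is residually finite -/
theorem resid {P : Type u} [Group P] (hP : HasVRC P) (y : P) (hy : y ≠ 1) :
    ∃ (N : Subgroup P) (_ : N.Normal), N.FiniteIndex ∧ y ∉ N := by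
  by_cases hr : ∀ k : ℤ, y ^ k = 1 → k = 0
  · obtain ⟨N, hN, hNf, φ, hφ⟩ := exists_hom (hP y) hr
    by_cases hyN : y ∈ N
    · have h1 : φ ⟨y, hyN⟩ = Multiplicative.ofAdd 1 := by
        have h := hφ 1 (by simpa using hyN)
        have h' : (⟨y ^ (1 : ℤ), by simpa using hyN⟩ : N) = ⟨y, hyN⟩ := Subtype.ext (zpow_one y)
        rw [h'] at h
        exact h
      have hc : (Multiplicative.ofAdd (2 : ℤ)) ≠ 1 := by decide
      have h2 := map_subtype_fi N hNf _ (comap_fi φ _ (zpowers_fi _ hc))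
      refine ⟨(((Subgroup.zpowers (Multiplicative.ofAdd (2 : ℤ))).comap φ).map
        N.subtype).normalCore, inferInstance, inferInstance, ?_⟩
      intro hmem
      obtain ⟨x, hx, hxy⟩ := Subgroup.normalCore_le _ hmem
      have h3 : x = ⟨y, hyN⟩ := Subtype.ext hxy
      obtain ⟨j, hj⟩ := hx
      have hj' : (Multiplicative.ofAdd (2 : ℤ)) ^ j = φ x := hj
      rw [h3, h1, ← ofAdd_zsmul, smul_eq_mul] at hj'
      have := Multiplicative.ofAdd.injective hj'
      omega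
    · exact ⟨N, hN, hNf, hyN⟩
  · obtain ⟨N, hN, hNf, h⟩ := exists_fin (hP y) hr
    refine ⟨N, hN, hNf, fun h1 => hy ?_⟩
    simpa using h 1 (by simpa using h1)

/-- in a group with (VRC) cyclic subgroups are separable -/
theorem sep {P : Type u} [Group P] (hP : HasVRC P) (r x : P) (hx : x ∉ Subgroup.zpowers r) :
    ∃ (N : Subgroup P) (_ : N.Normal), N.FiniteIndex ∧ ∀ k : ℤ, x * r ^ k ∉ N := by
  obtain ⟨K, hle, hK, ρ, hρ⟩ := hP r
  by_cases hxK : x ∈ K
  · obtain ⟨M, hM, hMf, hyM⟩ := resid hP (((ρ ⟨x, hxK⟩ : Subgroup.zpowers r) : P)⁻¹ * x) (by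
      intro h
      rw [inv_mul_eq_one] at h
      apply hx
      rw [← h]
      exact (ρ ⟨x, hxK⟩).2)
    -- elements `k` of `K` with `k ∈ M` and `ρ k ∈ M`
    let T : Subgroup K := (M.subgroupOf K) ⊓ ((M.subgroupOf (Subgroup.zpowers r)).comap ρ)
    have hT1 : ((M.subgroupOf (Subgroup.zpowers r)).comap ρ).FiniteIndex :=
      comap_fi ρ _ inferInstance
    have hT : T.FiniteIndex := inferInstance
    have hT2 := map_subtype_fi K hK T hT
    refine ⟨(T.map K.subtype).normalCore, inferInstance, inferInstance, ?_⟩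
    intro k hk
    obtain ⟨z, hz, hzx⟩ := Subgroup.normalCore_le _ hk
    have hz1 : (z : P) ∈ M := (Subgroup.mem_inf.1 hz).1
    have hz2 : ((ρ z : Subgroup.zpowers r) : P) ∈ M := (Subgroup.mem_inf.1 hz).2
    have hzx' : (z : P) = x * r ^ k := hzx
    have h3 : z = ⟨x, hxK⟩ * Subgroup.inclusion hle ⟨r ^ k, ⟨k, rfl⟩⟩ := Subtype.ext hzx
    have h4 : ((ρ z : Subgroup.zpowers r) : P) = ((ρ ⟨x, hxK⟩ : Subgroup.zpowers r) : P) * r ^ k := by
      rw [h3, map_mul, hρ]; rfl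
    apply hyM
    have h5 : ((ρ z : Subgroup.zpowers r) : P)⁻¹ * z ∈ M := M.mul_mem (M.inv_mem hz2) hz1
    rw [h4, hzx'] at h5
    have h6 := hM.conj_mem _ h5 (r ^ k)
    convert h6 using 1
    group
  · refine ⟨K.normalCore, inferInstance, inferInstance, ?_⟩
    intro k hk
    apply hxK
    have h1 := Subgroup.normalCore_le _ hk
    have h2 : r ^ k ∈ K := hle ⟨k, rfl⟩
    have := K.mul_mem h1 (K.inv_mem h2)
    simpa using this

/-- quasi-potency -/
theorem potent {r : P} (hV : IsVirtualRetract (Subgroup.zpowers r))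
    (hr : ∀ k : ℤ, r ^ k = 1 → k = 0) :
    ∃ M₀ : ℤ, 0 < M₀ ∧ ∀ M : ℤ, 0 < M → M₀ ∣ M →
      ∃ (N : Subgroup P) (_ : N.Normal), N.FiniteIndex ∧ ∀ k : ℤ, r ^ k ∈ N ↔ M ∣ k := by
  obtain ⟨N₀, hN₀, hNf, φ, hφ⟩ := exists_hom hV hr
  -- the exponents `k` with `r ^ k ∈ N₀`
  let A : AddSubgroup ℤ :=
    { carrier := {k | r ^ k ∈ N₀}
      zero_mem' := by simp
      add_mem' := by
        intro a b ha hb
        show r ^ (a + b) ∈ N₀
        rw [zpow_add]; exact N₀.mul_mem ha hb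
      neg_mem' := by
        intro a ha
        show r ^ (-a) ∈ N₀
        rw [zpow_neg]; exact N₀.inv_mem ha }
  have hA : ∀ k : ℤ, k ∈ A ↔ r ^ k ∈ N₀ := fun k => Iff.rfl
  obtain ⟨a, ha⟩ := Int.subgroup_cyclic A
  have hA' : ∀ k : ℤ, r ^ k ∈ N₀ ↔ a ∣ k := by
    intro k
    rw [← hA, ha, AddSubgroup.mem_closure_singleton]
    constructor
    · rintro ⟨n, rfl⟩
      exact ⟨n, by rw [smul_eq_mul, mul_comm]⟩
    · rintro ⟨n, rfl⟩
      exact ⟨n, by rw [smul_eq_mul, mul_comm]⟩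
  have ha0 : a ≠ 0 := by
    rintro rfl
    obtain ⟨n, hn, _, hn1⟩ := Subgroup.exists_pow_mem_of_index_ne_zero hNf.index_ne_zero r
    have := (hA' n).1 (by simpa using hn1)
    rw [zero_dvd_iff] at this
    omega
  have hra : r ^ a ∈ N₀ := (hA' a).2 dvd_rfl
  let b : P → ℤ := fun x => Multiplicative.toAdd (φ ⟨x * r ^ a * x⁻¹, hN₀.conj_mem _ hra x⟩)
  have hb1 : b 1 = a := by
    show Multiplicative.toAdd (φ _) = a
    have : (⟨1 * r ^ a * 1⁻¹, hN₀.conj_mem _ hra 1⟩ : N₀) = ⟨r ^ a, hra⟩ := Subtype.ext (by simp)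
    rw [this, hφ]; rfl
  obtain ⟨c, hc⟩ := Int.subgroup_cyclic (AddSubgroup.closure (Set.range b))
  have hcb : ∀ x, c ∣ b x := by
    intro x
    have h1 : b x ∈ AddSubgroup.closure (Set.range b) := AddSubgroup.subset_closure ⟨x, rfl⟩
    rw [hc, AddSubgroup.mem_closure_singleton] at h1
    obtain ⟨n, hn⟩ := h1
    exact ⟨n, by rw [← hn, smul_eq_mul, mul_comm]⟩
  have hcc : c ∈ AddSubgroup.closure (Set.range b) := by
    rw [hc]; exact AddSubgroup.subset_closure rfl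
  have hc0 : c ≠ 0 := by
    rintro rfl
    have := hcb 1
    rw [hb1, zero_dvd_iff] at this
    exact ha0 this
  have hdiv : ∀ (k i : ℤ), (∀ x, k ∣ i * b x) → k ∣ i * c := by
    intro k i h
    have : ∀ z ∈ AddSubgroup.closure (Set.range b), k ∣ i * z := by
      intro z hz
      induction hz using AddSubgroup.closure_induction with
      | mem x hx => obtain ⟨y, rfl⟩ := hx; exact h y
      | zero => simp
      | add x y _ _ hx hy => rw [mul_add]; exact dvd_add hx hy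
      | neg x _ hx => rw [mul_neg]; exact (dvd_neg).2 hx
    exact this c hcc
  refine ⟨|a|, abs_pos.2 ha0, ?_⟩
  rintro M hM ⟨M', rfl⟩
  -- the subgroup
  have hM'0 : M' ≠ 0 := by rintro rfl; simp at hM
  have hcM : (Multiplicative.ofAdd (c * M')) ≠ 1 := by
    intro h
    have h1 : c * M' = 0 := h
    rcases mul_eq_zero.1 h1 with h2 | h2
    · exact hc0 h2
    · exact hM'0 h2
  have hfi := map_subtype_fi N₀ hNf _ (comap_fi φ _ (zpowers_fi _ hcM))
  refine ⟨(((Subgroup.zpowers (Multiplicative.ofAdd (c * M'))).comap φ).map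
    N₀.subtype).normalCore, inferInstance, inferInstance, ?_⟩
  have hmem : ∀ (z : P), z ∈ ((Subgroup.zpowers (Multiplicative.ofAdd (c * M'))).comap φ).map
      N₀.subtype ↔ ∃ h : z ∈ N₀, c * M' ∣ Multiplicative.toAdd (φ ⟨z, h⟩) := by
    intro z
    constructor
    · rintro ⟨y, ⟨j, hj⟩, rfl⟩
      refine ⟨y.2, j, ?_⟩
      have hj' : (Multiplicative.ofAdd (c * M')) ^ j = φ y := hj
      show Multiplicative.toAdd (φ y) = _
      rw [← hj', toAdd_zpow, smul_eq_mul, mul_comm]; rfl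
    · rintro ⟨h, j, hj⟩
      refine ⟨⟨z, h⟩, ⟨j, ?_⟩, rfl⟩
      show (Multiplicative.ofAdd (c * M')) ^ j = φ ⟨z, h⟩
      apply Multiplicative.toAdd.injective
      rw [hj, toAdd_zpow, smul_eq_mul, mul_comm]; rfl
  intro k
  constructor
  · intro hk
    have h1 : ∀ x : P, x * r ^ k * x⁻¹ ∈ ((Subgroup.zpowers (Multiplicative.ofAdd
        (c * M'))).comap φ).map N₀.subtype := hk
    have h2 : r ^ k ∈ N₀ := by
      obtain ⟨h, _⟩ := (hmem _).1 (h1 1)
      simpa using h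
    obtain ⟨i, rfl⟩ := (hA' k).1 h2
    have h3 : ∀ x, c * M' ∣ i * b x := by
      intro x
      obtain ⟨h, h4⟩ := (hmem _).1 (h1 x)
      have h5 : (⟨x * r ^ (a * i) * x⁻¹, h⟩ : N₀) =
          (⟨x * r ^ a * x⁻¹, hN₀.conj_mem _ hra x⟩ : N₀) ^ i := by
        apply Subtype.ext
        show x * r ^ (a * i) * x⁻¹ = (x * r ^ a * x⁻¹) ^ i
        rw [conj_zpow, zpow_mul]
      rw [h5, map_zpow, toAdd_zpow, smul_eq_mul] at h4
      exact h4
    have h4 := hdiv _ _ h3
    rw [mul_comm c M'] at h4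
    have h5 : M' ∣ i := Int.dvd_of_mul_dvd_mul_right hc0 h4
    obtain ⟨t, rfl⟩ := h5
    rw [mul_comm |a| M', mul_comm a (M' * t)]
    rw [mul_assoc]
    exact mul_dvd_mul_left M' ((abs_dvd _ _).2 (dvd_mul_left _ _))
  · intro hk x
    have hak : a ∣ k := (dvd_trans ((dvd_abs _ _).2 dvd_rfl) (dvd_trans (dvd_mul_right _ _) hk))
    obtain ⟨i, rfl⟩ := hak
    have hM'i : M' ∣ i := by
      have h1 : |a| * M' ∣ |a| * i := by
        refine dvd_trans hk ?_
        exact mul_dvd_mul_right ((dvd_abs _ _).2 dvd_rfl) i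
      exact Int.dvd_of_mul_dvd_mul_left (by simpa using ha0) h1
    refine (hmem _).2 ?_
    have h : x * r ^ (a * i) * x⁻¹ ∈ N₀ :=
      hN₀.conj_mem _ ((hA' _).2 (dvd_mul_right _ _)) x
    refine ⟨h, ?_⟩
    have h5 : (⟨x * r ^ (a * i) * x⁻¹, h⟩ : N₀) =
        (⟨x * r ^ a * x⁻¹, hN₀.conj_mem _ hra x⟩ : N₀) ^ i := by
      apply Subtype.ext
      show x * r ^ (a * i) * x⁻¹ = (x * r ^ a * x⁻¹) ^ i
      rw [conj_zpow, zpow_mul]
    rw [h5, map_zpow, toAdd_zpow, smul_eq_mul, mul_comm c M']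
    exact mul_dvd_mul hM'i (hcb x)

end Pool.Agent.W2helper29.VR
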