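import Mathlib
import Pool.Agent.W2helper29.VRC2

set_option autoImplicit false

/-!
# Matching normal subgroups of finite index on a virtually cyclic subgroup
-/

namespace Pool.Agent.W2helper29.VR

universe u v w

theorem match_one {P : Type u} [Group P] (hP : HasVRC P) {H : Type w} [Group H] (ι : H →* P)
    (hι : Function.Injective ι) (r : H) (hfi : (Subgroup.zpowers r).FiniteIndex)
    (hr : r = 1 ∨ ∀ k : ℤ, r ^ k = 1 → k = 0)
    (N₀ : Subgroup P) [hN₀ : N₀.Normal] (hN₀f : N₀.FiniteIndex) :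
    ∃ M₀ : ℤ, 0 < M₀ ∧ ∀ M : ℤ, 0 < M → M₀ ∣ M →
      ∃ (N : Subgroup P) (_ : N.Normal), N.FiniteIndex ∧ N ≤ N₀ ∧
        ∀ h : H, ι h ∈ N ↔ h ∈ Subgroup.zpowers (r ^ M) := by
  classical
  have h1 : ∀ q : H ⧸ Subgroup.zpowers r, ∃ (N : Subgroup P) (_ : N.Normal), N.FiniteIndex ∧
      (q.out ∉ Subgroup.zpowers r → ∀ k : ℤ, ι q.out * (ι r) ^ k ∉ N) := by
    intro q
    by_cases hq : q.out ∈ Subgroup.zpowers r
    · exact ⟨⊤, inferInstance, inferInstance, fun h => absurd hq h⟩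
    · have h2 : ι q.out ∉ Subgroup.zpowers (ι r) := by
        rintro ⟨k, hk⟩
        apply hq
        refine ⟨k, hι ?_⟩
        have hk' : (ι r) ^ k = ι q.out := hk
        show ι (r ^ k) = ι q.out
        rw [map_zpow, hk']
      obtain ⟨N, hN, hNf, h⟩ := sep hP _ _ h2
      exact ⟨N, hN, hNf, fun _ => h⟩
  choose Nq hNq hNqf hNqs using h1
  let N₁ : Subgroup P := ⨅ q, Nq q
  have hN₁n : N₁.Normal := Subgroup.normal_iInf_normal hNq
  have hN₁f : N₁.FiniteIndex := Subgroup.finiteIndex_iInf hNqf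
  have hN₁ : ∀ h : H, ι h ∈ N₁ → h ∈ Subgroup.zpowers r := by
    intro h hh
    have h2 : (QuotientGroup.mk h : H ⧸ Subgroup.zpowers r).out⁻¹ * h ∈ Subgroup.zpowers r := by
      rw [← QuotientGroup.eq]; exact QuotientGroup.out_eq' _
    by_cases hq : (QuotientGroup.mk h : H ⧸ Subgroup.zpowers r).out ∈ Subgroup.zpowers r
    · have := Subgroup.mul_mem _ hq h2
      simpa using this
    · exfalso
      obtain ⟨k, hk⟩ := h2
      have hk' : r ^ k = (QuotientGroup.mk h : H ⧸ Subgroup.zpowers r).out⁻¹ * h := hk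
      refine hNqs _ hq k ?_
      rw [← map_zpow, ← map_mul, hk', mul_inv_cancel_left]
      exact (Subgroup.mem_iInf.1 hh) _
  let N₂ : Subgroup P := N₀ ⊓ N₁
  have hN₂n : N₂.Normal := inferInstance
  have hN₂f : N₂.FiniteIndex := inferInstance
  rcases hr with rfl | hr
  · refine ⟨1, one_pos, fun M _ _ => ⟨N₂, hN₂n, hN₂f, inf_le_left, fun h => ?_⟩⟩
    rw [one_zpow]
    constructor
    · intro hh
      exact hN₁ h hh.2
    · intro hh
      rw [Subgroup.zpowers_one_eq_bot, Subgroup.mem_bot] at hh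
      rw [hh, map_one]; exact N₂.one_mem
  · have hr' : ∀ k : ℤ, (ι r) ^ k = 1 → k = 0 := by
      intro k hk
      apply hr
      apply hι
      rw [map_zpow, hk, map_one]
    obtain ⟨M₁, hM₁, hpot⟩ := potent (hP (ι r)) hr'
    have hidx : 0 < (N₂.index : ℤ) := by
      have := hN₂f.index_ne_zero
      omega
    refine ⟨M₁ * N₂.index, mul_pos hM₁ hidx, ?_⟩
    intro M hM hdvd
    obtain ⟨N₃, hN₃, hN₃f, h3⟩ := hpot M hM (dvd_trans (dvd_mul_right _ _) hdvd)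
    refine ⟨N₂ ⊓ N₃, inferInstance, inferInstance, inf_le_left.trans inf_le_left, fun h => ?_⟩
    constructor
    · intro hh
      obtain ⟨k, hk⟩ := hN₁ h hh.1.2
      have hk' : r ^ k = h := hk
      subst hk'
      have h4 : (ι r) ^ k ∈ N₃ := by rw [← map_zpow]; exact hh.2
      obtain ⟨t, rfl⟩ := (h3 k).1 h4
      exact ⟨t, by show (r ^ M) ^ t = _; rw [zpow_mul]⟩
    · rintro ⟨t, rfl⟩
      show ι ((r ^ M) ^ t) ∈ N₂ ⊓ N₃
      rw [← zpow_mul, map_zpow]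
      refine ⟨?_, (h3 _).2 (dvd_mul_right _ _)⟩
      obtain ⟨c, hc⟩ := hdvd
      have h5 : (ι r) ^ (M * t) = ((ι r) ^ (N₂.index)) ^ (M₁ * c * t) := by
        rw [← zpow_natCast, ← zpow_mul]
        congr 1
        rw [hc]; ring
      rw [h5]
      exact N₂.zpow_mem (Subgroup.pow_index_mem N₂ _) _

theorem match_two {P : Type u} [Group P] (hP : HasVRC P) {Q : Type v} [Group Q] (hQ : HasVRC Q)
    {H : Type w} [Group H] (ι : H →* P) (hι : Function.Injective ι) (κ : H →* Q)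
    (hκ : Function.Injective κ) (r : H) (hfi : (Subgroup.zpowers r).FiniteIndex)
    (hr : r = 1 ∨ ∀ k : ℤ, r ^ k = 1 → k = 0)
    (N₀ : Subgroup P) [hN₀ : N₀.Normal] (hN₀f : N₀.FiniteIndex)
    (L₀ : Subgroup Q) [hL₀ : L₀.Normal] (hL₀f : L₀.FiniteIndex) :
    ∃ (M : ℤ) (_ : 0 < M) (N : Subgroup P) (_ : N.Normal) (L : Subgroup Q) (_ : L.Normal),
      N.FiniteIndex ∧ N ≤ N₀ ∧ (∀ h : H, ι h ∈ N ↔ h ∈ Subgroup.zpowers (r ^ M)) ∧
      L.FiniteIndex ∧ L ≤ L₀ ∧ (∀ h : H, κ h ∈ L ↔ h ∈ Subgroup.zpowers (r ^ M)) := by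
  obtain ⟨M₁, hM₁, h1⟩ := match_one hP ι hι r hfi hr N₀ hN₀f
  obtain ⟨M₂, hM₂, h2⟩ := match_one hQ κ hκ r hfi hr L₀ hL₀f
  obtain ⟨N, hN, hNf, hNN, hNH⟩ := h1 (M₁ * M₂) (mul_pos hM₁ hM₂) (dvd_mul_right _ _)
  obtain ⟨L, hL, hLf, hLL, hLH⟩ := h2 (M₁ * M₂) (mul_pos hM₁ hM₂) (dvd_mul_left _ _)
  exact ⟨M₁ * M₂, mul_pos hM₁ hM₂, N, hN, L, hL, hNf, hNN, hNH, hLf, hLL, hLH⟩

end Pool.Agent.W2helper29.VR
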