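import Mathlib
import Pool.Agent.W2helper29.VRC3

set_option autoImplicit false

/-!
# Induced actions on finite sets times the integers
-/

namespace Pool.Agent.W2helper29.VR

universe u v w

/-! ### Transfer of virtual retracts -/

theorem vr_map {G : Type u} [Group G] (φ : G ≃* G) (H : Subgroup G) (h : IsVirtualRetract H) :
    IsVirtualRetract (H.map φ.toMonoidHom) := by
  obtain ⟨K, hle, hK, ρ, hρ⟩ := h
  have hle' : H.map φ.toMonoidHom ≤ K.map φ.toMonoidHom := Subgroup.map_mono hle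
  refine ⟨K.map φ.toMonoidHom, hle', ?_,
    (φ.subgroupMap H).toMonoidHom.comp (ρ.comp (φ.subgroupMap K).symm.toMonoidHom), ?_⟩
  · constructor
    have h1 : (K.map φ.toMonoidHom).index = K.index := by
      have := Subgroup.index_map_of_bijective (f := φ.toMonoidHom) φ.bijective K
      exact this
    rw [h1]
    exact hK.index_ne_zero
  · intro z
    obtain ⟨x, rfl⟩ := (φ.subgroupMap H).surjective z
    show (φ.subgroupMap H) (ρ ((φ.subgroupMap K).symm _)) = _
    have h1 : (φ.subgroupMap K).symm (Subgroup.inclusion hle' (φ.subgroupMap H x)) =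
        Subgroup.inclusion hle x := (MulEquiv.symm_apply_eq _).2 rfl
    rw [h1, hρ]

theorem vr_conj {G : Type u} [Group G] (g c : G) (h : IsVirtualRetract (Subgroup.zpowers g)) :
    IsVirtualRetract (Subgroup.zpowers (c * g * c⁻¹)) := by
  have h1 := vr_map (MulAut.conj c) _ h
  rw [MonoidHom.map_zpowers] at h1
  exact h1

/-! ### Actions on `X × ℤ` -/

/-- `Γ` commutes with the translations of the second coordinate -/
def Shift {G : Type u} [Group G] {X : Type w} (Γ : G →* Equiv.Perm (X × ℤ)) : Prop :=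
  ∀ (g : G) (x : X) (t s : ℤ), Γ g (x, t + s) = ((Γ g (x, t)).1, (Γ g (x, t)).2 + s)

theorem Shift.apply {G : Type u} [Group G] {X : Type w} {Γ : G →* Equiv.Perm (X × ℤ)}
    (hΓ : Shift Γ) (g : G) (x : X) (t : ℤ) :
    Γ g (x, t) = ((Γ g (x, 0)).1, (Γ g (x, 0)).2 + t) := by
  have := hΓ g x 0 t
  rwa [zero_add] at this

/-- the action on `X` -/
def permX {G : Type u} [Group G] {X : Type w} (Γ : G →* Equiv.Perm (X × ℤ)) (hΓ : Shift Γ) :
    G →* Equiv.Perm X :=
  letI act : MulAction G X :=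
    { smul := fun g x => (Γ g (x, 0)).1
      one_smul := fun x => by show (Γ 1 (x, 0)).1 = x; rw [map_one]; rfl
      mul_smul := fun g h x => by
        show (Γ (g * h) (x, 0)).1 = (Γ g ((Γ h (x, 0)).1, 0)).1
        rw [map_mul, Equiv.Perm.mul_apply]
        have h1 : Γ h (x, 0) = ((Γ h (x, 0)).1, (Γ h (x, 0)).2) := rfl
        rw [h1, hΓ.apply] }
  MulAction.toPermHom G X

theorem permX_apply {G : Type u} [Group G] {X : Type w} (Γ : G →* Equiv.Perm (X × ℤ))
    (hΓ : Shift Γ) (g : G) (x : X) : permX Γ hΓ g x = (Γ g (x, 0)).1 := rfl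

theorem vr_of_action {G : Type u} [Group G] {X : Type w} [Finite X]
    (Γ : G →* Equiv.Perm (X × ℤ)) (hΓ : Shift Γ)
    (g : G) (m : ℕ) (x₀ : X) (k : ℤ) (hk : k ≠ 0)
    (h : Γ (g ^ m) (x₀, 0) = (x₀, k)) : IsVirtualRetract (Subgroup.zpowers g) := by
  have hfi : (permX Γ hΓ).ker.FiniteIndex := inferInstance
  have hmem : ∀ n ∈ (permX Γ hΓ).ker, ∀ x t, Γ n (x, t) = (x, (Γ n (x, 0)).2 + t) := by
    intro n hn x t
    rw [hΓ.apply]
    have h1 : permX Γ hΓ n x = x := by rw [MonoidHom.mem_ker.1 hn]; rfl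
    rw [permX_apply] at h1
    rw [h1]
  let θ : (permX Γ hΓ).ker →* Multiplicative ℤ := MonoidHom.mk'
    (fun n => Multiplicative.ofAdd (Γ (n : G) (x₀, 0)).2) (by
      intro a b
      show Multiplicative.ofAdd (Γ ((a : G) * (b : G)) (x₀, 0)).2 = _
      rw [map_mul, Equiv.Perm.mul_apply, hmem b b.2 x₀ 0, hmem a a.2 x₀]
      rw [← ofAdd_add, add_zero])
  have hc0 : (permX Γ hΓ).ker.index ≠ 0 := hfi.index_ne_zero
  have hgc : g ^ (m * (permX Γ hΓ).ker.index) ∈ (permX Γ hΓ).ker := by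
    rw [pow_mul]
    exact Subgroup.pow_index_mem _ _
  have hpow : ∀ j : ℕ, Γ ((g ^ m) ^ j) (x₀, 0) = (x₀, k * j) := by
    intro j
    induction j with
    | zero => rw [pow_zero, map_one]; simp
    | succ j ih =>
      rw [pow_succ', map_mul, Equiv.Perm.mul_apply, ih, hΓ.apply, h]
      simp only
      push_cast
      congr 1
      ring
  refine vr_of_hom g (permX Γ hΓ).ker hfi θ (m * (permX Γ hΓ).ker.index) hgc ?_
  intro h1
  have h2 : (Γ (g ^ (m * (permX Γ hΓ).ker.index)) (x₀, 0)).2 = 0 := h1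
  rw [pow_mul, hpow] at h2
  have h3 : k * ((permX Γ hΓ).ker.index : ℤ) = 0 := h2
  rcases mul_eq_zero.1 h3 with h4 | h4
  · exact hk h4
  · exact hc0 (by exact_mod_cast h4)

theorem vr_of_faithful {G : Type u} [Group G] {X : Type w} [Finite X]
    (Γ : G →* Equiv.Perm (X × ℤ)) (hΓ : Shift Γ) (g : G) (x₀ : X)
    (h : ∀ k : ℤ, (Γ (g ^ k) (x₀, 0)).1 = x₀ → g ^ k = 1) :
    IsVirtualRetract (Subgroup.zpowers g) := by
  have hfi : (permX Γ hΓ).ker.FiniteIndex := inferInstance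
  refine vr_of_normal_disjoint g (permX Γ hΓ).ker hfi ?_
  intro k hk
  apply h k
  rw [← permX_apply Γ hΓ, MonoidHom.mem_ker.1 hk]
  rfl

/-! ### Cosets -/

section nxt

variable {P : Type u} [Group P] (N : Subgroup P) [hN : N.Normal] (Φ : P → ℤ)
  {Y : Type v} (σ : Y → P)
  (hσ : Function.Bijective (fun y : Y => (QuotientGroup.mk (σ y) : P ⧸ N)))

/-- the action of `p` on the coset representatives -/
noncomputable def nxt (p : P) (y : Y) : Y :=
  (Equiv.ofBijective _ hσ).symm (QuotientGroup.mk (p * σ y) : P ⧸ N)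

theorem nxt_spec (p : P) (y : Y) :
    (QuotientGroup.mk (σ (nxt N σ hσ p y)) : P ⧸ N) = QuotientGroup.mk (p * σ y) :=
  (Equiv.ofBijective _ hσ).apply_symm_apply _

theorem nxt_mem (p : P) (y : Y) : (σ (nxt N σ hσ p y))⁻¹ * (p * σ y) ∈ N :=
  QuotientGroup.eq.1 (nxt_spec N σ hσ p y)

/-- the cocycle -/
noncomputable def cc (p : P) (y : Y) : ℤ := Φ ((σ (nxt N σ hσ p y))⁻¹ * (p * σ y))

theorem nxt_eq (p : P) (y y' : Y) (n : P) (hn : n ∈ N) (h : p * σ y = σ y' * n) :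
    nxt N σ hσ p y = y' := by
  apply hσ.1
  show (QuotientGroup.mk (σ (nxt N σ hσ p y)) : P ⧸ N) = QuotientGroup.mk (σ y')
  rw [nxt_spec, h]
  exact (QuotientGroup.eq.2 (by simpa using hn)).symm

theorem cc_eq (p : P) (y y' : Y) (n : P) (hn : n ∈ N) (h : p * σ y = σ y' * n) :
    cc N Φ σ hσ p y = Φ n := by
  unfold cc
  rw [nxt_eq N σ hσ p y y' n hn h, h, inv_mul_cancel_left]

theorem nxt_one (y : Y) : nxt N σ hσ 1 y = y :=
  nxt_eq N σ hσ 1 y y 1 N.one_mem (by simp)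

theorem nxt_mul (p q : P) (y : Y) :
    nxt N σ hσ (p * q) y = nxt N σ hσ p (nxt N σ hσ q y) := by
  have h1 := nxt_mem N σ hσ q y
  have h2 := nxt_mem N σ hσ p (nxt N σ hσ q y)
  refine nxt_eq N σ hσ (p * q) y _ _ (N.mul_mem h2 h1) ?_
  group

variable (hΦ : ∀ a ∈ N, ∀ b ∈ N, Φ (a * b) = Φ a + Φ b)

include hΦ in
theorem Phi_one : Φ 1 = 0 := by
  have := hΦ 1 N.one_mem 1 N.one_mem
  rw [mul_one] at this
  omega

include hΦ in
theorem Phi_inv (a : P) (ha : a ∈ N) : Φ a⁻¹ = - Φ a := by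
  have := hΦ a ha a⁻¹ (N.inv_mem ha)
  rw [mul_inv_cancel, Phi_one N Φ hΦ] at this
  omega

include hΦ in
theorem Phi_conj (a n : P) (ha : a ∈ N) (hn : n ∈ N) : Φ (n⁻¹ * a * n) = Φ a := by
  rw [hΦ _ (N.mul_mem (N.inv_mem hn) ha) _ hn, hΦ _ (N.inv_mem hn) _ ha, Phi_inv N Φ hΦ n hn]
  ring

include hΦ in
theorem Phi_zpow (a : P) (ha : a ∈ N) (k : ℤ) : Φ (a ^ k) = k * Φ a := by
  induction k using Int.induction_on with
  | zero => simp [Phi_one N Φ hΦ]
  | succ n ih =>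
    rw [zpow_add, zpow_one, hΦ _ (N.zpow_mem ha _) _ ha, ih]; ring
  | pred n ih =>
    rw [zpow_sub, zpow_one, hΦ _ (N.zpow_mem ha _) _ (N.inv_mem ha), ih, Phi_inv N Φ hΦ a ha]; ring

include hΦ in
theorem cc_one (y : Y) : cc N Φ σ hσ 1 y = 0 := by
  rw [cc_eq N Φ σ hσ 1 y y 1 N.one_mem (by simp), Phi_one N Φ hΦ]

include hΦ in
theorem cc_mul (p q : P) (y : Y) :
    cc N Φ σ hσ (p * q) y = cc N Φ σ hσ p (nxt N σ hσ q y) + cc N Φ σ hσ q y := by
  have h1 := nxt_mem N σ hσ q y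
  have h2 := nxt_mem N σ hσ p (nxt N σ hσ q y)
  rw [cc_eq N Φ σ hσ (p * q) y (nxt N σ hσ p (nxt N σ hσ q y)) _ (N.mul_mem h2 h1) (by group)]
  rw [hΦ _ h2 _ h1]
  rfl

/-- the induced action on `(Y × J) × ℤ` -/
noncomputable def actHom {J : Type w} (a : J → ℤ) : P →* Equiv.Perm ((Y × J) × ℤ) :=
  letI : MulAction P ((Y × J) × ℤ) :=
    { smul := fun p z => ((nxt N σ hσ p z.1.1, z.1.2), z.2 + a z.1.2 * cc N Φ σ hσ p z.1.1)
      one_smul := fun z => by
        show ((nxt N σ hσ 1 z.1.1, z.1.2), z.2 + a z.1.2 * cc N Φ σ hσ 1 z.1.1) = z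
        rw [nxt_one, cc_one N Φ σ hσ hΦ, mul_zero, add_zero]
      mul_smul := fun p q z => by
        show ((nxt N σ hσ (p * q) z.1.1, z.1.2), z.2 + a z.1.2 * cc N Φ σ hσ (p * q) z.1.1) =
          ((nxt N σ hσ p (nxt N σ hσ q z.1.1), z.1.2),
            z.2 + a z.1.2 * cc N Φ σ hσ q z.1.1 + a z.1.2 * cc N Φ σ hσ p (nxt N σ hσ q z.1.1))
        rw [nxt_mul, cc_mul N Φ σ hσ hΦ]
        congr 1
        ring }
  MulAction.toPermHom P _

theorem actHom_apply {J : Type w} (a : J → ℤ) (p : P) (y : Y) (j : J) (t : ℤ) :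
    actHom N Φ σ hσ hΦ a p ((y, j), t) =
      ((nxt N σ hσ p y, j), t + a j * cc N Φ σ hσ p y) := rfl

end nxt

/-- a transversal adapted to the image of `H` -/
theorem exists_transversal {P : Type u} [Group P] {H : Type w} [Group H] (ι : H →* P)
    (N : Subgroup P) [hNn : N.Normal] (hN : N.FiniteIndex) (D : Subgroup H)
    (hD : ∀ h, ι h ∈ N ↔ h ∈ D) :
    ∃ (k : ℕ) (x : Fin k → P) (i₀ : Fin k), x i₀ = 1 ∧
      Function.Bijective (fun y : (H ⧸ D) × Fin k =>
        (QuotientGroup.mk (ι y.1.out * x y.2) : P ⧸ N)) := by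
  classical
  let U : Subgroup P := ι.range ⊔ N
  have hU : ∀ u : P, u ∈ U ↔ ∃ h : H, ∃ n ∈ N, ι h * n = u := by
    intro u
    rw [Subgroup.mem_sup_of_normal_right]
    constructor
    · rintro ⟨_, ⟨h, rfl⟩, n, hn, rfl⟩
      exact ⟨h, n, hn, rfl⟩
    · rintro ⟨h, n, hn, rfl⟩
      exact ⟨ι h, ⟨h, rfl⟩, n, hn, rfl⟩
  have hUf : U.FiniteIndex := Subgroup.finiteIndex_of_le (H := N) le_sup_right
  have hfin : Finite (Quotient (QuotientGroup.rightRel U)) :=
    Finite.of_equiv _ (QuotientGroup.quotientRightRelEquivQuotientLeftRel U).symm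
  obtain ⟨k, ⟨e⟩⟩ := Finite.exists_equiv_fin (Quotient (QuotientGroup.rightRel U))
  let x : Fin k → P := fun i =>
    if e.symm i = Quotient.mk (QuotientGroup.rightRel U) 1 then 1 else (e.symm i).out
  have hx : ∀ i, Quotient.mk (QuotientGroup.rightRel U) (x i) = e.symm i := by
    intro i
    show Quotient.mk _ (if _ then _ else _) = _
    split_ifs with h
    · exact h.symm
    · exact Quotient.out_eq _
  have hout : ∀ q : H ⧸ D, ∀ h : H, QuotientGroup.mk h = q → ι ((q.out)⁻¹ * h) ∈ N := by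
    intro q h hq
    rw [hD, ← QuotientGroup.eq, hq]
    exact QuotientGroup.out_eq' _
  refine ⟨k, x, e (Quotient.mk _ 1), ?_, ?_, ?_⟩
  · show (if _ then _ else _) = _
    rw [if_pos]
    rw [Equiv.symm_apply_apply]
  · rintro ⟨q, i⟩ ⟨q', i'⟩ h
    have h1 : (ι q.out * x i)⁻¹ * (ι q'.out * x i') ∈ N := QuotientGroup.eq.1 h
    have h2 : i = i' := by
      apply e.symm.injective
      rw [← hx, ← hx]
      apply Quotient.sound
      show (QuotientGroup.rightRel U) (x i) (x i')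
      rw [QuotientGroup.rightRel_apply, hU]
      refine ⟨(q'.out)⁻¹ * q.out, x i * ((ι q.out * x i)⁻¹ * (ι q'.out * x i')) * (x i)⁻¹,
        hNn.conj_mem _ h1 _, ?_⟩
      rw [map_mul, map_inv]
      group
    subst h2
    have h3 : (ι q.out)⁻¹ * ι q'.out ∈ N := by
      have := hNn.conj_mem _ h1 (x i)
      convert this using 1
      group
    rw [← map_inv, ← map_mul, hD, ← QuotientGroup.eq] at h3
    rw [QuotientGroup.out_eq', QuotientGroup.out_eq'] at h3
    rw [h3]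
  · intro z
    obtain ⟨p, rfl⟩ := QuotientGroup.mk_surjective z
    have h1 : (QuotientGroup.rightRel U) (x (e (Quotient.mk _ p))) p := by
      apply Quotient.exact
      rw [hx, Equiv.symm_apply_apply]
    rw [QuotientGroup.rightRel_apply, hU] at h1
    obtain ⟨h, n, hn, hhn⟩ := h1
    refine ⟨(QuotientGroup.mk h, e (Quotient.mk _ p)), ?_⟩
    apply QuotientGroup.eq.2
    have h2 := hout (QuotientGroup.mk h) h rfl
    have h3 := hNn.conj_mem _ (N.mul_mem h2 hn) (x (e (Quotient.mk _ p)))⁻¹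
    convert h3 using 1
    rw [map_mul, map_inv]
    have h4 : p = ι h * n * x (e (Quotient.mk _ p)) := by rw [hhn]; group
    show (ι _ * x (e (Quotient.mk _ p)))⁻¹ * p = _
    generalize x (e (Quotient.mk _ p)) = y at h4
    rw [h4]
    group

end Pool.Agent.W2helper29.VR
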