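import Mathlib
import Pool.Agent.W2helper29.VRC4

set_option autoImplicit false

/-!
# Amalgams: elements of the factors
-/

namespace Pool.Agent.W2helper29.VR

universe u v w z

/-- `G` is the amalgam of `P` and `Q` along `H` (tested on permutation groups) -/
structure Amal {G : Type z} {P : Type u} {Q : Type v} {H : Type w} [Group G] [Group P] [Group Q]
    [Group H] (ι : H →* P) (κ : H →* Q) (f : P →* G) (g : Q →* G) : Prop where
  comm : ∀ h, f (ι h) = g (κ h)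
  gen : ∀ K : Subgroup G, (∀ p, f p ∈ K) → (∀ q, g q ∈ K) → K = ⊤
  lift : ∀ (Y : Type w) (A : P →* Equiv.Perm Y) (B : Q →* Equiv.Perm Y),
    (∀ h, A (ι h) = B (κ h)) → ∃ Γ : G →* Equiv.Perm Y, (∀ p, Γ (f p) = A p) ∧ ∀ q, Γ (g q) = B q

theorem Amal.symm {G : Type z} {P : Type u} {Q : Type v} {H : Type w} [Group G] [Group P] [Group Q]
    [Group H] {ι : H →* P} {κ : H →* Q} {f : P →* G} {g : Q →* G} (hA : Amal ι κ f g) :
    Amal κ ι g f where
  comm h := (hA.comm h).symm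
  gen K h1 h2 := hA.gen K h2 h1
  lift Y A B h := by
    obtain ⟨Γ, h1, h2⟩ := hA.lift Y B A (fun x => (h x).symm)
    exact ⟨Γ, h2, h1⟩

section glue

variable {G : Type z} {P : Type u} {Q : Type v} {H : Type w} [Group G] [Group P] [Group Q]
  [Group H] {ι : H →* P} {κ : H →* Q} {f : P →* G} {g : Q →* G}

/-- all permutations in the image of `Γ` commute with translations if those coming from the
factors do -/
theorem shift_of_gen (hA : Amal ι κ f g) {X : Type w} (Γ : G →* Equiv.Perm (X × ℤ))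
    (h1 : ∀ (p : P) (x : X) (t s : ℤ), Γ (f p) (x, t + s) = ((Γ (f p) (x, t)).1,
      (Γ (f p) (x, t)).2 + s))
    (h2 : ∀ (q : Q) (x : X) (t s : ℤ), Γ (g q) (x, t + s) = ((Γ (g q) (x, t)).1,
      (Γ (g q) (x, t)).2 + s)) : Shift Γ := by
  let K : Subgroup G :=
    { carrier := {c | ∀ (x : X) (t s : ℤ), Γ c (x, t + s) = ((Γ c (x, t)).1, (Γ c (x, t)).2 + s)}
      one_mem' := by intro x t s; rw [map_one]; rfl
      mul_mem' := by
        intro a b ha hb x t s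
        rw [map_mul, Equiv.Perm.mul_apply, hb, ha, Equiv.Perm.mul_apply]
      inv_mem' := by
        intro a ha x t s
        rw [map_inv]
        rw [Equiv.Perm.inv_eq_iff_eq]
        rw [ha]
        have h3 : Γ a (((Γ a)⁻¹ (x, t)).1, ((Γ a)⁻¹ (x, t)).2) = (x, t) := by
          show Γ a ((Γ a)⁻¹ (x, t)) = (x, t)
          exact (Γ a).apply_symm_apply _
        rw [h3] }
  have hK := hA.gen K h1 h2
  intro c x t s
  have : c ∈ K := by rw [hK]; exact Subgroup.mem_top c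
  exact this x t s

/-- the left action of `H` on the adapted coset representatives -/
theorem H_step (N : Subgroup P) [hN : N.Normal] (D : Subgroup H)
    (hD : ∀ h, ι h ∈ N ↔ h ∈ D) {k : ℕ} (x : Fin k → P)
    (hσ : Function.Bijective (fun y : (H ⧸ D) × Fin k =>
        (QuotientGroup.mk ((fun y : (H ⧸ D) × Fin k => ι y.1.out * x y.2) y) : P ⧸ N)))
    (h : H) (q : H ⧸ D) (i : Fin k) (Φ : P → ℤ) :
    ∃ d ∈ D, d = ((h • q : H ⧸ D).out)⁻¹ * h * q.out ∧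
      nxt N (fun y : (H ⧸ D) × Fin k => ι y.1.out * x y.2) hσ (ι h) (q, i) = (h • q, i) ∧
      cc N Φ (fun y : (H ⧸ D) × Fin k => ι y.1.out * x y.2) hσ (ι h) (q, i) =
        Φ ((x i)⁻¹ * ι d * x i) := by
  have hd : ((h • q : H ⧸ D).out)⁻¹ * h * q.out ∈ D := by
    rw [mul_assoc, ← QuotientGroup.eq, QuotientGroup.out_eq', ← smul_eq_mul,
      ← MulAction.Quotient.smul_mk, QuotientGroup.out_eq']
  have h1 : ι h * (ι q.out * x i) = (ι (h • q : H ⧸ D).out * x i) *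
      ((x i)⁻¹ * ι (((h • q : H ⧸ D).out)⁻¹ * h * q.out) * x i) := by
    rw [map_mul, map_mul, map_inv]; group
  have h2 : (x i)⁻¹ * ι (((h • q : H ⧸ D).out)⁻¹ * h * q.out) * x i ∈ N := by
    have := hN.conj_mem _ ((hD _).2 hd) (x i)⁻¹
    simpa using this
  refine ⟨_, hd, rfl, ?_, ?_⟩
  · exact nxt_eq N _ hσ (ι h) (q, i) (h • q, i) _ h2 h1
  · exact cc_eq N Φ _ hσ (ι h) (q, i) (h • q, i) _ h2 h1

/-- gluing: the crosswise construction -/
theorem glue (hA : Amal ι κ f g) (D : Subgroup H)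
    (N : Subgroup P) [N.Normal] (hD : ∀ h, ι h ∈ N ↔ h ∈ D) {k : ℕ} (x : Fin k → P)
    (hσ : Function.Bijective (fun y : (H ⧸ D) × Fin k =>
        (QuotientGroup.mk ((fun y : (H ⧸ D) × Fin k => ι y.1.out * x y.2) y) : P ⧸ N)))
    (Φ : P → ℤ) (hΦ : ∀ a ∈ N, ∀ b ∈ N, Φ (a * b) = Φ a + Φ b)
    (L : Subgroup Q) [L.Normal] (hD' : ∀ h, κ h ∈ L ↔ h ∈ D) {l : ℕ} (y : Fin l → Q)
    (hτ : Function.Bijective (fun z : (H ⧸ D) × Fin l =>
        (QuotientGroup.mk ((fun z : (H ⧸ D) × Fin l => κ z.1.out * y z.2) z) : Q ⧸ L)))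
    (Ψ : Q → ℤ) (hΨ : ∀ a ∈ L, ∀ b ∈ L, Ψ (a * b) = Ψ a + Ψ b)
    (a : Fin l → ℤ) (b : Fin k → ℤ)
    (hab : ∀ i j, ∀ d ∈ D, a j * Φ ((x i)⁻¹ * ι d * x i) = b i * Ψ ((y j)⁻¹ * κ d * y j)) :
    ∃ Γ : G →* Equiv.Perm ((((H ⧸ D) × Fin k) × Fin l) × ℤ), Shift Γ ∧
      ∀ p, Γ (f p) = actHom N Φ (fun y : (H ⧸ D) × Fin k => ι y.1.out * x y.2) hσ hΦ a p := by
  let T : ((((H ⧸ D) × Fin k) × Fin l) × ℤ) ≃ ((((H ⧸ D) × Fin l) × Fin k) × ℤ) :=
    { toFun := fun z => (((z.1.1.1, z.1.2), z.1.1.2), z.2)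
      invFun := fun z => (((z.1.1.1, z.1.2), z.1.1.2), z.2)
      left_inv := fun z => rfl
      right_inv := fun z => rfl }
  let A := actHom N Φ (fun y : (H ⧸ D) × Fin k => ι y.1.out * x y.2) hσ hΦ a
  let B := actHom L Ψ (fun z : (H ⧸ D) × Fin l => κ z.1.out * y z.2) hτ hΨ b
  let B' : Q →* Equiv.Perm ((((H ⧸ D) × Fin k) × Fin l) × ℤ) :=
    (T.symm.permCongrHom : Equiv.Perm _ ≃* Equiv.Perm _).toMonoidHom.comp B
  have hB' : ∀ q z, B' q z = T.symm (B q (T z)) := fun q z => rfl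
  have hAH : ∀ h, A (ι h) = B' (κ h) := by
    intro h
    ext1 z
    obtain ⟨⟨⟨q, i⟩, j⟩, t⟩ := z
    rw [hB']
    show actHom N Φ _ hσ hΦ a (ι h) (((q, i), j), t) =
      T.symm (actHom L Ψ _ hτ hΨ b (κ h) (((q, j), i), t))
    rw [actHom_apply, actHom_apply]
    obtain ⟨d, hd, hd1, h1, h2⟩ := H_step N D hD x hσ h q i Φ
    obtain ⟨d', hd', hd1', h1', h2'⟩ := H_step L D hD' y hτ h q j Ψ
    rw [h1, h2, h1', h2', hab i j d hd, hd1', hd1]
    rfl
  obtain ⟨Γ, hΓ1, hΓ2⟩ := hA.lift _ A B' hAH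
  refine ⟨Γ, shift_of_gen hA Γ ?_ ?_, hΓ1⟩
  · intro p x t s
    obtain ⟨⟨q, i⟩, j⟩ := x
    rw [hΓ1]
    show actHom N Φ _ hσ hΦ a p (((q, i), j), t + s) =
      ((actHom N Φ _ hσ hΦ a p (((q, i), j), t)).1, (actHom N Φ _ hσ hΦ a p (((q, i), j), t)).2 + s)
    rw [actHom_apply, actHom_apply]
    congr 1
    show t + s + _ = t + _ + s
    ring
  · intro p x t s
    obtain ⟨⟨q, i⟩, j⟩ := x
    rw [hΓ2, hB', hB']
    show T.symm (actHom L Ψ _ hτ hΨ b p (((q, j), i), t + s)) =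
      ((T.symm (actHom L Ψ _ hτ hΨ b p (((q, j), i), t))).1,
        (T.symm (actHom L Ψ _ hτ hΨ b p (((q, j), i), t))).2 + s)
    rw [actHom_apply, actHom_apply]
    show (_, t + s + _) = (_, t + _ + s)
    congr 1
    ring

end glue

/-- `exists_hom` in terms of functions -/
theorem exists_Phi {P : Type u} [Group P] {r : P} (hV : IsVirtualRetract (Subgroup.zpowers r))
    (hr : ∀ k : ℤ, r ^ k = 1 → k = 0) :
    ∃ (N : Subgroup P) (_ : N.Normal) (Φ : P → ℤ), N.FiniteIndex ∧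
      (∀ a ∈ N, ∀ b ∈ N, Φ (a * b) = Φ a + Φ b) ∧ ∀ k : ℤ, r ^ k ∈ N → Φ (r ^ k) = k := by
  classical
  obtain ⟨N, hN, hNf, φ, hφ⟩ := exists_hom hV hr
  refine ⟨N, hN, fun a => if h : a ∈ N then Multiplicative.toAdd (φ ⟨a, h⟩) else 0, hNf, ?_, ?_⟩
  · intro a ha b hb
    simp only [dif_pos ha, dif_pos hb, dif_pos (N.mul_mem ha hb)]
    rw [← toAdd_mul, ← map_mul]
    rfl
  · intro k hk
    simp only [dif_pos hk]
    rw [hφ]; rfl

/-- elements of a factor -/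
theorem elliptic {G : Type z} {P : Type u} {Q : Type v} {H : Type w} [Group G] [Group P] [Group Q]
    [Group H] {ι : H →* P} {κ : H →* Q} {f : P →* G} {g : Q →* G} (hA : Amal ι κ f g)
    (hι : Function.Injective ι) (hκ : Function.Injective κ) (hP : HasVRC P) (hQ : HasVRC Q)
    (r : H) (hfi : (Subgroup.zpowers r).FiniteIndex) (hr : r = 1 ∨ ∀ k : ℤ, r ^ k = 1 → k = 0)
    (p : P) : IsVirtualRetract (Subgroup.zpowers (f p)) := by
  classical
  by_cases hp : ∀ k : ℤ, p ^ k = 1 → k = 0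
  · -- infinite order
    obtain ⟨N₀, hN₀, Φ, hN₀f, hΦ, hΦp⟩ := exists_Phi (hP p) hp
    obtain ⟨L₀, hL₀, Ψ, hL₀f, hΨ, hΨr⟩ : ∃ (L : Subgroup Q) (_ : L.Normal) (Ψ : Q → ℤ),
        L.FiniteIndex ∧ (∀ a ∈ L, ∀ b ∈ L, Ψ (a * b) = Ψ a + Ψ b) ∧
        (r = 1 ∨ ∀ k : ℤ, (κ r) ^ k ∈ L → Ψ ((κ r) ^ k) = k) := by
      rcases hr with hr | hr
      · exact ⟨⊤, inferInstance, fun _ => 0, inferInstance, by simp, Or.inl hr⟩
      · have hr' : ∀ k : ℤ, (κ r) ^ k = 1 → k = 0 := by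
          intro k hk
          apply hr
          apply hκ
          rw [map_zpow, hk, map_one]
        obtain ⟨L, hL, Ψ, h1, h2, h3⟩ := exists_Phi (hQ (κ r)) hr'
        exact ⟨L, hL, Ψ, h1, h2, Or.inr h3⟩
    obtain ⟨M, hM, N, hN, L, hL, hNf, hNN, hND, hLf, hLL, hLD⟩ :=
      match_two hP hQ ι hι κ hκ r hfi hr N₀ hN₀f L₀ hL₀f
    obtain ⟨k, x, i₀, hx, hσ⟩ := exists_transversal ι N hNf _ hND
    obtain ⟨l, y, j₀, hy, hτ⟩ := exists_transversal κ L hLf _ hLD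
    have hΦ' : ∀ a ∈ N, ∀ b ∈ N, Φ (a * b) = Φ a + Φ b := fun a ha b hb =>
      hΦ a (hNN ha) b (hNN hb)
    have hΨ' : ∀ a ∈ L, ∀ b ∈ L, Ψ (a * b) = Ψ a + Ψ b := fun a ha b hb =>
      hΨ a (hLL ha) b (hLL hb)
    -- the coefficients
    have hcoef : ∃ (a : Fin l → ℤ) (b : Fin k → ℤ), a j₀ ≠ 0 ∧
        ∀ i j, ∀ d ∈ Subgroup.zpowers (r ^ M),
          a j * Φ ((x i)⁻¹ * ι d * x i) = b i * Ψ ((y j)⁻¹ * κ d * y j) := by
      rcases hΨr with h1 | h1
      · refine ⟨fun _ => 1, fun _ => 0, one_ne_zero, ?_⟩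
        intro i j d hd
        rw [h1, one_zpow, Subgroup.zpowers_one_eq_bot, Subgroup.mem_bot] at hd
        rw [hd, map_one, mul_one, inv_mul_cancel, Phi_one N Φ hΦ', mul_zero, zero_mul]
      · refine ⟨fun j => Ψ ((y j)⁻¹ * κ (r ^ M) * y j), fun i => Φ ((x i)⁻¹ * ι (r ^ M) * x i),
          ?_, ?_⟩
        · show Ψ ((y j₀)⁻¹ * κ (r ^ M) * y j₀) ≠ 0
          rw [hy, inv_one, one_mul, mul_one, map_zpow, h1]
          · exact hM.ne'
          · rw [← map_zpow]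
            exact hLL ((hLD _).2 (Subgroup.mem_zpowers _))
        · rintro i j d ⟨e, rfl⟩
          show _ * Φ ((x i)⁻¹ * ι ((r ^ M) ^ e) * x i) = _ * Ψ ((y j)⁻¹ * κ ((r ^ M) ^ e) * y j)
          have e1 : (x i)⁻¹ * ι ((r ^ M) ^ e) * x i = ((x i)⁻¹ * ι (r ^ M) * x i) ^ e := by
            rw [map_zpow]
            have := conj_zpow (i := e) (a := (x i)⁻¹) (b := ι (r ^ M))
            simpa using this.symm
          have e2 : (y j)⁻¹ * κ ((r ^ M) ^ e) * y j = ((y j)⁻¹ * κ (r ^ M) * y j) ^ e := by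
            rw [map_zpow]
            have := conj_zpow (i := e) (a := (y j)⁻¹) (b := κ (r ^ M))
            simpa using this.symm
          have m1 : (x i)⁻¹ * ι (r ^ M) * x i ∈ N := by
            have := hN.conj_mem _ ((hND _).2 (Subgroup.mem_zpowers (r ^ M))) (x i)⁻¹
            simpa using this
          have m2 : (y j)⁻¹ * κ (r ^ M) * y j ∈ L := by
            have := hL.conj_mem _ ((hLD _).2 (Subgroup.mem_zpowers (r ^ M))) (y j)⁻¹
            simpa using this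
          rw [e1, e2, Phi_zpow N Φ hΦ' _ m1, Phi_zpow L Ψ hΨ' _ m2]
          ring
    obtain ⟨a, b, ha, hab⟩ := hcoef
    obtain ⟨Γ, hΓ, hΓf⟩ := glue hA _ N hND x hσ Φ hΦ' L hLD y hτ Ψ hΨ' a b hab
    have hDfi : (Subgroup.zpowers (r ^ M)).FiniteIndex := by
      have h1 : (N.comap ι) = Subgroup.zpowers (r ^ M) := by
        ext h; exact hND h
      rw [← h1]
      exact comap_fi ι N hNf
    have hfinX : Finite (H ⧸ Subgroup.zpowers (r ^ M)) := inferInstance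
    have hpN : p ^ N.index ∈ N := Subgroup.pow_index_mem _ _
    let q₀ : H ⧸ Subgroup.zpowers (r ^ M) := QuotientGroup.mk 1
    have hq₀ : ι q₀.out ∈ N := by
      rw [hND]
      have h1 : (QuotientGroup.mk q₀.out : H ⧸ Subgroup.zpowers (r ^ M)) = QuotientGroup.mk 1 :=
        QuotientGroup.out_eq' _
      have h2 := QuotientGroup.eq.1 h1.symm
      simpa using h2
    refine vr_of_action Γ hΓ (f p) N.index ((q₀, i₀), j₀) (a j₀ * Φ (p ^ N.index)) ?_ ?_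
    · refine mul_ne_zero ha ?_
      have h1 := hΦp N.index (by rw [zpow_natCast]; exact hNN hpN)
      rw [zpow_natCast] at h1
      rw [h1]
      exact_mod_cast hNf.index_ne_zero
    · rw [← map_pow, hΓf, actHom_apply, zero_add]
      have h1 : p ^ N.index * (ι q₀.out * x i₀) = (ι q₀.out * x i₀) *
          ((ι q₀.out * x i₀)⁻¹ * p ^ N.index * (ι q₀.out * x i₀)) := by group
      have h2 : (ι q₀.out * x i₀)⁻¹ * p ^ N.index * (ι q₀.out * x i₀) ∈ N := by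
        have := hN.conj_mem _ hpN (ι q₀.out * x i₀)⁻¹
        simpa using this
      rw [nxt_eq N _ hσ (p ^ N.index) (q₀, i₀) (q₀, i₀) _ h2 h1,
        cc_eq N Φ _ hσ (p ^ N.index) (q₀, i₀) (q₀, i₀) _ h2 h1]
      congr 2
      rw [hx, mul_one]
      exact Phi_conj N Φ hΦ' _ _ hpN hq₀
  · -- finite order
    obtain ⟨N₀, hN₀, hN₀f, hN₀p⟩ := exists_fin (hP p) hp
    obtain ⟨M, hM, N, hN, L, hL, hNf, hNN, hND, hLf, hLL, hLD⟩ :=
      match_two hP hQ ι hι κ hκ r hfi hr N₀ hN₀f ⊤ inferInstance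
    obtain ⟨k, x, i₀, hx, hσ⟩ := exists_transversal ι N hNf _ hND
    obtain ⟨l, y, j₀, hy, hτ⟩ := exists_transversal κ L hLf _ hLD
    obtain ⟨Γ, hΓ, hΓf⟩ := glue hA _ N hND x hσ (fun _ => 0) (by simp) L hLD y hτ (fun _ => 0)
      (by simp) (fun _ => 0) (fun _ => 0) (by simp)
    have hDfi : (Subgroup.zpowers (r ^ M)).FiniteIndex := by
      have h1 : (N.comap ι) = Subgroup.zpowers (r ^ M) := by
        ext h; exact hND h
      rw [← h1]
      exact comap_fi ι N hNf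
    have hfinX : Finite (H ⧸ Subgroup.zpowers (r ^ M)) := inferInstance
    let q₀ : H ⧸ Subgroup.zpowers (r ^ M) := QuotientGroup.mk 1
    refine vr_of_faithful Γ hΓ (f p) ((q₀, i₀), j₀) ?_
    intro n hn
    rw [← map_zpow, hΓf, actHom_apply] at hn
    have h1 : nxt N (fun y : (H ⧸ Subgroup.zpowers (r ^ M)) × Fin k => ι y.1.out * x y.2) hσ
        (p ^ n) (q₀, i₀) = (q₀, i₀) := congrArg Prod.fst hn
    have h2 := nxt_mem N (fun y : (H ⧸ Subgroup.zpowers (r ^ M)) × Fin k => ι y.1.out * x y.2) hσ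
        (p ^ n) (q₀, i₀)
    rw [h1] at h2
    have h3 := hN.conj_mem _ h2 (ι q₀.out * x i₀)
    have h4 : p ^ n ∈ N := by
      convert h3 using 1
      show p ^ n = ι q₀.out * x i₀ * ((ι q₀.out * x i₀)⁻¹ * (p ^ n * (ι q₀.out * x i₀))) *
        (ι q₀.out * x i₀)⁻¹
      group
    rw [← map_zpow, hN₀p n (hNN h4), map_one]

end Pool.Agent.W2helper29.VR
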