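import Mathlib
import Pool.Agent.W2helper29.VRC5

set_option autoImplicit false

/-!
# Amalgams: cyclically reduced elements
-/

namespace Pool.Agent.W2helper29.VR

universe u v w z

/-- extension of a partial bijection of a finite type -/
theorem exists_equiv_extending {E : Type u} {E' : Type v} [Finite E] (e₀ : E ≃ E') {I : Type w}
    (α : I → E) (β : I → E') (hα : Function.Injective α) (hβ : Function.Injective β) :
    ∃ π : E ≃ E', ∀ i, π (α i) = β i := by
  classical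
  have := Fintype.ofFinite E
  have : Finite E' := Finite.of_equiv _ e₀
  have := Fintype.ofFinite E'
  have hα' : Function.Injective (fun i => e₀ (α i)) := e₀.injective.comp hα
  let e : {x // x ∈ Set.range (fun i => e₀ (α i))} ≃ {x // x ∈ Set.range β} :=
    (Equiv.ofInjective _ hα').symm.trans (Equiv.ofInjective _ hβ)
  refine ⟨e₀.trans (Equiv.extendSubtype e), fun i => ?_⟩
  show Equiv.extendSubtype e (e₀ (α i)) = β i
  have h1 : e₀ (α i) ∈ Set.range (fun i => e₀ (α i)) := ⟨i, rfl⟩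
  rw [Equiv.extendSubtype_apply_of_mem e _ h1]
  have h2 : (Equiv.ofInjective _ hα').symm ⟨e₀ (α i), h1⟩ = i := by
    rw [Equiv.symm_apply_eq]
    rfl
  show ((Equiv.ofInjective _ hβ) ((Equiv.ofInjective _ hα').symm ⟨e₀ (α i), h1⟩) : E') = β i
  rw [h2]
  rfl

section pos

variable {P : Type u} [Group P] (N : Subgroup P) [hN : N.Normal]
  {H : Type w} [Group H] (ι : H →* P) (D : Subgroup H)
  {k : ℕ} (x : Fin k → P)
  (hσ : Function.Bijective (fun y : (H ⧸ D) × Fin k =>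
        (QuotientGroup.mk ((fun y : (H ⧸ D) × Fin k => ι y.1.out * x y.2) y) : P ⧸ N)))

/-- the position of the coset of `p` -/
noncomputable def pos (p : P) : (H ⧸ D) × Fin k :=
  (Equiv.ofBijective _ hσ).symm (QuotientGroup.mk p : P ⧸ N)

theorem pos_spec (p : P) :
    (QuotientGroup.mk (ι (pos N ι D x hσ p).1.out * x (pos N ι D x hσ p).2) : P ⧸ N) =
      QuotientGroup.mk p :=
  (Equiv.ofBijective _ hσ).apply_symm_apply _

theorem nxt_pos (p : P) :
    nxt N (fun y : (H ⧸ D) × Fin k => ι y.1.out * x y.2) hσ p (pos N ι D x hσ 1) =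
      pos N ι D x hσ p := by
  apply hσ.1
  refine (nxt_spec N (fun y : (H ⧸ D) × Fin k => ι y.1.out * x y.2) hσ p
    (pos N ι D x hσ 1)).trans (Eq.trans ?_ (pos_spec N ι D x hσ p).symm)
  apply QuotientGroup.eq.2
  have h1 := QuotientGroup.eq.1 (pos_spec N ι D x hσ 1)
  have h2 := hN.conj_mem _ h1 1
  have h3 : (p * (ι (pos N ι D x hσ 1).1.out * x (pos N ι D x hσ 1).2))⁻¹ * p =
      (ι (pos N ι D x hσ 1).1.out * x (pos N ι D x hσ 1).2)⁻¹ * 1 := by group
  show (p * (ι (pos N ι D x hσ 1).1.out * x (pos N ι D x hσ 1).2))⁻¹ * p ∈ N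
  rw [h3]
  exact h1

theorem pos_snd_ne (p : P) (hp : ∀ h : H, (ι h)⁻¹ * p ∉ N) :
    (pos N ι D x hσ 1).2 ≠ (pos N ι D x hσ p).2 := by
  intro h
  have h1 := QuotientGroup.eq.1 (pos_spec N ι D x hσ 1)
  have h2 := QuotientGroup.eq.1 (pos_spec N ι D x hσ p)
  rw [← h] at h2
  set a := (pos N ι D x hσ 1).1.out
  set b := (pos N ι D x hσ p).1.out
  set c := x (pos N ι D x hσ 1).2
  -- `c⁻¹ a⁻¹ ∈ N`, `c⁻¹ b⁻¹ p ∈ N`
  apply hp (b * a⁻¹)
  have h3 : (ι (b * a⁻¹))⁻¹ * p = (ι a * c) * (((ι b * c)⁻¹ * p)) * (ι a * c)⁻¹ *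
      ((ι a * c) * ((ι a * c)⁻¹ * 1) * (ι a * c)⁻¹)⁻¹ := by
    rw [map_mul, map_inv]; group
  rw [h3]
  exact N.mul_mem (hN.conj_mem _ h2 _) (N.inv_mem (hN.conj_mem _ h1 _))

end pos

theorem nxt_zero_cc {P : Type u} [Group P] (N : Subgroup P) [hN : N.Normal] {Y : Type v}
    (σ : Y → P) (hσ : Function.Bijective (fun y : Y => (QuotientGroup.mk (σ y) : P ⧸ N)))
    (p : P) (y : Y) : cc N (fun _ => 0) σ hσ p y = 0 := rfl

/-- cyclically reduced elements -/
theorem hyperbolic {G : Type z} {P : Type u} {Q : Type v} {H : Type w} [Group G] [Group P]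
    [Group Q] [Group H] {ι : H →* P} {κ : H →* Q} {f : P →* G} {g : Q →* G} (hA : Amal ι κ f g)
    (D : Subgroup H) [D.Normal] [Finite (H ⧸ D)]
    (N : Subgroup P) [N.Normal] (hD : ∀ h, ι h ∈ N ↔ h ∈ D) {k : ℕ} (x : Fin k → P)
    (hσ : Function.Bijective (fun y : (H ⧸ D) × Fin k =>
        (QuotientGroup.mk ((fun y : (H ⧸ D) × Fin k => ι y.1.out * x y.2) y) : P ⧸ N)))
    (L : Subgroup Q) [L.Normal] (hD' : ∀ h, κ h ∈ L ↔ h ∈ D) {l : ℕ} (y : Fin l → Q)
    (hτ : Function.Bijective (fun z : (H ⧸ D) × Fin l =>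
        (QuotientGroup.mk ((fun z : (H ⧸ D) × Fin l => κ z.1.out * y z.2) z) : Q ⧸ L)))
    (m : ℕ) (p : ℕ → P) (q : ℕ → Q) (hp : ∀ c, c ≤ m → ∀ h : H, (ι h)⁻¹ * p c ∉ N)
    (hq : ∀ c, c ≤ m → ∀ h : H, (κ h)⁻¹ * q c ∉ L) :
    IsVirtualRetract (Subgroup.zpowers
      ((List.range (m + 1)).map (fun c => f (p c) * g (q c))).prod) := by
  classical
  set pP := pos N ι D x hσ with hpP
  set pQ := pos L κ D y hτ with hpQ
  set i₁ := (pP 1).2 with hi₁
  set j₁ := (pQ 1).2 with hj₁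
  let α : Bool × Fin (m + 1) → Fin k × (Fin l × Fin (m + 1)) := fun e =>
    if e.1 then ((pP (p (e.2 + 1 : Fin (m + 1)))).2, (j₁, e.2 + 1)) else (i₁, (j₁, e.2))
  let β : Bool × Fin (m + 1) → Fin l × (Fin k × Fin (m + 1)) := fun e =>
    if e.1 then (j₁, (i₁, e.2)) else ((pQ (q e.2)).2, (i₁, e.2))
  have hαt : ∀ c, α (true, c) = ((pP (p (c + 1 : Fin (m + 1)))).2, (j₁, c + 1)) := fun c => rfl
  have hαf : ∀ c, α (false, c) = (i₁, (j₁, c)) := fun c => rfl
  have hβt : ∀ c, β (true, c) = (j₁, (i₁, c)) := fun c => rfl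
  have hβf : ∀ c, β (false, c) = ((pQ (q c)).2, (i₁, c)) := fun c => rfl
  have hα : Function.Injective α := by
    rintro ⟨b, c⟩ ⟨b', c'⟩ h
    cases b <;> cases b'
    · rw [hαf, hαf] at h
      simp only [Prod.mk.injEq] at h
      rw [h.2.2]
    · rw [hαf, hαt] at h
      simp only [Prod.mk.injEq] at h
      exact absurd h.1 (pos_snd_ne N ι D x hσ _ (hp _ (Fin.is_le _)))
    · rw [hαf, hαt] at h
      simp only [Prod.mk.injEq] at h
      exact absurd h.1.symm (pos_snd_ne N ι D x hσ _ (hp _ (Fin.is_le _)))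
    · rw [hαt, hαt] at h
      simp only [Prod.mk.injEq] at h
      rw [add_right_cancel h.2.2]
  have hβ : Function.Injective β := by
    rintro ⟨b, c⟩ ⟨b', c'⟩ h
    cases b <;> cases b'
    · rw [hβf, hβf] at h
      simp only [Prod.mk.injEq] at h
      rw [h.2.2]
    · rw [hβf, hβt] at h
      simp only [Prod.mk.injEq] at h
      exact absurd h.1.symm (pos_snd_ne L κ D y hτ _ (hq _ (Fin.is_le _)))
    · rw [hβf, hβt] at h
      simp only [Prod.mk.injEq] at h
      exact absurd h.1 (pos_snd_ne L κ D y hτ _ (hq _ (Fin.is_le _)))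
    · rw [hβt, hβt] at h
      simp only [Prod.mk.injEq] at h
      rw [h.2.2]
  obtain ⟨π, hπ⟩ := exists_equiv_extending
    (⟨fun e => (e.2.1, (e.1, e.2.2)), fun e => (e.2.1, (e.1, e.2.2)), fun e => rfl, fun e => rfl⟩ :
      Fin k × (Fin l × Fin (m + 1)) ≃ Fin l × (Fin k × Fin (m + 1))) α β hα hβ
  -- the right multipliers
  let μ₀ : Bool × Fin (m + 1) → H ⧸ D := fun e =>
    if e.1 then (pP (p (e.2 + 1 : Fin (m + 1)))).1⁻¹ * (pQ 1).1 else (pP 1).1⁻¹ * (pQ (q e.2)).1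
  let μ : Fin k × (Fin l × Fin (m + 1)) → H ⧸ D := Function.extend α μ₀ (fun _ => 1)
  have hμ : ∀ e, μ (α e) = μ₀ e := fun e => hα.extend_apply _ _ _
  let F : Fin k × (Fin l × Fin (m + 1)) → ℤ := fun e => if e = α (true, Fin.last m) then 1 else 0
  let T : ((((H ⧸ D) × Fin k) × (Fin l × Fin (m + 1))) × ℤ) ≃
      ((((H ⧸ D) × Fin l) × (Fin k × Fin (m + 1))) × ℤ) :=
    { toFun := fun z => (((z.1.1.1 * μ (z.1.1.2, z.1.2), (π (z.1.1.2, z.1.2)).1),
        (π (z.1.1.2, z.1.2)).2), z.2 + F (z.1.1.2, z.1.2))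
      invFun := fun z => (((z.1.1.1 * (μ (π.symm (z.1.1.2, z.1.2)))⁻¹,
        (π.symm (z.1.1.2, z.1.2)).1),
        (π.symm (z.1.1.2, z.1.2)).2), z.2 - F (π.symm (z.1.1.2, z.1.2)))
      left_inv := by
        rintro ⟨⟨⟨q, i⟩, j⟩, t⟩
        simp
      right_inv := by
        rintro ⟨⟨⟨q, i⟩, j⟩, t⟩
        simp }
  let A := actHom N (fun _ => 0) (fun y : (H ⧸ D) × Fin k => ι y.1.out * x y.2) hσ
    (by simp) (fun _ : Fin l × Fin (m + 1) => 0)
  let B := actHom L (fun _ => 0) (fun z : (H ⧸ D) × Fin l => κ z.1.out * y z.2) hτ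
    (by simp) (fun _ : Fin k × Fin (m + 1) => 0)
  have hA' : ∀ (c : P) (s : (H ⧸ D) × Fin k) (j : Fin l × Fin (m + 1)) (t : ℤ),
      A c ((s, j), t) =
        ((nxt N (fun y : (H ⧸ D) × Fin k => ι y.1.out * x y.2) hσ c s, j), t) := by
    intro c s j t
    show actHom N (fun _ => 0) _ hσ _ _ c ((s, j), t) = _
    rw [actHom_apply]; simp
  have hBa : ∀ (c : Q) (s : (H ⧸ D) × Fin l) (j : Fin k × Fin (m + 1)) (t : ℤ),
      B c ((s, j), t) =
        ((nxt L (fun y' : (H ⧸ D) × Fin l => κ y'.1.out * y y'.2) hτ c s, j), t) := by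
    intro c s j t
    show actHom L (fun _ => 0) _ hτ _ _ c ((s, j), t) = _
    rw [actHom_apply]; simp
  let B' : Q →* Equiv.Perm ((((H ⧸ D) × Fin k) × (Fin l × Fin (m + 1))) × ℤ) :=
    (T.symm.permCongrHom : Equiv.Perm _ ≃* Equiv.Perm _).toMonoidHom.comp B
  have hB' : ∀ q z, B' q z = T.symm (B q (T z)) := fun q z => rfl
  have hTa : ∀ (h : H ⧸ D) (i : Fin k) (j : Fin l × Fin (m + 1)) (t : ℤ),
      T (((h, i), j), t) = (((h * μ (i, j), (π (i, j)).1), (π (i, j)).2), t + F (i, j)) :=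
    fun h i j t => rfl
  have hAH : ∀ h, A (ι h) = B' (κ h) := by
    intro h
    ext1 z
    obtain ⟨⟨⟨q, i⟩, j⟩, t⟩ := z
    rw [hB', Equiv.eq_symm_apply, hA']
    obtain ⟨d, hd, hd1, h1, h2⟩ := H_step N D hD x hσ h q i (fun _ => 0)
    obtain ⟨d', hd', hd1', h1', h2'⟩ := H_step L D hD' y hτ h (q * μ (i, j)) (π (i, j)).1
      (fun _ => 0)
    have e2 : B (κ h) (T (((q, i), j), t)) =
        ((((h • (q * μ (i, j)) : H ⧸ D), (π (i, j)).1), (π (i, j)).2), t + F (i, j)) := by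
      rw [hTa, hBa, h1']
    rw [h1, hTa, e2]
    have h3 : (h • q : H ⧸ D) * μ (i, j) = h • (q * μ (i, j)) := by
      generalize μ (i, j) = s
      obtain ⟨q, rfl⟩ := QuotientGroup.mk_surjective q
      obtain ⟨s, rfl⟩ := QuotientGroup.mk_surjective s
      show QuotientGroup.mk (h * q * s) = QuotientGroup.mk (h * (q * s))
      rw [mul_assoc]
    rw [h3]
  obtain ⟨Γ, hΓ1, hΓ2⟩ := hA.lift _ A B' hAH
  have hΓ : Shift Γ := by
    refine shift_of_gen hA Γ ?_ ?_
    · intro p x t s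
      obtain ⟨⟨q, i⟩, j⟩ := x
      rw [hΓ1, hA', hA']
    · intro p x t s
      obtain ⟨⟨q, i⟩, j⟩ := x
      rw [hΓ2, hB', hB', hTa, hTa, hBa, hBa]
      show (_, t + s + F (i, j) - _) = (_, t + F (i, j) - _ + s)
      congr 1
      ring
  -- the points of the cycle
  let Z : Fin (m + 1) → (((H ⧸ D) × Fin k) × (Fin l × Fin (m + 1))) := fun c =>
    (pP (p c), (j₁, c))
  have hT1 : ∀ (c : Fin (m + 1)) (t : ℤ), T (Z (c + 1), t) =
      ((pQ 1, (i₁, c)), t + if c = Fin.last m then 1 else 0) := by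
    intro c t
    show T ((((pP (p (c + 1 : Fin (m + 1)))).1, (pP (p (c + 1 : Fin (m + 1)))).2), (j₁, c + 1)), t) = _
    rw [hTa, ← hαt, hμ, hπ, hβt]
    have h1 : μ₀ (true, c) = (pP (p (c + 1 : Fin (m + 1)))).1⁻¹ * (pQ 1).1 := rfl
    rw [h1, mul_inv_cancel_left]
    have h2 : F (α (true, c)) = if c = Fin.last m then 1 else 0 := by
      show (if α (true, c) = α (true, Fin.last m) then (1 : ℤ) else 0) = _
      congr 1
      apply propext
      constructor
      · intro h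
        have := hα h
        simp only [Prod.mk.injEq, true_and] at this
        exact this
      · rintro rfl; rfl
    rw [h2]
  have hT2 : ∀ (c : Fin (m + 1)) (t : ℤ), T ((pP 1, (j₁, c)), t) = ((pQ (q c), (i₁, c)), t) := by
    intro c t
    show T ((((pP 1).1, (pP 1).2), (j₁, c)), t) = _
    rw [hTa, ← hi₁, ← hαf, hμ, hπ, hβf]
    have h1 : μ₀ (false, c) = (pP 1).1⁻¹ * (pQ (q c)).1 := rfl
    rw [h1, mul_inv_cancel_left]
    have h2 : F (α (false, c)) = 0 := by
      show (if α (false, c) = α (true, Fin.last m) then (1 : ℤ) else 0) = 0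
      rw [if_neg]
      intro h
      have := hα h
      simp at this
    rw [h2, add_zero]
  have hstep : ∀ (c : Fin (m + 1)) (t : ℤ), Γ (f (p c) * g (q c)) (Z (c + 1), t) =
      (Z c, t + if c = Fin.last m then 1 else 0) := by
    intro c t
    rw [map_mul, Equiv.Perm.mul_apply, hΓ2, hB', hT1, hBa]
    have h1 : nxt L (fun y' : (H ⧸ D) × Fin l => κ y'.1.out * y y'.2) hτ (q c) (pQ 1) =
        pQ (q c) := nxt_pos L κ D y hτ (q c)
    rw [h1, ← hT2, Equiv.symm_apply_apply, hΓ1, hA']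
    have h2 : nxt N (fun y' : (H ⧸ D) × Fin k => ι y'.1.out * x y'.2) hσ (p c) (pP 1) =
        pP (p c) := nxt_pos N ι D x hσ (p c)
    rw [h2]
  -- partial products
  have hpart : ∀ c : ℕ, ∀ hc : c ≤ m, ∀ t : ℤ,
      Γ ((List.range c).map (fun c => f (p c) * g (q c))).prod
        (Z ⟨c, Nat.lt_succ_of_le hc⟩, t) = (Z 0, t) := by
    intro c
    induction c with
    | zero => intro hc t; simp
    | succ c ih =>
      intro hc t
      rw [List.range_succ, List.map_append, List.prod_append, List.map_singleton,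
        List.prod_singleton, map_mul, Equiv.Perm.mul_apply]
      have h1 := hstep ⟨c, by omega⟩ t
      have h2 : (⟨c, by omega⟩ : Fin (m + 1)) + 1 = ⟨c + 1, Nat.lt_succ_of_le hc⟩ := by
        apply Fin.ext
        rw [Fin.val_add_one_of_lt]
        show c < m
        omega
      rw [h2] at h1
      rw [h1, if_neg]
      · rw [add_zero]
        exact ih (by omega) t
      · intro h
        have := congrArg Fin.val h
        simp at this
        omega
  refine vr_of_action Γ hΓ _ 1 (Z 0) 1 one_ne_zero ?_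
  rw [pow_one, List.range_succ, List.map_append, List.prod_append, List.map_singleton,
    List.prod_singleton, map_mul, Equiv.Perm.mul_apply]
  have h1 := hstep (Fin.last m) 0
  rw [Fin.last_add_one, if_pos rfl, Fin.val_last] at h1
  rw [h1]
  exact hpart m le_rfl _

end Pool.Agent.W2helper29.VR
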