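import Mathlib
import Pool.Agent.W2helper29.VRC6

set_option autoImplicit false

/-!
# Amalgams of groups with (VRC) over virtually cyclic subgroups have (VRC)
-/

namespace Pool.Agent.W2helper29.VR

universe u v w z

section words

variable {G : Type z} {P : Type u} {Q : Type v} {H : Type w} [Group G] [Group P]
    [Group Q] [Group H] {ι : H →* P} {κ : H →* Q} {f : P →* G} {g : Q →* G}

/-- the product of the syllables -/
def wd (f : P →* G) (g : Q →* G) (l : List (P × Q)) : G := (l.map (fun a => f a.1 * g a.2)).prod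

theorem wd_append (l l' : List (P × Q)) : wd f g (l ++ l') = wd f g l * wd f g l' := by
  simp [wd]

theorem wd_cons (a : P × Q) (l : List (P × Q)) : wd f g (a :: l) = f a.1 * g a.2 * wd f g l := by
  simp [wd]

theorem wd_nil : wd f g [] = 1 := by simp [wd]

theorem exists_wd (hA : Amal ι κ f g) (c : G) : ∃ l, wd f g l = c := by
  have hinv : ∀ l : List (P × Q), ∃ l', wd f g l' = (wd f g l)⁻¹ := by
    intro l
    induction l with
    | nil => exact ⟨[], by simp [wd_nil]⟩
    | cons a l ih =>
      obtain ⟨l', hl'⟩ := ih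
      refine ⟨l' ++ [(1, a.2⁻¹), (a.1⁻¹, 1)], ?_⟩
      rw [wd_append, wd_cons, wd_cons, wd_nil, wd_cons, hl']
      simp [mul_assoc]
  let K : Subgroup G :=
    { carrier := {c | ∃ l, wd f g l = c}
      one_mem' := ⟨[], wd_nil⟩
      mul_mem' := by
        rintro _ _ ⟨l, rfl⟩ ⟨l', rfl⟩
        exact ⟨l ++ l', wd_append l l'⟩
      inv_mem' := by
        rintro _ ⟨l, rfl⟩
        exact hinv l }
  have hK : K = ⊤ := hA.gen K (fun p => ⟨[(p, 1)], by simp [wd]⟩) (fun q => ⟨[(1, q)], by simp [wd]⟩)
  have : c ∈ K := by rw [hK]; exact Subgroup.mem_top c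
  exact this

theorem vr_conj' {x c : G} (h : IsVirtualRetract (Subgroup.zpowers (c * x * c⁻¹))) :
    IsVirtualRetract (Subgroup.zpowers x) := by
  have := vr_conj _ c⁻¹ h
  convert this using 2
  group

/-- reduction to the factors and to cyclically reduced words -/
theorem vr_words (hA : Amal ι κ f g)
    (h1 : ∀ p, IsVirtualRetract (Subgroup.zpowers (f p)))
    (h2 : ∀ q, IsVirtualRetract (Subgroup.zpowers (g q)))
    (h3 : ∀ l : List (P × Q), l ≠ [] → (∀ a ∈ l, (∀ h, ι h ≠ a.1) ∧ ∀ h, κ h ≠ a.2) →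
      IsVirtualRetract (Subgroup.zpowers (wd f g l))) :
    ∀ (n : ℕ) (l : List (P × Q)), l.length = n → IsVirtualRetract (Subgroup.zpowers (wd f g l)) := by
  intro n
  induction n using Nat.strong_induction_on with
  | _ n ih =>
    intro l hl
    by_cases hnil : l = []
    · subst hnil
      have := h1 1
      rwa [map_one, ← wd_nil (f := f) (g := g)] at this
    by_cases hgood : ∀ a ∈ l, (∀ h, ι h ≠ a.1) ∧ ∀ h, κ h ≠ a.2
    · exact h3 l hnil hgood
    -- a bad entry
    push Not at hgood
    obtain ⟨a, hal, hbad⟩ := hgood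
    obtain ⟨l1, l2, rfl⟩ := List.append_of_mem hal
    have hrot : IsVirtualRetract (Subgroup.zpowers (wd f g (a :: (l2 ++ l1)))) →
        IsVirtualRetract (Subgroup.zpowers (wd f g (l1 ++ a :: l2))) := by
      intro h
      have := vr_conj _ (wd f g l1) h
      convert this using 2
      rw [wd_append, wd_cons, wd_cons, wd_append]
      group
    apply hrot
    have hlen : (l2 ++ l1).length < n := by
      rw [← hl]; simp; omega
    set l' := l2 ++ l1 with hl'
    have hlen' : l'.length + 1 = n := by rw [← hl, hl']; simp; omega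
    by_cases hb1 : ∃ h, ι h = a.1
    · obtain ⟨h, hh⟩ := hb1
      rcases List.eq_nil_or_concat l' with h0 | ⟨l'', b, hb⟩
      · rw [h0, wd_cons, wd_nil, mul_one, ← hh, hA.comm, ← map_mul]
        exact h2 _
      · rw [List.concat_eq_append] at hb
        rw [hb, wd_cons, wd_append, ← hh, hA.comm, ← map_mul]
        have h4 : IsVirtualRetract (Subgroup.zpowers (wd f g (l'' ++ [(b.1, b.2 * (κ h * a.2))]))) := by
          refine ih l'.length (by omega) _ ?_
          rw [hb]; simp
        have := vr_conj _ (g (κ h * a.2)) h4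
        convert this using 2
        rw [wd_append, wd_cons, wd_cons, wd_nil, mul_one, mul_one, map_mul g b.2]
        group
    · push Not at hb1
      obtain ⟨h, hh⟩ := hbad hb1
      rcases l' with _ | ⟨b, l''⟩
      · rw [wd_cons, wd_nil, mul_one, ← hh, ← hA.comm, ← map_mul]
        exact h1 _
      · rw [wd_cons, wd_cons, ← hh, ← hA.comm]
        have h4 : IsVirtualRetract (Subgroup.zpowers (wd f g ((a.1 * ι h * b.1, b.2) :: l''))) := by
          refine ih (l''.length + 1) (by simpa using hlen) _ ?_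
          simp
        convert h4 using 2
        rw [wd_cons]
        simp [mul_assoc]

end words

theorem wd_range {G : Type z} {P : Type u} {Q : Type v} [Group G] [Group P] [Group Q]
    (f : P →* G) (g : Q →* G) (l : List (P × Q)) :
    wd f g l = ((List.range l.length).map
      (fun c => f (l.getD c (1, 1)).1 * g (l.getD c (1, 1)).2)).prod := by
  unfold wd
  congr 1
  apply List.ext_getElem
  · simp
  · intro i h1 h2
    simp only [List.length_map] at h1
    simp [h1]

/-- separation of finitely many elements from the image of `H` -/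
theorem sep_list {P : Type u} [Group P] (hP : HasVRC P) {H : Type w} [Group H] (ι : H →* P)
    (r : H) (hfi : (Subgroup.zpowers r).FiniteIndex)
    (l : List P) (hl : ∀ p ∈ l, ∀ h, ι h ≠ p) :
    ∃ (N : Subgroup P) (_ : N.Normal), N.FiniteIndex ∧ ∀ p ∈ l, ∀ h, (ι h)⁻¹ * p ∉ N := by
  induction l with
  | nil => exact ⟨⊤, inferInstance, inferInstance, by simp⟩
  | cons p l ih =>
    obtain ⟨N₁, hN₁, hN₁f, h1⟩ := ih (fun q hq => hl q (List.mem_cons_of_mem _ hq))
    have hp : ∀ h, ι h ≠ p := hl p List.mem_cons_self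
    have h2 : ∀ q : H ⧸ Subgroup.zpowers r, ∃ (N : Subgroup P) (_ : N.Normal), N.FiniteIndex ∧
        ∀ k : ℤ, (ι q.out)⁻¹ * p * (ι r) ^ k ∉ N := by
      intro q
      apply sep hP
      rintro ⟨k, hk⟩
      apply hp (q.out * r ^ k)
      have hk' : (ι r) ^ k = (ι q.out)⁻¹ * p := hk
      rw [map_mul, map_zpow, hk', mul_inv_cancel_left]
    choose Nq hNq hNqf hNqs using h2
    have hN₂n : (⨅ q, Nq q).Normal := Subgroup.normal_iInf_normal hNq
    have hN₂f : (⨅ q, Nq q).FiniteIndex := Subgroup.finiteIndex_iInf hNqf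
    refine ⟨N₁ ⊓ ⨅ q, Nq q, inferInstance, inferInstance, ?_⟩
    intro p' hp' h hmem
    rcases List.mem_cons.1 hp' with rfl | hp'
    · have h3 := (Subgroup.mem_iInf.1 hmem.2) (QuotientGroup.mk h)
      have h4 : (QuotientGroup.mk h : H ⧸ Subgroup.zpowers r).out⁻¹ * h ∈ Subgroup.zpowers r := by
        rw [← QuotientGroup.eq]; exact QuotientGroup.out_eq' _
      obtain ⟨k, hk⟩ := h4
      have hk' : r ^ k = (QuotientGroup.mk h : H ⧸ Subgroup.zpowers r).out⁻¹ * h := hk
      refine hNqs (QuotientGroup.mk h) (-k) ?_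
      have h5 := (hNq (QuotientGroup.mk h)).conj_mem _ h3 ((ι r) ^ k)
      convert h5 using 1
      have h6 : (ι r) ^ k = (ι (QuotientGroup.mk h : H ⧸ Subgroup.zpowers r).out)⁻¹ * ι h := by
        rw [← map_zpow, hk', map_mul, map_inv]
      rw [zpow_neg]
      have h7 : (ι (QuotientGroup.mk h : H ⧸ Subgroup.zpowers r).out)⁻¹ = (ι r) ^ k * (ι h)⁻¹ := by
        rw [h6]; group
      rw [h7]
      group
    · exact h1 p' hp' h hmem.1

/-- the abstract main theorem -/
theorem main {G : Type z} {P : Type u} {Q : Type v} {H : Type w} [Group G] [Group P]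
    [Group Q] [Group H] {ι : H →* P} {κ : H →* Q} {f : P →* G} {g : Q →* G} (hA : Amal ι κ f g)
    (hι : Function.Injective ι) (hκ : Function.Injective κ) (hP : HasVRC P) (hQ : HasVRC Q)
    (hH : IsVirtuallyCyclic H) : HasVRC G := by
  classical
  -- a generator of infinite order or trivial
  obtain ⟨r, hfi, hr⟩ : ∃ r : H, (Subgroup.zpowers r).FiniteIndex ∧
      (r = 1 ∨ ∀ k : ℤ, r ^ k = 1 → k = 0) := by
    obtain ⟨r, hr⟩ := hH
    by_cases h : ∀ k : ℤ, r ^ k = 1 → k = 0
    · exact ⟨r, hr, Or.inr h⟩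
    · push Not at h
      obtain ⟨k, hk, hk0⟩ := h
      have h1 : IsOfFinOrder r := isOfFinOrder_iff_zpow_eq_one.2 ⟨k, hk0, hk⟩
      have h2 : Finite (Subgroup.zpowers r) := (finite_zpowers.2 h1).to_subtype
      have h3 : Finite H := (Subgroup.finite_iff_finite_and_finiteIndex (Subgroup.zpowers r)).2
        ⟨h2, hr⟩
      exact ⟨1, inferInstance, Or.inl rfl⟩
  intro c
  obtain ⟨l, rfl⟩ := exists_wd hA c
  refine vr_words hA (fun p => elliptic hA hι hκ hP hQ r hfi hr p)
    (fun q => elliptic hA.symm hκ hι hQ hP r hfi hr q) ?_ l.length l rfl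
  clear l
  intro l hnil hgood
  obtain ⟨N₀, hN₀, hN₀f, hN₀s⟩ := sep_list hP ι r hfi (l.map Prod.fst) (by
    intro p hp
    obtain ⟨a, ha, rfl⟩ := List.mem_map.1 hp
    exact (hgood a ha).1)
  obtain ⟨L₀, hL₀, hL₀f, hL₀s⟩ := sep_list hQ κ r hfi (l.map Prod.snd) (by
    intro p hp
    obtain ⟨a, ha, rfl⟩ := List.mem_map.1 hp
    exact (hgood a ha).2)
  obtain ⟨M, hM, N, hN, L, hL, hNf, hNN, hND, hLf, hLL, hLD⟩ :=
    match_two hP hQ ι hι κ hκ r hfi hr N₀ hN₀f L₀ hL₀f
  obtain ⟨k, x, i₀, hx, hσ⟩ := exists_transversal ι N hNf _ hND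
  obtain ⟨k', y, j₀, hy, hτ⟩ := exists_transversal κ L hLf _ hLD
  have hDN : (N.comap ι) = Subgroup.zpowers (r ^ M) := by
    ext h; exact hND h
  have hDfi : (Subgroup.zpowers (r ^ M)).FiniteIndex := by
    rw [← hDN]
    exact comap_fi ι N hNf
  have hDn : (Subgroup.zpowers (r ^ M)).Normal := by
    rw [← hDN]; infer_instance
  have hfinX : Finite (H ⧸ Subgroup.zpowers (r ^ M)) := inferInstance
  rw [wd_range]
  obtain ⟨m, hm⟩ : ∃ m, l.length = m + 1 :=
    ⟨l.length - 1, by have := List.length_pos_of_ne_nil hnil; omega⟩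
  rw [hm]
  refine hyperbolic hA (Subgroup.zpowers (r ^ M)) N hND x hσ L hLD y hτ m
    (fun c => (l.getD c (1, 1)).1) (fun c => (l.getD c (1, 1)).2) ?_ ?_
  · intro c hc h hmem
    have h1 : c < l.length := by omega
    refine hN₀s (l.getD c (1, 1)).1 ?_ h (hNN hmem)
    rw [List.getD_eq_getElem _ _ h1]
    exact List.mem_map_of_mem (List.getElem_mem h1)
  · intro c hc h hmem
    have h1 : c < l.length := by omega
    refine hL₀s (l.getD c (1, 1)).2 ?_ h (hLL hmem)
    rw [List.getD_eq_getElem _ _ h1]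
    exact List.mem_map_of_mem (List.getElem_mem h1)

/-- the concrete amalgam -/
theorem amalgam_amal {P : Type u} {Q : Type v} [Group P] [Group Q] {R : Subgroup P}
    {S : Subgroup Q} (e : R ≃* S) :
    Amal (G := Amalgam e) R.subtype (S.subtype.comp e.toMonoidHom)
      ((QuotientGroup.mk' _).comp Monoid.Coprod.inl)
      ((QuotientGroup.mk' _).comp Monoid.Coprod.inr) where
  comm h := by
    apply QuotientGroup.eq.2
    rw [← inv_mem_iff]
    have h1 : Monoid.Coprod.inl (h : P) * (Monoid.Coprod.inr ((e h : S) : Q))⁻¹ ∈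
        Subgroup.normalClosure {x : Monoid.Coprod P Q | ∃ r : R,
          x = Monoid.Coprod.inl (r : P) * (Monoid.Coprod.inr ((e r : S) : Q))⁻¹} :=
      Subgroup.subset_normalClosure ⟨h, rfl⟩
    have h2 := Subgroup.Normal.conj_mem inferInstance _ h1 (Monoid.Coprod.inr ((e h : S) : Q))⁻¹
    convert h2 using 1
    show (((Monoid.Coprod.inl (h : P) : Monoid.Coprod P Q))⁻¹ *
      (Monoid.Coprod.inr ((e h : S) : Q)))⁻¹ = _
    group
  gen K h1 h2 := by
    rw [eq_top_iff]
    rintro c -
    obtain ⟨c, rfl⟩ := QuotientGroup.mk_surjective c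
    induction c using Monoid.Coprod.induction_on with
    | inl p => exact h1 p
    | inr q => exact h2 q
    | mul a b ha hb => exact K.mul_mem ha hb
  lift Y A B h := by
    refine ⟨QuotientGroup.lift _ (Monoid.Coprod.lift A B) ?_, ?_, ?_⟩
    · intro x hx
      have h1 : Subgroup.normalClosure {x : Monoid.Coprod P Q | ∃ r : R,
          x = Monoid.Coprod.inl (r : P) * (Monoid.Coprod.inr ((e r : S) : Q))⁻¹} ≤
          (Monoid.Coprod.lift A B).ker := by
        apply Subgroup.normalClosure_le_normal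
        rintro _ ⟨r, rfl⟩
        show Monoid.Coprod.lift A B _ = 1
        rw [map_mul, map_inv, Monoid.Coprod.lift_apply_inl, Monoid.Coprod.lift_apply_inr]
        have h2 := h r
        have h3 : A (r : P) = B ((e r : S) : Q) := h2
        rw [h3, mul_inv_cancel]
      exact h1 hx
    · intro p
      exact Monoid.Coprod.lift_apply_inl A B p
    · intro q
      exact Monoid.Coprod.lift_apply_inr A B q

/-- the main theorem -/
theorem vrc_amalgam {P : Type u} {Q : Type v} [Group P] [Group Q] (hP : HasVRC P) (hQ : HasVRC Q)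
    {R : Subgroup P} {S : Subgroup Q} (e : R ≃* S) (hR : IsVirtuallyCyclic R) :
    HasVRC (Amalgam e) :=
  main (amalgam_amal e) R.subtype_injective
    (by
      intro a b h
      exact e.injective (S.subtype_injective h)) hP hQ hR

end Pool.Agent.W2helper29.VR
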