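import Pool.Agent.W2helper29.CY1

/-!
# Zenkov's theorem on the intersection of conjugates of an abelian subgroup
-/

set_option autoImplicit false

universe u

namespace Pool.Agent.W2helper29.CY

open Subgroup MulAction

/-- the conjugate `g B g⁻¹` -/
def cj {G : Type u} [Group G] (g : G) (B : Subgroup G) : Subgroup G :=
  B.map (MulAut.conj g).toMonoidHom

theorem mem_cj {G : Type u} [Group G] {g y : G} {B : Subgroup G} :
    y ∈ cj g B ↔ g⁻¹ * y * g ∈ B := by
  constructor
  · rintro ⟨b, hb, rfl⟩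
    simpa [mul_assoc] using hb
  · intro h
    exact ⟨g⁻¹ * y * g, h, by simp [mul_assoc]⟩

theorem pair_of_mem {G : Type u} [Group G] {p : ℕ} {N : Subgroup G} [N.Normal] {x y : G}
    (hN : IsPGroup p N) (hx : x ∈ N) (hy : ∃ k, y ^ p ^ k = 1) :
    IsPGroup p (closure ({x, y} : Set G)) := by
  obtain ⟨k, hk⟩ := hy
  have h1 : IsPGroup p (zpowers y) := by
    rintro ⟨z, hz⟩
    rw [mem_zpowers_iff] at hz
    obtain ⟨i, rfl⟩ := hz
    refine ⟨k, ?_⟩
    ext
    simp only [SubgroupClass.coe_pow, OneMemClass.coe_one]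
    rw [← zpow_natCast, ← zpow_mul, mul_comm, zpow_mul, zpow_natCast, hk, one_zpow]
  have h2 := IsPGroup.to_sup_of_normal_left hN h1
  refine h2.to_le ?_
  rw [closure_le]
  rintro z (rfl | hz)
  · exact mem_sup_left hx
  · rw [Set.mem_singleton_iff] at hz
    subst hz
    exact mem_sup_right (mem_zpowers _)

theorem zenkov_aux (n : ℕ) : ∀ (G : Type u) [Group G] [Finite G], Nat.card G ≤ n →
    ∀ (A B : Subgroup G), (∀ a ∈ A, ∀ b ∈ A, a * b = b * a) → (∀ a ∈ B, ∀ b ∈ B, a * b = b * a) →
    (∀ g : G, A ⊓ cj g B ≤ A ⊓ B → A ⊓ B ≤ A ⊓ cj g B) →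
    ∀ (p : ℕ) [Fact p.Prime] (x : G), x ∈ A ⊓ B → (∃ k, x ^ p ^ k = 1) →
    ∀ g : G, IsPGroup p (closure ({x, g * x * g⁻¹} : Set G)) := by
  induction n with
  | zero =>
    intro G _ _ hn
    exact absurd hn (by have := Nat.card_pos (α := G); omega)
  | succ n ih =>
    intro G _ _ hn A B hA hB hmin p _ x hx hxp g
    have hy : ∃ k, (g * x * g⁻¹) ^ p ^ k = 1 := by
      obtain ⟨k, hk⟩ := hxp
      exact ⟨k, by rw [conj_pow, hk]; simp⟩
    by_cases htop : A ⊔ cj g B = ⊤
    · have hcent : ∀ y ∈ A ⊓ cj g B, ∀ z : G, z * y = y * z := by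
        intro y hyy z
        have hle : A ⊔ cj g B ≤ centralizer ({y} : Set G) := by
          refine sup_le ?_ ?_
          · intro a ha
            rw [mem_centralizer_singleton_iff]
            exact hA _ ha _ hyy.1
          · intro b hb
            rw [mem_centralizer_singleton_iff]
            have h1 := mem_cj.1 hb
            have h2 := mem_cj.1 hyy.2
            have h3 := hB _ h1 _ h2
            have := congrArg (fun t => g * t * g⁻¹) h3
            simpa [mul_assoc] using this
        rw [htop] at hle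
        have := hle (mem_top z)
        rw [mem_centralizer_singleton_iff] at this
        exact this
      have hle : A ⊓ cj g B ≤ A ⊓ B := by
        intro y hyy
        refine ⟨hyy.1, ?_⟩
        have h1 := mem_cj.1 hyy.2
        have h2 := hcent y hyy g
        have e : g⁻¹ * y * g = y := by
          rw [mul_assoc, ← h2]
          simp
        rwa [e] at h1
      have hx' := hmin g hle hx
      have h2 := hcent x hx' g
      have e : g * x * g⁻¹ = x := by rw [h2]; simp
      rw [e]
      obtain ⟨k, hk⟩ := hxp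
      have h3 : IsPGroup p (closure ({x, x} : Set G)) :=
        pair_of_mem (N := ⊥) (x := 1) (y := x) IsPGroup.of_bot (mem_bot.2 rfl) ⟨k, hk⟩ |>.to_le (by
          rw [closure_le]
          rintro z (rfl | hz)
          · exact subset_closure (by simp)
          · rw [Set.mem_singleton_iff] at hz
            subst hz
            exact subset_closure (by simp))
      exact h3
    · set H : Subgroup G := A ⊔ cj g B with hH
      have hAH : A ≤ H := le_sup_left
      have hBH : cj g B ≤ H := le_sup_right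
      have hcard : Nat.card H ≤ n := by
        have h1 : Nat.card H < Nat.card G := by
          refine lt_of_le_of_ne (Nat.card_le_card_of_injective _ H.subtype_injective) ?_
          intro h
          exact htop (eq_top_of_card_eq H h)
        omega
      have hxH : x ∈ H := hAH hx.1
      have hyH : g * x * g⁻¹ ∈ H := hBH (mem_cj.2 (by
        have : g⁻¹ * (g * x * g⁻¹) * g = x := by group
        rw [this]; exact hx.2))
      have key := ih H hcard (A.subgroupOf H) (B.subgroupOf H)
        (fun a ha b hb => Subtype.ext (hA _ (mem_subgroupOf.1 ha) _ (mem_subgroupOf.1 hb)))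
        (fun a ha b hb => Subtype.ext (hB _ (mem_subgroupOf.1 ha) _ (mem_subgroupOf.1 hb)))
        (by
          intro h hle
          have h1 : A ⊓ cj (h : G) B ≤ A ⊓ B := by
            intro y hy
            refine ⟨hy.1, ?_⟩
            have hyH' : y ∈ H := hAH hy.1
            have h2 : (⟨y, hyH'⟩ : H) ∈ A.subgroupOf H ⊓ cj h (B.subgroupOf H) := by
              refine mem_inf.2 ⟨mem_subgroupOf.2 hy.1, ?_⟩
              rw [mem_cj, mem_subgroupOf]
              exact mem_cj.1 hy.2
            exact mem_subgroupOf.1 (hle h2).2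
          have h3 := hmin h h1
          rintro ⟨y, hyH'⟩ hy
          have h4 := h3 (show y ∈ A ⊓ B from ⟨mem_subgroupOf.1 hy.1, mem_subgroupOf.1 hy.2⟩)
          refine mem_inf.2 ⟨hy.1, ?_⟩
          rw [mem_cj, mem_subgroupOf]
          exact mem_cj.1 h4.2)
        p ⟨x, hxH⟩ ⟨mem_subgroupOf.2 hx.1, mem_subgroupOf.2 hx.2⟩ (by
          obtain ⟨k, hk⟩ := hxp
          exact ⟨k, Subtype.ext (by simpa using hk)⟩)
      have hbs := baerSuzuki (⟨x, hxH⟩ : H) key
      have hpair := pair_of_mem (N := normalClosure {(⟨x, hxH⟩ : H)}) (x := ⟨x, hxH⟩)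
        (y := ⟨g * x * g⁻¹, hyH⟩) hbs (subset_normalClosure (by simp)) (by
          obtain ⟨k, hk⟩ := hy
          exact ⟨k, Subtype.ext (by simpa using hk)⟩)
      refine (hpair.map H.subtype).to_le ?_
      rw [closure_le]
      rintro z (rfl | hz)
      · exact ⟨⟨z, hxH⟩, subset_closure (by simp), rfl⟩
      · rw [Set.mem_singleton_iff] at hz
        subst hz
        exact ⟨⟨g * x * g⁻¹, hyH⟩, subset_closure (by simp), rfl⟩

/-- the group has no nontrivial normal subgroup of prime power order -/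
def NoRad (G : Type u) [Group G] : Prop :=
  ∀ p : ℕ, p.Prime → ∀ N : Subgroup G, N.Normal → IsPGroup p N → N = ⊥

theorem zenkov {G : Type u} [Group G] [Finite G] (hG : NoRad G) (A : Subgroup G)
    (hA : ∀ a ∈ A, ∀ b ∈ A, a * b = b * a) : ∃ g : G, A ⊓ cj g A = ⊥ := by
  obtain ⟨g₀, -, hg₀⟩ := Set.exists_min_image (Set.univ : Set G)
    (fun g => Nat.card (A ⊓ cj g A : Subgroup G)) (Set.toFinite _) ⟨1, trivial⟩
  refine ⟨g₀, ?_⟩
  by_contra hne
  set B := cj g₀ A with hB
  have hBc : ∀ a ∈ B, ∀ b ∈ B, a * b = b * a := by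
    intro a ha b hb
    have h3 := hA _ (mem_cj.1 ha) _ (mem_cj.1 hb)
    have := congrArg (fun t => g₀ * t * g₀⁻¹) h3
    simpa [mul_assoc] using this
  have hcc : ∀ g : G, cj g B = cj (g * g₀) A := by
    intro g
    ext y
    rw [mem_cj, mem_cj, mem_cj]
    simp [mul_assoc]
  have hmin : ∀ g : G, A ⊓ cj g B ≤ A ⊓ B → A ⊓ B ≤ A ⊓ cj g B := by
    intro g hle
    have h1 := hg₀ (g * g₀) trivial
    have h1' : Nat.card (A ⊓ B : Subgroup G) ≤ Nat.card (A ⊓ cj g B : Subgroup G) := by
      rw [hcc]; exact h1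
    exact (eq_of_le_of_card_ge hle h1').ge
  have hcard : Nat.card (A ⊓ B : Subgroup G) ≠ 1 := by
    intro h
    exact hne (Subgroup.card_eq_one.1 h)
  obtain ⟨p, hp, hpd⟩ := Nat.exists_prime_and_dvd hcard
  have := Fact.mk hp
  obtain ⟨x, hx⟩ := exists_prime_orderOf_dvd_card' (G := (A ⊓ B : Subgroup G)) p hpd
  have hx1 : (x : G) ^ p ^ 1 = 1 := by
    have := pow_orderOf_eq_one x
    rw [hx] at this
    rw [pow_one]
    exact_mod_cast congrArg Subtype.val this
  have h2 := zenkov_aux (Nat.card G) G le_rfl A B hA hBc hmin p x.1 x.2 ⟨1, hx1⟩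
  have h3 := baerSuzuki x.1 h2
  have h4 := hG p hp _ normalClosure_normal h3
  have h5 : (x : G) ∈ normalClosure {(x : G)} := subset_normalClosure (by simp)
  rw [h4, mem_bot] at h5
  have h6 : x = 1 := Subtype.ext h5
  rw [h6, orderOf_one] at hx
  exact hp.one_lt.ne hx

theorem card_sq_lt {G : Type u} [Group G] [Finite G] [Nontrivial G] (hG : NoRad G)
    (A : Subgroup G) (hA : ∀ a ∈ A, ∀ b ∈ A, a * b = b * a) :
    Nat.card A * Nat.card A < Nat.card G := by
  obtain ⟨g, hg⟩ := zenkov hG A hA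
  have hinj : Function.Injective (fun z : A × A => (z.1 : G) * (g * z.2 * g⁻¹)) := by
    rintro ⟨a, b⟩ ⟨a', b'⟩ h
    simp only at h
    have h1 : (a' : G)⁻¹ * a = (g * b' * g⁻¹) * (g * b * g⁻¹)⁻¹ := by
      rw [eq_mul_inv_iff_mul_eq, mul_assoc, h]
      simp
    have h2 : (a' : G)⁻¹ * a ∈ A ⊓ cj g A := by
      refine mem_inf.2 ⟨mul_mem (inv_mem a'.2) a.2, ?_⟩
      rw [mem_cj, h1]
      have : g⁻¹ * (g * b' * g⁻¹ * (g * b * g⁻¹)⁻¹) * g = (b' : G) * (b : G)⁻¹ := by group
      rw [this]
      exact mul_mem b'.2 (inv_mem b.2)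
    rw [hg, mem_bot] at h2
    have h3 : a = a' := Subtype.ext (inv_mul_eq_one.1 h2).symm
    subst h3
    have h4 : g * (b : G) * g⁻¹ = g * (b' : G) * g⁻¹ := mul_left_cancel h
    have h5 : b = b' := Subtype.ext (by simpa using h4)
    rw [h5]
  have hle : Nat.card (A × A) ≤ Nat.card G := Nat.card_le_card_of_injective _ hinj
  rw [Nat.card_prod] at hle
  refine lt_of_le_of_ne hle ?_
  intro heq
  have hbij : Function.Bijective (fun z : A × A => (z.1 : G) * (g * z.2 * g⁻¹)) := by
    refine (Nat.bijective_iff_injective_and_card _).2 ⟨hinj, ?_⟩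
    rw [Nat.card_prod, heq]
  obtain ⟨⟨a, b⟩, hab⟩ := hbij.2 g⁻¹
  simp only at hab
  have hgA : g ∈ A := by
    have h1 : (a : G) * g * b = 1 := by
      have := congrArg (fun t => t * g) hab
      simpa [mul_assoc] using this
    have h2 : g = (a : G)⁻¹ * (b : G)⁻¹ := by
      rw [eq_mul_inv_iff_mul_eq]
      refine eq_inv_of_mul_eq_one_right ?_
      rw [← mul_assoc]
      exact h1
    rw [h2]
    exact mul_mem (inv_mem a.2) (inv_mem b.2)
  have hAle : A ≤ cj g A := by
    intro y hy
    rw [mem_cj]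
    exact mul_mem (mul_mem (inv_mem hgA) hy) hgA
  have hAbot : A = ⊥ := by
    rw [← hg]
    exact (inf_eq_left.2 hAle).symm
  subst hAbot
  have : Nat.card G = 1 := by rw [← heq]; simp
  have h2 := Finite.one_lt_card (α := G)
  omega

end Pool.Agent.W2helper29.CY
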