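import Pool.Agent.W2helper29.CY2

/-!
# Counting cyclic subgroups
-/

set_option autoImplicit false

universe u

namespace Pool.Agent.W2helper29.CY

open Subgroup MulAction

/-- the cyclic subgroups of `G` -/
abbrev Cyc (G : Type u) [Group G] := {H : Subgroup G // IsCyclic H}

/-- the number of subgroups of order `q` -/
noncomputable def nsub (G : Type u) [Group G] (q : ℕ) : ℕ := Nat.card {H : Subgroup G // Nat.card H = q}

variable {G : Type u} [Group G]

theorem card_gen [Finite G] (C : Subgroup G) (hC : IsCyclic C) :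
    Nat.card {g : G // zpowers g = C} = Nat.totient (Nat.card C) := by
  classical
  have := Fintype.ofFinite C
  rw [← IsCyclic.card_orderOf_eq_totient (α := C) (d := Nat.card C)
    (by rw [Nat.card_eq_fintype_card]), ← Fintype.card_subtype, ← Nat.card_eq_fintype_card]
  refine Nat.card_congr
    { toFun := fun g => ⟨⟨g.1, g.2.le (mem_zpowers g.1)⟩, ?_⟩
      invFun := fun c => ⟨c.1.1, ?_⟩
      left_inv := fun g => rfl
      right_inv := fun c => rfl }
  · rw [orderOf_mk, ← Nat.card_zpowers, g.2]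
  · refine eq_of_le_of_card_ge ?_ ?_
    · rw [zpowers_le]; exact c.1.2
    · rw [Nat.card_zpowers, orderOf_coe, c.2]

theorem sum_totient [Finite G] [Fintype (Cyc G)] :
    Nat.card G = ∑ C : Cyc G, Nat.totient (Nat.card C.1) := by
  classical
  have := Fintype.ofFinite G
  let f : G → Cyc G := fun g => ⟨zpowers g, inferInstance⟩
  rw [← Nat.card_congr (Equiv.sigmaFiberEquiv f), Nat.card_sigma]
  refine Finset.sum_congr rfl fun C _ => ?_
  rw [← card_gen C.1 C.2]
  refine Nat.card_congr (Equiv.subtypeEquivRight fun g => ?_)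
  exact Subtype.ext_iff

theorem not_small [Finite G] {M : ℕ} (hM : Nat.card (Cyc G) ≤ M)
    (h : ∀ C : Cyc G, M * Nat.totient (Nat.card C.1) < Nat.card G) : False := by
  classical
  have := Fintype.ofFinite (Cyc G)
  have h0 : (Finset.univ : Finset (Cyc G)).Nonempty := ⟨⟨⊥, inferInstance⟩, Finset.mem_univ _⟩
  have h1 : ∑ C : Cyc G, M * Nat.totient (Nat.card C.1) < ∑ _C : Cyc G, Nat.card G :=
    Finset.sum_lt_sum_of_nonempty h0 fun C _ => h C
  rw [← Finset.mul_sum, ← sum_totient, Finset.sum_const, smul_eq_mul, Finset.card_univ,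
    ← Nat.card_eq_fintype_card] at h1
  exact absurd h1 (not_lt.2 (Nat.mul_le_mul_right _ hM))

theorem cyc_of_card {q : ℕ} (hq : q = 1 ∨ q.Prime) (H : Subgroup G) (hH : Nat.card H = q) :
    IsCyclic H := by
  rcases hq with rfl | hq
  · have : H = ⊥ := Subgroup.card_eq_one.1 hH
    subst this
    infer_instance
  · have := Fact.mk hq
    exact isCyclic_of_prime_card hH

theorem card_cyc_filter [Finite G] [Fintype (Cyc G)] [DecidableEq ℕ] {q : ℕ}
    (hq : q = 1 ∨ q.Prime) :
    (Finset.univ.filter fun C : Cyc G => Nat.card C.1 = q).card = nsub G q := by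
  rw [← Fintype.card_subtype, ← Nat.card_eq_fintype_card, nsub]
  refine Nat.card_congr
    { toFun := fun C => ⟨C.1.1, C.2⟩
      invFun := fun H => ⟨⟨H.1, cyc_of_card hq H.1 H.2⟩, H.2⟩
      left_inv := fun g => rfl
      right_inv := fun c => rfl }

theorem count2 [Finite G] {L : ℕ} (hL : ∀ C : Cyc G, Nat.totient (Nat.card C.1) ≤ L)
    (S : Finset ℕ) (hS : ∀ q ∈ S, q = 1 ∨ q.Prime) :
    Nat.card G + ∑ q ∈ S, nsub G q * (L - Nat.totient q) ≤ L * Nat.card (Cyc G) := by
  classical
  have := Fintype.ofFinite (Cyc G)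
  have h1 : ∑ C : Cyc G, (Nat.totient (Nat.card C.1) + (L - Nat.totient (Nat.card C.1))) =
      L * Nat.card (Cyc G) := by
    rw [Finset.sum_congr rfl fun C _ => Nat.add_sub_cancel' (hL C), Finset.sum_const, smul_eq_mul,
      Finset.card_univ, ← Nat.card_eq_fintype_card, mul_comm]
  rw [← h1, Finset.sum_add_distrib, ← sum_totient]
  refine Nat.add_le_add_left ?_ _
  calc ∑ q ∈ S, nsub G q * (L - Nat.totient q)
      = ∑ q ∈ S, ∑ C ∈ (Finset.univ.filter fun C : Cyc G => Nat.card C.1 ∈ S) with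
          Nat.card C.1 = q, (L - Nat.totient (Nat.card C.1)) := by
        refine Finset.sum_congr rfl fun q hq => ?_
        rw [Finset.sum_congr rfl (g := fun _ => L - Nat.totient q), Finset.sum_const, smul_eq_mul,
          ← card_cyc_filter (hS q hq)]
        · congr 2
          ext C
          simp only [Finset.mem_filter, Finset.mem_univ, true_and]
          exact ⟨fun h => ⟨h ▸ hq, h⟩, fun h => h.2⟩
        · intro C hC
          rw [(Finset.mem_filter.1 hC).2]
    _ = ∑ C ∈ (Finset.univ.filter fun C : Cyc G => Nat.card C.1 ∈ S),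
          (L - Nat.totient (Nat.card C.1)) :=
        Finset.sum_fiberwise_of_maps_to (fun C hC => (Finset.mem_filter.1 hC).2) _
    _ ≤ _ := Finset.sum_le_sum_of_subset (Finset.filter_subset _ _)

theorem card_orderOf [Finite G] {q : ℕ} (hq : q = 1 ∨ q.Prime) :
    Nat.card {g : G // orderOf g = q} = nsub G q * Nat.totient q := by
  classical
  have := Fintype.ofFinite {H : Subgroup G // Nat.card H = q}
  let f : {g : G // orderOf g = q} → {H : Subgroup G // Nat.card H = q} := fun g =>
    ⟨zpowers g.1, by rw [Nat.card_zpowers, g.2]⟩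
  rw [← Nat.card_congr (Equiv.sigmaFiberEquiv f), Nat.card_sigma]
  rw [Finset.sum_congr rfl (g := fun _ => Nat.totient q), Finset.sum_const, smul_eq_mul, nsub,
    Finset.card_univ, ← Nat.card_eq_fintype_card]
  intro C _
  have h1 := card_gen C.1 (cyc_of_card hq C.1 C.2)
  rw [C.2] at h1
  rw [← h1]
  refine Nat.card_congr
    { toFun := fun g => ⟨g.1.1, Subtype.ext_iff.1 g.2⟩
      invFun := fun g => ⟨⟨g.1, by rw [← Nat.card_zpowers, g.2, C.2]⟩, Subtype.ext g.2⟩
      left_inv := fun g => rfl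
      right_inv := fun g => rfl }

theorem card_orderOf_mem [Finite G] (S : Finset ℕ) (hS : ∀ q ∈ S, q = 1 ∨ q.Prime) :
    Set.ncard {g : G | orderOf g ∈ S} = ∑ q ∈ S, nsub G q * Nat.totient q := by
  classical
  have := Fintype.ofFinite G
  have h1 : {g : G | orderOf g ∈ S} =
      ((Finset.univ.filter fun g : G => orderOf g ∈ S : Finset G) : Set G) := by
    ext g; simp
  have h2 : Set.MapsTo (fun g : G => orderOf g)
      ((Finset.univ.filter fun g : G => orderOf g ∈ S : Finset G) : Set G) (S : Set ℕ) :=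
    fun g hg => (Finset.mem_filter.1 hg).2
  rw [h1, Set.ncard_coe_finset, Finset.card_eq_sum_card_fiberwise h2]
  refine Finset.sum_congr rfl fun q hq => ?_
  rw [← card_orderOf (hS q hq), Nat.card_eq_fintype_card, Fintype.card_subtype]
  congr 1
  ext g
  simp only [Finset.mem_filter, Finset.mem_univ, true_and]
  exact ⟨fun h => h.2, fun h => ⟨h ▸ hq, h⟩⟩

theorem nsub_one : nsub G 1 = 1 := by
  rw [nsub, Nat.card_eq_one_iff_unique]
  refine ⟨⟨fun a b => ?_⟩, ⟨⟨⊥, by simp⟩⟩⟩
  apply Subtype.ext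
  rw [Subgroup.card_eq_one.1 a.2, Subgroup.card_eq_one.1 b.2]

theorem nsub_ne_one [Finite G] (hG : NoRad G) {p : ℕ} (hp : p.Prime) : nsub G p ≠ 1 := by
  intro h
  rw [nsub, Nat.card_eq_one_iff_unique] at h
  obtain ⟨hs, ⟨⟨C, hC⟩⟩⟩ := h
  have := Fact.mk hp
  have hn : C.Normal := by
    refine ⟨fun x hx g => ?_⟩
    have h1 : Nat.card (cj g C) = p := by
      rw [cj, ← hC]
      exact Nat.card_congr (C.equivMapOfInjective _ (MulAut.conj g).injective).symm.toEquiv
    have h2 := hs.elim ⟨C, hC⟩ ⟨cj g C, h1⟩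
    have h3 : C = cj g C := Subtype.ext_iff.1 h2
    rw [h3, mem_cj]
    have : g⁻¹ * (g * x * g⁻¹) * g = x := by group
    rwa [this]
  have h4 := hG p hp C hn (IsPGroup.of_card (n := 1) (by rw [hC, pow_one]))
  rw [h4, Subgroup.card_bot] at hC
  exact hp.one_lt.ne hC

theorem nsub_pos [Finite G] {p : ℕ} (hp : p.Prime) (hd : p ∣ Nat.card G) : 0 < nsub G p := by
  have := Fact.mk hp
  obtain ⟨x, hx⟩ := exists_prime_orderOf_dvd_card' (G := G) p hd
  have : Nonempty {H : Subgroup G // Nat.card H = p} := ⟨⟨zpowers x, by rw [Nat.card_zpowers, hx]⟩⟩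
  exact Nat.card_pos

theorem two_le_nsub [Finite G] (hG : NoRad G) {p : ℕ} (hp : p.Prime) (hd : p ∣ Nat.card G) :
    2 ≤ nsub G p := by
  have h1 := nsub_ne_one hG hp
  have h2 := nsub_pos hp hd
  omega

theorem nsub_eq_sylow [Finite G] {p m : ℕ} (hp : p.Prime) (hm : Nat.card G = p * m)
    (hpm : ¬ p ∣ m) : nsub G p = Nat.card (Sylow p G) := by
  have := Fact.mk hp
  have hm0 : m ≠ 0 := by
    rintro rfl
    exact hpm (dvd_zero _)
  have hf : (Nat.card G).factorization p = 1 := by
    rw [hm, Nat.factorization_mul hp.ne_zero hm0, Finsupp.add_apply, hp.factorization_self,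
      Nat.factorization_eq_zero_of_not_dvd hpm]
  have hc : ∀ P : Sylow p G, Nat.card P = p := fun P => by
    rw [P.card_eq_multiplicity, hf, pow_one]
  rw [nsub]
  refine Nat.card_congr
    { toFun := fun H => Sylow.ofCard H.1 (by rw [H.2, hf, pow_one])
      invFun := fun P => ⟨P, hc P⟩
      left_inv := fun H => rfl
      right_inv := fun P => Sylow.ext rfl }

theorem nsub_dvd [Finite G] {p m : ℕ} (hp : p.Prime) (hm : Nat.card G = p * m)
    (hpm : ¬ p ∣ m) : nsub G p ∣ m := by
  have := Fact.mk hp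
  rw [nsub_eq_sylow hp hm hpm]
  obtain ⟨P⟩ := (inferInstance : Nonempty (Sylow p G))
  have h1 := P.card_dvd_index
  have h2 : Nat.card P = p := by
    have hm0 : m ≠ 0 := by
      rintro rfl
      exact hpm (dvd_zero _)
    rw [P.card_eq_multiplicity, hm, Nat.factorization_mul hp.ne_zero hm0, Finsupp.add_apply,
      hp.factorization_self, Nat.factorization_eq_zero_of_not_dvd hpm, pow_one]
  have h3 := (P : Subgroup G).card_mul_index
  rw [hm] at h3
  have h4 : Nat.card (P : Subgroup G) = p := h2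
  rw [h4] at h3
  rwa [Nat.eq_of_mul_eq_mul_left hp.pos h3] at h1

theorem nsub_mod [Finite G] {p m : ℕ} (hp : p.Prime) (hm : Nat.card G = p * m)
    (hpm : ¬ p ∣ m) : nsub G p % p = 1 := by
  have := Fact.mk hp
  rw [nsub_eq_sylow hp hm hpm]
  have := card_sylow_modEq_one p G
  rw [Nat.ModEq, Nat.mod_eq_of_lt hp.one_lt] at this
  exact this

/-- a Sylow subgroup is normal when there are many elements of other prime orders -/
theorem normal_of_count [Finite G] {p : ℕ} [Fact p.Prime] (P : Sylow p G) (S : Finset ℕ)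
    (hS : ∀ q ∈ S, q.Prime ∧ q ≠ p)
    (h : Nat.card G ≤ Nat.card P + ∑ q ∈ S, nsub G q * Nat.totient q) :
    (P : Subgroup G).Normal := by
  classical
  have hpow : ∀ y ∈ (P : Subgroup G), ∀ q ∈ S, orderOf y ≠ q := by
    intro y hy q hq he
    obtain ⟨k, hk⟩ := P.2 ⟨y, hy⟩
    have h1 : y ^ p ^ k = 1 := by simpa using congrArg Subtype.val hk
    have h2 := orderOf_dvd_of_pow_eq_one h1
    rw [he] at h2
    exact (hS q hq).2 ((Nat.prime_dvd_prime_iff_eq (hS q hq).1 Fact.out).1
      ((hS q hq).1.dvd_of_dvd_pow h2))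
  have hdisj : Disjoint ((P : Subgroup G) : Set G) {g : G | orderOf g ∈ S} := by
    rw [Set.disjoint_left]
    intro y hy hy'
    exact hpow y hy _ hy' rfl
  have hun : ((P : Subgroup G) : Set G) ∪ {g : G | orderOf g ∈ S} = Set.univ := by
    refine Set.eq_of_subset_of_ncard_le (Set.subset_univ _) ?_ (Set.toFinite _)
    rw [Set.ncard_union_eq hdisj (Set.toFinite _) (Set.toFinite _), Set.ncard_univ,
      card_orderOf_mem S (fun q hq => Or.inr (hS q hq).1)]
    exact h
  refine ⟨fun y hy g => ?_⟩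
  have h1 : g * y * g⁻¹ ∈ ((P : Subgroup G) : Set G) ∪ {g : G | orderOf g ∈ S} := by
    rw [hun]; trivial
  rcases h1 with h1 | h1
  · exact h1
  · exfalso
    have h2 : orderOf (g * y * g⁻¹) = orderOf y := by
      have := (MulAut.conj g).orderOf_eq y
      simpa using this
    rw [Set.mem_setOf_eq, h2] at h1
    exact hpow y hy _ h1 rfl

end Pool.Agent.W2helper29.CY
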