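import Pool.Agent.W2helper29.CY3

/-!
# Quotients by normal `p`-subgroups
-/

set_option autoImplicit false

universe u

namespace Pool.Agent.W2helper29.CY

open Subgroup MulAction

variable {G : Type u} [Group G]

theorem cyc_map {N : Subgroup G} [N.Normal] (C : Cyc G) :
    IsCyclic (C.1.map (QuotientGroup.mk' N)) := by
  have := C.2
  exact isCyclic_of_surjective ((QuotientGroup.mk' N).subgroupMap C.1)
    ((QuotientGroup.mk' N).subgroupMap_surjective C.1)

/-- the image of a cyclic subgroup in a quotient -/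
def qmap (N : Subgroup G) [N.Normal] (C : Cyc G) : Cyc (G ⧸ N) :=
  ⟨C.1.map (QuotientGroup.mk' N), cyc_map C⟩

theorem qmap_zpowers (N : Subgroup G) [N.Normal] (g : G) :
    (qmap N ⟨zpowers g, inferInstance⟩ : Cyc (G ⧸ N)).1 = zpowers (QuotientGroup.mk' N g) := by
  exact (QuotientGroup.mk' N).map_zpowers g

theorem qmap_surjective (N : Subgroup G) [N.Normal] : Function.Surjective (qmap N) := by
  rintro ⟨C, hC⟩
  obtain ⟨⟨x, hx⟩, hxg⟩ := hC.exists_generator
  have hCx : C = zpowers x := by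
    refine le_antisymm ?_ (by rw [zpowers_le]; exact hx)
    intro y hy
    obtain ⟨k, hk⟩ := mem_zpowers_iff.1 (hxg ⟨y, hy⟩)
    exact mem_zpowers_iff.2 ⟨k, by simpa using congrArg Subtype.val hk⟩
  obtain ⟨g, rfl⟩ := QuotientGroup.mk'_surjective N x
  exact ⟨⟨zpowers g, inferInstance⟩, Subtype.ext ((qmap_zpowers N g).trans hCx.symm)⟩

theorem cyc_quot_le [Finite G] (N : Subgroup G) [N.Normal] :
    Nat.card (Cyc (G ⧸ N)) ≤ Nat.card (Cyc G) :=
  Nat.card_le_card_of_surjective _ (qmap_surjective N)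

theorem two_fib [Finite G] {p : ℕ} [Fact p.Prime] (N : Subgroup G) [N.Normal] (hN : IsPGroup p N)
    (hbot : N ≠ ⊥) (hp : ¬ p ∣ Nat.card (G ⧸ N)) (x : G ⧸ N) :
    ∃ C D : Cyc G, C ≠ D ∧ (qmap N C).1 = zpowers x ∧ (qmap N D).1 = zpowers x := by
  -- a lift of order prime to `p`
  set m := orderOf x with hm
  have hm0 : 0 < m := orderOf_pos x
  have hcop : Nat.Coprime p m := by
    rw [Nat.Prime.coprime_iff_not_dvd Fact.out]
    exact fun h => hp (h.trans (orderOf_dvd_natCard x))
  obtain ⟨g₀, rfl⟩ := QuotientGroup.mk'_surjective N x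
  have h1 : g₀ ^ m ∈ N := by
    have h2 : QuotientGroup.mk' N (g₀ ^ m) = 1 := by
      rw [map_pow, hm, pow_orderOf_eq_one]
    exact (QuotientGroup.eq_one_iff _).1 h2
  obtain ⟨k, hk⟩ := hN ⟨g₀ ^ m, h1⟩
  have hk' : (g₀ ^ m) ^ p ^ k = 1 := by simpa using congrArg Subtype.val hk
  obtain ⟨u, hu⟩ : ∃ u, p ^ k * u ≡ 1 [MOD m] := by
    rcases Nat.lt_or_ge 1 m with h | h
    · obtain ⟨u, hu⟩ := Nat.exists_mul_mod_eq_one_of_coprime (Nat.Coprime.pow_left k hcop) h
      exact ⟨u, by rw [Nat.ModEq, hu.2, Nat.mod_eq_of_lt h]⟩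
    · have : m = 1 := by omega
      exact ⟨1, by rw [this]; exact Nat.modEq_one⟩
  obtain ⟨g, hg⟩ : ∃ g, g = g₀ ^ (p ^ k * u) := ⟨_, rfl⟩
  have hgm : g ^ m = 1 := by
    rw [hg, ← pow_mul, show p ^ k * u * m = m * p ^ k * u by ring, pow_mul, pow_mul, hk', one_pow]
  have hgx : QuotientGroup.mk' N g = QuotientGroup.mk' N g₀ := by
    rw [hg, map_pow]
    have h3 : (QuotientGroup.mk' N g₀) ^ (p ^ k * u) = (QuotientGroup.mk' N g₀) ^ 1 := by
      rw [pow_eq_pow_iff_modEq]
      exact hu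
    rw [h3, pow_one]
  have hord : orderOf g = m := by
    refine Nat.dvd_antisymm (orderOf_dvd_of_pow_eq_one hgm) ?_
    rw [hm, ← hgx]
    exact orderOf_map_dvd _ _
  obtain ⟨y, hyN, hy1⟩ : ∃ y ∈ N, y ≠ 1 := by
    by_contra hcon
    push Not at hcon
    exact hbot ((eq_bot_iff_forall N).2 hcon)
  have hpy : ∀ z ∈ N, ∃ k, z ^ p ^ k = 1 := fun z hz => by
    obtain ⟨k, hk⟩ := hN ⟨z, hz⟩
    exact ⟨k, by simpa using congrArg Subtype.val hk⟩
  have hN1 : ∀ z ∈ N, QuotientGroup.mk' N z = 1 := fun z hz => (QuotientGroup.eq_one_iff _).2 hz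
  by_cases hc : ∃ z ∈ N, z ≠ 1 ∧ Commute g z
  · obtain ⟨z, hzN, hz1, hzc⟩ := hc
    refine ⟨⟨zpowers g, inferInstance⟩, ⟨zpowers (g * z), inferInstance⟩, ?_, ?_, ?_⟩
    · intro h
      have h4 : zpowers g = zpowers (g * z) := Subtype.ext_iff.1 h
      have h5 : orderOf g = orderOf (g * z) := by
        rw [← Nat.card_zpowers, h4, Nat.card_zpowers]
      obtain ⟨k', hk'⟩ := hpy z hzN
      obtain ⟨i, -, hi⟩ := (Nat.dvd_prime_pow Fact.out).1 (orderOf_dvd_of_pow_eq_one hk')
      have h6 : Nat.Coprime (orderOf g) (orderOf z) := by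
        rw [hord, hi]
        exact (Nat.Coprime.pow_left i hcop).symm
      rw [hzc.orderOf_mul_eq_mul_orderOf_of_coprime h6] at h5
      have h7 : orderOf z = 1 := by
        have h8 : 0 < orderOf g := orderOf_pos g
        have h9 : orderOf g * 1 = orderOf g * orderOf z := by rw [mul_one]; exact h5
        exact (Nat.eq_of_mul_eq_mul_left h8 h9).symm
      exact hz1 (orderOf_eq_one_iff.1 h7)
    · rw [qmap_zpowers, hgx]
    · rw [qmap_zpowers, map_mul, hN1 z hzN, mul_one, hgx]
  · push Not at hc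
    refine ⟨⟨zpowers g, inferInstance⟩, ⟨zpowers (y * g * y⁻¹), inferInstance⟩, ?_, ?_, ?_⟩
    · intro h
      have h4 : zpowers g = zpowers (y * g * y⁻¹) := Subtype.ext_iff.1 h
      have h5 : y * g * y⁻¹ ∈ zpowers g := by rw [h4]; exact mem_zpowers _
      obtain ⟨z, hz⟩ : ∃ z, z = y * g * y⁻¹ * g⁻¹ := ⟨_, rfl⟩
      have hzg : z ∈ zpowers g := by
        rw [hz]; exact mul_mem h5 (inv_mem (mem_zpowers g))
      have hzN : z ∈ N := by
        have h6 : g * y⁻¹ * g⁻¹ ∈ N := Normal.conj_mem inferInstance _ (inv_mem hyN) g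
        have h7 : z = y * (g * y⁻¹ * g⁻¹) := by rw [hz]; group
        rw [h7]
        exact mul_mem hyN h6
      obtain ⟨k', hk'⟩ := hpy z hzN
      have h8 : orderOf z ∣ p ^ k' := orderOf_dvd_of_pow_eq_one hk'
      have h9 : orderOf z ∣ m := by
        have h12 := orderOf_dvd_natCard (⟨z, hzg⟩ : zpowers g)
        rwa [orderOf_mk, Nat.card_zpowers, hord] at h12
      have h10 : orderOf z = 1 :=
        Nat.eq_one_of_dvd_coprimes (Nat.Coprime.pow_left k' hcop) h8 h9
      have h11 : z = 1 := orderOf_eq_one_iff.1 h10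
      refine hc y hyN hy1 ?_
      rw [hz, mul_inv_eq_one, mul_inv_eq_iff_eq_mul] at h11
      exact h11.symm
    · rw [qmap_zpowers, hgx]
    · rw [qmap_zpowers, map_mul, map_mul, map_inv, hN1 y hyN, one_mul, inv_one, mul_one, hgx]

theorem two_mul_cyc_quot_le [Finite G] {p : ℕ} [Fact p.Prime] (N : Subgroup G) [N.Normal]
    (hN : IsPGroup p N) (hbot : N ≠ ⊥) (hp : ¬ p ∣ Nat.card (G ⧸ N)) :
    2 * Nat.card (Cyc (G ⧸ N)) ≤ Nat.card (Cyc G) := by
  classical
  have hfib : ∀ X : Cyc (G ⧸ N), ∃ C D : Cyc G, C ≠ D ∧ qmap N C = X ∧ qmap N D = X := by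
    rintro ⟨X, hX⟩
    obtain ⟨⟨x, hx⟩, hxg⟩ := hX.exists_generator
    have hCx : X = zpowers x := by
      refine le_antisymm ?_ (by rw [zpowers_le]; exact hx)
      intro y hy
      obtain ⟨k, hk⟩ := mem_zpowers_iff.1 (hxg ⟨y, hy⟩)
      exact mem_zpowers_iff.2 ⟨k, by simpa using congrArg Subtype.val hk⟩
    obtain ⟨C, D, h1, h2, h3⟩ := two_fib N hN hbot hp x
    exact ⟨C, D, h1, Subtype.ext (h2.trans hCx.symm), Subtype.ext (h3.trans hCx.symm)⟩
  choose C D hne hC hD using hfib
  have hinj : Function.Injective (fun z : Bool × Cyc (G ⧸ N) => bif z.1 then C z.2 else D z.2) := by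
    rintro ⟨a, X⟩ ⟨b, Y⟩ h
    have hq : ∀ (a : Bool) (X : Cyc (G ⧸ N)), qmap N (bif a then C X else D X) = X := by
      rintro (_ | _) X
      · exact hD X
      · exact hC X
    have hXY : X = Y := by
      rw [← hq a X, ← hq b Y]
      exact congrArg _ h
    subst hXY
    rcases a with _ | _ <;> rcases b with _ | _
    · rfl
    · exact absurd h.symm (hne X)
    · exact absurd h (hne X)
    · rfl
  have := Nat.card_le_card_of_injective _ hinj
  rw [Nat.card_prod, Nat.card_eq_fintype_card, Fintype.card_bool] at this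
  exact this

/-- the number of distinct primes dividing the order -/
noncomputable def npr (G : Type u) [Group G] : ℕ := (Nat.card G).primeFactors.card

theorem reduction
    (hbase : ∀ (G : Type u) [Group G] [Finite G], NoRad G → ¬ Group.IsSolvable G →
      2 ^ (npr G + 2) ≤ Nat.card (Cyc G)) (n : ℕ) :
    ∀ (G : Type u) [Group G] [Finite G], Nat.card G ≤ n → ¬ Group.IsSolvable G →
      2 ^ (npr G + 2) ≤ Nat.card (Cyc G) := by
  induction n with
  | zero =>
    intro G _ _ hn
    exact absurd hn (by have := Nat.card_pos (α := G); omega)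
  | succ n ih =>
    intro G _ _ hn hs
    by_cases hG : NoRad G
    · exact hbase G hG hs
    · rw [NoRad] at hG
      push Not at hG
      obtain ⟨p, hp, N, hNn, hN, hbot⟩ := hG
      have := Fact.mk hp
      have hNs : Group.IsSolvable N := by
        have := hN.isNilpotent
        infer_instance
      have hcard : Nat.card G = Nat.card (G ⧸ N) * Nat.card N := Subgroup.card_eq_card_quotient_mul_card_subgroup N
      obtain ⟨k, hk⟩ := hN.exists_card_eq
      have hk0 : k ≠ 0 := by
        rintro rfl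
        rw [pow_zero] at hk
        exact hbot (Subgroup.card_eq_one.1 hk)
      have hpos : 0 < Nat.card (G ⧸ N) := Nat.card_pos
      have hlt : Nat.card (G ⧸ N) ≤ n := by
        have h2 : 2 ≤ Nat.card N := by
          rw [hk]
          calc 2 ≤ p := hp.two_le
            _ = p ^ 1 := (pow_one p).symm
            _ ≤ p ^ k := Nat.pow_le_pow_right hp.pos (by omega)
        have h3 : Nat.card (G ⧸ N) * 2 ≤ Nat.card G := by
          rw [hcard]; exact Nat.mul_le_mul_left _ h2
        omega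
      have hqs : ¬ Group.IsSolvable (G ⧸ N) := by
        intro hq
        refine hs (Group.isSolvable_of_ker_le_range N.subtype (QuotientGroup.mk' N) ?_)
        rw [QuotientGroup.ker_mk', range_subtype]
      have h1 := ih (G ⧸ N) hlt hqs
      have hpf : (Nat.card G).primeFactors = insert p (Nat.card (G ⧸ N)).primeFactors := by
        rw [hcard, hk, Nat.primeFactors_mul hpos.ne' (pow_ne_zero _ hp.ne_zero),
          Nat.primeFactors_prime_pow hk0 hp, Finset.union_comm, ← Finset.insert_eq]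
      by_cases hd : p ∣ Nat.card (G ⧸ N)
      · have h2 : npr G = npr (G ⧸ N) := by
          rw [npr, npr, hpf, Finset.insert_eq_of_mem]
          exact Nat.mem_primeFactors.2 ⟨hp, hd, hpos.ne'⟩
        rw [h2]
        exact h1.trans (cyc_quot_le N)
      · have h2 : npr G = npr (G ⧸ N) + 1 := by
          rw [npr, npr, hpf, Finset.card_insert_of_notMem]
          exact fun h => hd (Nat.dvd_of_mem_primeFactors h)
        have h3 := two_mul_cyc_quot_le N hN hbot hd
        calc 2 ^ (npr G + 2) = 2 * 2 ^ (npr (G ⧸ N) + 2) := by rw [h2]; ring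
          _ ≤ 2 * Nat.card (Cyc (G ⧸ N)) := Nat.mul_le_mul_left _ h1
          _ ≤ _ := h3

end Pool.Agent.W2helper29.CY
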