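import Mathlib

/-!
# The numerical part
-/

set_option autoImplicit false

namespace Pool.Agent.W2helper29.CY

/-- the primes below 256 -/
def pl : List ℕ := [2, 3, 5, 7, 11, 13, 17, 19, 23, 29, 31, 37, 41, 43, 47, 53, 59, 61, 67, 71, 73, 79, 83, 89, 97, 101, 103, 107, 109, 113, 127, 131, 137, 139, 149, 151, 157, 163, 167, 173, 179, 181, 191, 193, 197, 199, 211, 223, 227, 229, 233, 239, 241, 251]

/-- number of primes below 256 dividing `n` -/
def om (n : ℕ) : ℕ := (pl.filter (fun p => n % p == 0)).length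

/-- no square of a prime below 256 divides `n` -/
def sfb (n : ℕ) : Bool := pl.all (fun p => n % (p * p) != 0)

theorem pl_prime : ∀ p ∈ pl, p.Prime := by decide +kernel

theorem pl_nodup : pl.Nodup := by decide +kernel

theorem mem_pl : ∀ p < 256, p.Prime → p ∈ pl := by decide +kernel

theorem om_eq {m j : ℕ} (hm : m < 256) (hj : j < 256) (h0 : 0 < m) (h1 : 0 < j) :
    (m * j).primeFactors.card = om (m * j) := by
  have h : (m * j).primeFactors = (pl.filter (fun p => m * j % p == 0)).toFinset := by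
    ext p
    simp only [Nat.mem_primeFactors, List.mem_toFinset, List.mem_filter, beq_iff_eq]
    constructor
    · rintro ⟨hp, hd, -⟩
      refine ⟨?_, Nat.mod_eq_zero_of_dvd hd⟩
      rcases (hp.dvd_mul).1 hd with h | h
      · exact mem_pl p ((Nat.le_of_dvd h0 h).trans_lt hm) hp
      · exact mem_pl p ((Nat.le_of_dvd h1 h).trans_lt hj) hp
    · rintro ⟨hp, hd⟩
      exact ⟨pl_prime p hp, Nat.dvd_of_mod_eq_zero hd, (Nat.mul_pos h0 h1).ne'⟩
  rw [h, List.toFinset_card_of_nodup (pl_nodup.filter _), om]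

theorem sf_of_sfb {m j : ℕ} (hm : m < 256) (hj : j < 256) (h0 : 0 < m) (h1 : 0 < j)
    (h : sfb (m * j) = true) : Squarefree (m * j) := by
  rw [Nat.squarefree_iff_prime_squarefree]
  intro p hp hd
  have hp2 : p ∈ pl := by
    rcases (hp.dvd_mul).1 ((Dvd.intro _ rfl).trans hd) with h | h
    · exact mem_pl p ((Nat.le_of_dvd h0 h).trans_lt hm) hp
    · exact mem_pl p ((Nat.le_of_dvd h1 h).trans_lt hj) hp
  have := (List.all_eq_true.1 h) p hp2
  simp only [bne_iff_ne, ne_eq] at this
  exact this (Nat.mod_eq_zero_of_dvd hd)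

/-- the orders which need a special treatment -/
def bad (t : ℕ) : List ℕ :=
  if t = 2 then [12, 18, 20, 24, 28, 40, 45, 50, 56, 63]
  else if t = 3 then [60, 84, 90, 120, 126, 132, 140, 168, 180, 198, 220, 234, 240, 260, 264, 306, 308, 312, 340, 364, 380, 408, 456, 476, 532, 552, 644]
  else if t = 4 then [420, 630, 1050, 1260, 1380, 1470, 1740, 1860, 2220, 2460, 2580, 2820, 3180, 3540]
  else if t = 5 then [4620, 5460, 6930]
  else []

theorem num2 : ∀ j ∈ List.range 16, ∀ m ∈ List.range j,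
    (om (m * j) == 2 && !sfb (m * j)) = true → m * j ≤ 15 * Nat.totient m → m * j ∈ bad 2 := by
  decide +kernel

theorem num3 : ∀ j ∈ List.range 32, ∀ m ∈ List.range j,
    (om (m * j) == 3 && !sfb (m * j)) = true → m * j ≤ 31 * Nat.totient m → m * j ∈ bad 3 := by
  decide +kernel

theorem num4 : ∀ j ∈ List.range 64, ∀ m ∈ List.range j,
    (om (m * j) == 4 && !sfb (m * j)) = true → m * j ≤ 63 * Nat.totient m → m * j ∈ bad 4 := by
  decide +kernel

theorem num5 : ∀ j ∈ List.range 128, ∀ m ∈ List.range j,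
    (om (m * j) == 5 && !sfb (m * j)) = true → m * j ≤ 127 * Nat.totient m → m * j ∈ bad 5 := by
  decide +kernel

theorem num6 : ∀ i ∈ List.range 21, ∀ k ∈ List.range 21, (235 + i) * (235 + k) ≥ 60060 →
    (om ((235 + i) * (235 + k)) == 6) = true → i < k →
    ¬ (235 + i) * (235 + k) ≤ 255 * Nat.totient (235 + i) := by
  decide +kernel

end Pool.Agent.W2helper29.CY
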