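import Pool.Agent.W2helper29.CY5

/-!
# The numerical part, continued
-/

set_option autoImplicit false

namespace Pool.Agent.W2helper29.CY

/-- the six smallest primes -/
def sm : Finset ℕ := {2, 3, 5, 7, 11, 13}

theorem sm_mem : ∀ p < 17, p.Prime → p ∈ sm := by decide +kernel

theorem sm6 : ∀ T ∈ sm.powerset, 30030 ≤ (∏ p ∈ T, p) * 17 ^ (6 - T.card) := by decide +kernel

theorem sm7 : ∀ T ∈ sm.powerset, T.card ≤ 7 ∧ 16 * 4 ^ 7 ≤ (∏ p ∈ T, p) * 17 ^ (7 - T.card) := by
  decide +kernel

theorem prod_split (S : Finset ℕ) (hS : ∀ p ∈ S, p.Prime) :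
    ∃ T ∈ sm.powerset, T.card ≤ S.card ∧
      (∏ p ∈ T, p) * 17 ^ (S.card - T.card) ≤ ∏ p ∈ S, p := by
  classical
  refine ⟨S.filter (· < 17), ?_, Finset.card_le_card (Finset.filter_subset _ _), ?_⟩
  · rw [Finset.mem_powerset]
    intro p hp
    rw [Finset.mem_filter] at hp
    exact sm_mem p hp.2 (hS p hp.1)
  · rw [← Finset.prod_filter_mul_prod_filter_not S (· < 17)]
    refine Nat.mul_le_mul_left _ ?_
    have h1 : S.card - (S.filter (· < 17)).card = (S.filter (fun p => ¬ p < 17)).card := by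
      have := Finset.card_filter_add_card_filter_not (s := S) (p := (· < 17))
      omega
    rw [h1, ← Finset.prod_const]
    refine Finset.prod_le_prod (fun _ _ => Nat.zero_le _) ?_
    intro p hp
    rw [Finset.mem_filter] at hp
    omega

theorem prod6 (S : Finset ℕ) (hS : ∀ p ∈ S, p.Prime) (hc : S.card = 6) :
    30030 ≤ ∏ p ∈ S, p := by
  obtain ⟨T, hT, -, h⟩ := prod_split S hS
  rw [hc] at h
  exact (sm6 T hT).trans h

theorem prod7 (S : Finset ℕ) (hS : ∀ p ∈ S, p.Prime) (hc : 7 ≤ S.card) :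
    16 * 4 ^ S.card ≤ ∏ p ∈ S, p := by
  obtain ⟨T, hT, hTS, h⟩ := prod_split S hS
  obtain ⟨h1, h2⟩ := sm7 T hT
  obtain ⟨r, hr⟩ := Nat.exists_eq_add_of_le hc
  calc 16 * 4 ^ S.card = 16 * 4 ^ 7 * 4 ^ r := by rw [hr, pow_add]; ring
    _ ≤ ((∏ p ∈ T, p) * 17 ^ (7 - T.card)) * 17 ^ r :=
        Nat.mul_le_mul h2 (Nat.pow_le_pow_left (by norm_num) r)
    _ = (∏ p ∈ T, p) * 17 ^ (S.card - T.card) := by
        rw [mul_assoc, ← pow_add]
        congr 2
        omega
    _ ≤ _ := h

theorem num_main {t m j : ℕ} (h0 : 0 < m) (hmj : m < j) (ht : 2 ≤ t)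
    (hφ : m * j ≤ (2 ^ (t + 2) - 1) * Nat.totient m)
    (hcard : (m * j).primeFactors.card = t) (hsf : ¬ Squarefree (m * j)) : m * j ∈ bad t := by
  have hj1 : 0 < j := by omega
  have hjM : j < 2 ^ (t + 2) := by
    have h1 : m * j ≤ m * (2 ^ (t + 2) - 1) := by
      calc m * j ≤ (2 ^ (t + 2) - 1) * Nat.totient m := hφ
        _ ≤ (2 ^ (t + 2) - 1) * m := Nat.mul_le_mul_left _ (Nat.totient_le m)
        _ = _ := mul_comm _ _
    have h2 := Nat.le_of_mul_le_mul_left h1 h0
    have h3 : 0 < 2 ^ (t + 2) := by positivity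
    omega
  have hprod : ∏ p ∈ (m * j).primeFactors, p ∣ m * j := Nat.prod_primeFactors_dvd _
  have hpr : ∀ p ∈ (m * j).primeFactors, p.Prime := fun p hp => Nat.prime_of_mem_primeFactors hp
  have hmjpos : 0 < m * j := Nat.mul_pos h0 hj1
  rcases lt_or_ge t 6 with h6 | h6
  · have hj128 : j < 128 := by
      have : 2 ^ (t + 2) ≤ 2 ^ 7 := Nat.pow_le_pow_right (by norm_num) (by omega)
      omega
    have hom : om (m * j) = t := by rw [← hcard, om_eq (by omega) (by omega) h0 hj1]
    have hs : sfb (m * j) = false := by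
      rw [← Bool.not_eq_true]
      exact fun h => hsf (sf_of_sfb (by omega) (by omega) h0 hj1 h)
    interval_cases t
    · exact num2 j (List.mem_range.2 (by omega)) m (List.mem_range.2 hmj) (by simp [hom, hs]) hφ
    · exact num3 j (List.mem_range.2 (by omega)) m (List.mem_range.2 hmj) (by simp [hom, hs]) hφ
    · exact num4 j (List.mem_range.2 (by omega)) m (List.mem_range.2 hmj) (by simp [hom, hs]) hφ
    · exact num5 j (List.mem_range.2 (by omega)) m (List.mem_range.2 hmj) (by simp [hom, hs]) hφ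
  · exfalso
    rcases Nat.eq_or_lt_of_le h6 with h6 | h7
    · subst h6
      have h1 := prod6 _ hpr hcard
      obtain ⟨k, hk⟩ := hprod
      have hk2 : 2 ≤ k := by
        by_contra hlt
        have hk1 : k = 1 := by
          have : k ≠ 0 := by
            rintro rfl
            rw [mul_zero] at hk
            omega
          omega
        rw [hk1, mul_one] at hk
        apply hsf
        rw [Nat.squarefree_iff_prime_squarefree]
        intro p hp hd
        have hmem : p ∈ (m * j).primeFactors :=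
          Nat.mem_primeFactors.2 ⟨hp, (Dvd.intro _ rfl).trans hd, hmjpos.ne'⟩
        rw [hk, ← Finset.mul_prod_erase _ _ hmem] at hd
        have h2 := Nat.dvd_of_mul_dvd_mul_left hp.pos hd
        rw [hp.prime.dvd_finset_prod_iff] at h2
        obtain ⟨q, hq, hpq⟩ := h2
        rw [Finset.mem_erase] at hq
        exact hq.1 ((Nat.prime_dvd_prime_iff_eq hp (hpr q hq.2)).1 hpq).symm
      have h60 : 60060 ≤ m * j := by
        rw [hk]
        calc 60060 = 30030 * 2 := by norm_num
          _ ≤ _ := Nat.mul_le_mul h1 hk2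
      have hj : j ≤ 255 := by
        norm_num at hjM
        omega
      have hm : 235 ≤ m := by
        by_contra hlt
        have : m * j ≤ 234 * 255 := Nat.mul_le_mul (by omega) hj
        omega
      obtain ⟨i, rfl⟩ := Nat.exists_eq_add_of_le hm
      obtain ⟨l, rfl⟩ := Nat.exists_eq_add_of_le (show 235 ≤ j by omega)
      have hom : om ((235 + i) * (235 + l)) = 6 := by
        rw [← hcard, om_eq (by omega) (by omega) h0 hj1]
      exact num6 i (List.mem_range.2 (by omega)) l (List.mem_range.2 (by omega)) h60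
        (by simp [hom]) (by omega) hφ
    · have h1 := prod7 _ hpr (by omega)
      have h2 := Nat.le_of_dvd hmjpos hprod
      rw [hcard] at h1
      have h3 : m * j < 2 ^ (t + 2) * 2 ^ (t + 2) :=
        Nat.mul_lt_mul'' (hmj.trans hjM) hjM
      have h4 : 2 ^ (t + 2) * 2 ^ (t + 2) = 16 * 4 ^ t := by
        rw [← pow_add, show t + 2 + (t + 2) = 4 + 2 * t by ring, pow_add, pow_mul]
        norm_num
      omega

end Pool.Agent.W2helper29.CY
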