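import Pool.Agent.W2helper29.CY4
import Pool.Agent.W2helper29.CY6

/-!
# Excluding orders
-/

set_option autoImplicit false

universe u

namespace Pool.Agent.W2helper29.CY

open Subgroup MulAction

variable {G : Type u} [Group G]

theorem sylow_card [Finite G] {n p a m : ℕ} [Fact p.Prime] (hn : Nat.card G = n)
    (hpm : ¬ p ∣ m) (hnm : n = p ^ a * m) (P : Sylow p G) : Nat.card P = p ^ a := by
  have hp : p.Prime := Fact.out
  have hm0 : m ≠ 0 := by
    rintro rfl
    exact hpm (dvd_zero _)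
  rw [P.card_eq_multiplicity, hn, hnm, Nat.factorization_mul (pow_ne_zero _ hp.ne_zero) hm0,
    Finsupp.add_apply, hp.factorization_pow, Finsupp.single_eq_same,
    Nat.factorization_eq_zero_of_not_dvd hpm, add_zero]

theorem sylow_index [Finite G] {n p a m : ℕ} [Fact p.Prime] (hn : Nat.card G = n)
    (hpm : ¬ p ∣ m) (hnm : n = p ^ a * m) (P : Sylow p G) : (P : Subgroup G).index = m := by
  have hp : p.Prime := Fact.out
  have h1 := (P : Subgroup G).card_mul_index
  have h2 : Nat.card (P : Subgroup G) = p ^ a := sylow_card hn hpm hnm P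
  rw [h2, hn, hnm] at h1
  exact Nat.eq_of_mul_eq_mul_left (pow_pos hp.pos _) h1

theorem sylow_num [Finite G] {n p a m : ℕ} [Fact p.Prime] (hn : Nat.card G = n)
    (hpm : ¬ p ∣ m) (hnm : n = p ^ a * m) :
    Nat.card (Sylow p G) ∣ m ∧ Nat.card (Sylow p G) % p = 1 := by
  have hp : p.Prime := Fact.out
  obtain ⟨P⟩ := (inferInstance : Nonempty (Sylow p G))
  refine ⟨by rw [← sylow_index hn hpm hnm P]; exact P.card_dvd_index, ?_⟩
  have := card_sylow_modEq_one p G
  rw [Nat.ModEq, Nat.mod_eq_of_lt hp.one_lt] at this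
  exact this

theorem sylow_not_normal [Finite G] (hG : NoRad G) {n p a m : ℕ} [Fact p.Prime]
    (hn : Nat.card G = n) (hpm : ¬ p ∣ m) (ha : 0 < a) (hnm : n = p ^ a * m) (P : Sylow p G) :
    ¬ (P : Subgroup G).Normal := by
  intro h
  have hp : p.Prime := Fact.out
  have h1 := hG p hp P h P.2
  have h2 := sylow_card hn hpm hnm P
  rw [h1, Subgroup.card_bot] at h2
  have h3 : 1 < p ^ a := Nat.one_lt_pow (by omega) hp.one_lt
  omega

theorem forced [Finite G] (hG : NoRad G) {n : ℕ} (p a m : ℕ) (hn : Nat.card G = n)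
    (hp : p.Prime) (hpm : ¬ p ∣ m) (ha : 0 < a) (hnm : n = p ^ a * m)
    (h : ∀ d ∈ List.range (m + 1), d ∣ m → d % p = 1 → d = 1) : False := by
  have := Fact.mk hp
  obtain ⟨h1, h2⟩ := sylow_num hn hpm hnm
  have hm0 : 0 < m := by
    rcases Nat.eq_zero_or_pos m with h | h
    · rw [h] at hpm
      exact absurd (dvd_zero _) hpm
    · exact h
  have h3 := h _ (List.mem_range.2 (Nat.lt_succ_of_le (Nat.le_of_dvd hm0 h1))) h1 h2
  have h4 : Subsingleton (Sylow p G) := (Nat.card_eq_one_iff_unique.1 h3).1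
  obtain ⟨P⟩ := (inferInstance : Nonempty (Sylow p G))
  exact sylow_not_normal hG hn hpm ha hnm P (Sylow.normal_of_subsingleton P)

/-- certificate for a lower bound of the number of subgroups of prime order -/
def chkP (n : ℕ) (x : ℕ × ℕ) : Prop :=
  x.1.Prime ∧ x.1 ∣ n ∧ (x.2 ≤ 2 ∨ (¬ x.1 ∣ n / x.1 ∧
    ∀ e ∈ List.range x.2, e ∣ n / x.1 → e % x.1 = 1 → e = 1))

instance (n : ℕ) (x : ℕ × ℕ) : Decidable (chkP n x) := by
  unfold chkP; infer_instance

theorem nsub_of_chk [Finite G] (hG : NoRad G) {n : ℕ} (hn : Nat.card G = n) {x : ℕ × ℕ}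
    (hx : chkP n x) : x.2 ≤ nsub G x.1 := by
  obtain ⟨hp, hd, h⟩ := hx
  rcases h with h | ⟨h1, h2⟩
  · exact h.trans (two_le_nsub hG hp (by rw [hn]; exact hd))
  · have hm : Nat.card G = x.1 * (n / x.1) := by rw [hn, Nat.mul_div_cancel' hd]
    by_contra hlt
    push Not at hlt
    exact nsub_ne_one hG hp (h2 _ (List.mem_range.2 hlt) (nsub_dvd hp hm h1) (nsub_mod hp hm h1))

theorem order_sq [Finite G] [Nontrivial G] (hG : NoRad G) (C : Cyc G) :
    Nat.card C.1 * Nat.card C.1 < Nat.card G := by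
  refine card_sq_lt hG C.1 ?_
  intro a ha b hb
  have := C.2
  have h : (⟨a, ha⟩ : C.1) * ⟨b, hb⟩ = ⟨b, hb⟩ * ⟨a, ha⟩ := by
    letI := IsCyclic.commGroup (α := C.1)
    exact mul_comm _ _
  exact congrArg Subtype.val h

theorem killB2 [Finite G] [Nontrivial G] (hG : NoRad G) {n M : ℕ} (L K : ℕ)
    (l : List (ℕ × ℕ)) (hn : Nat.card G = n) (hM : Nat.card (Cyc G) ≤ M)
    (hK : n ≤ K * K) (hL : ∀ m ∈ List.range K, m * m < n → m ∣ n → Nat.totient m ≤ L)
    (hl : (l.map Prod.fst).Nodup) (hc : ∀ x ∈ l, chkP n x)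
    (hfin : L * M < n + ((L - 1) + (l.map fun x => x.2 * (L - (x.1 - 1))).sum)) : False := by
  classical
  have hLC : ∀ C : Cyc G, Nat.totient (Nat.card C.1) ≤ L := by
    intro C
    have h1 := order_sq hG C
    rw [hn] at h1
    refine hL _ (List.mem_range.2 ?_) h1 ?_
    · by_contra hge
      push Not at hge
      have := Nat.mul_le_mul hge hge
      omega
    · rw [← hn]; exact Subgroup.card_subgroup_dvd_card _
  have h1 : (1 : ℕ) ∉ (l.map Prod.fst).toFinset := by
    intro h
    rw [List.mem_toFinset, List.mem_map] at h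
    obtain ⟨x, hx, hx1⟩ := h
    have := (hc x hx).1
    rw [hx1] at this
    exact Nat.not_prime_one this
  have h2 := count2 hLC (insert 1 (l.map Prod.fst).toFinset) (by
    intro q hq
    rw [Finset.mem_insert] at hq
    rcases hq with hq | hq
    · exact Or.inl hq
    · right
      rw [List.mem_toFinset, List.mem_map] at hq
      obtain ⟨x, hx, rfl⟩ := hq
      exact (hc x hx).1)
  rw [Finset.sum_insert h1, nsub_one, Nat.totient_one, one_mul, hn,
    List.sum_toFinset _ hl, List.map_map] at h2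
  have h3 : (l.map fun x => x.2 * (L - (x.1 - 1))).sum ≤
      (l.map ((fun q => nsub G q * (L - Nat.totient q)) ∘ Prod.fst)).sum := by
    refine List.sum_le_sum ?_
    intro x hx
    simp only [Function.comp_apply]
    rw [Nat.totient_prime (hc x hx).1]
    exact Nat.mul_le_mul_right _ (nsub_of_chk hG hn (hc x hx))
  have h4 : L * Nat.card (Cyc G) ≤ L * M := Nat.mul_le_mul_left _ hM
  omega

theorem killCount [Finite G] (hG : NoRad G) {n : ℕ} (p a m : ℕ) (l : List (ℕ × ℕ))
    (hn : Nat.card G = n) (hp : p.Prime) (hpm : ¬ p ∣ m) (ha : 0 < a) (hnm : n = p ^ a * m)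
    (hl : (l.map Prod.fst).Nodup) (hc : ∀ x ∈ l, chkP n x ∧ x.1 ≠ p)
    (hfin : n ≤ p ^ a + (l.map fun x => x.2 * (x.1 - 1)).sum) : False := by
  classical
  have := Fact.mk hp
  obtain ⟨P⟩ := (inferInstance : Nonempty (Sylow p G))
  refine sylow_not_normal hG hn hpm ha hnm P (normal_of_count P (l.map Prod.fst).toFinset ?_ ?_)
  · intro q hq
    rw [List.mem_toFinset, List.mem_map] at hq
    obtain ⟨x, hx, rfl⟩ := hq
    exact ⟨(hc x hx).1.1, (hc x hx).2⟩
  · rw [sylow_card hn hpm hnm P, List.sum_toFinset _ hl, List.map_map, hn]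
    refine hfin.trans (Nat.add_le_add_left (List.sum_le_sum ?_) _)
    intro x hx
    simp only [Function.comp_apply]
    rw [Nat.totient_prime (hc x hx).1.1]
    exact Nat.mul_le_mul_right _ (nsub_of_chk hG hn (hc x hx).1)

end Pool.Agent.W2helper29.CY
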