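import Pool.Agent.W2helper29.CY7

/-!
# The orders 24, 60, 90, 306
-/

set_option autoImplicit false

universe u

namespace Pool.Agent.W2helper29.CY

open Subgroup MulAction

variable {G : Type u} [Group G]

theorem mem_of_pow [Finite G] (K : Subgroup G) [K.Normal] {q : ℕ} (hq : q.Prime)
    (hi : ¬ q ∣ K.index) {x : G} (hx : x ^ q = 1) : x ∈ K := by
  have h1 : (QuotientGroup.mk' K x) ^ q = 1 := by rw [← map_pow, hx, map_one]
  have h2 : orderOf (QuotientGroup.mk' K x) ∣ q := orderOf_dvd_of_pow_eq_one h1
  have h3 : orderOf (QuotientGroup.mk' K x) ∣ K.index := orderOf_dvd_natCard _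
  have h4 : orderOf (QuotientGroup.mk' K x) = 1 :=
    Nat.eq_one_of_dvd_coprimes ((Nat.Prime.coprime_iff_not_dvd hq).2 hi) h2 h3
  exact (QuotientGroup.eq_one_iff _).1 (orderOf_eq_one_iff.1 h4)

theorem le_of_card [Finite G] (K : Subgroup G) [K.Normal] {q : ℕ} (hq : q.Prime)
    (hi : ¬ q ∣ K.index) {H : Subgroup G} (hH : Nat.card H = q) : H ≤ K := by
  intro x hx
  refine mem_of_pow K hq hi ?_
  have : (⟨x, hx⟩ : H) ^ Nat.card H = 1 := pow_card_eq_one'
  rw [hH] at this
  simpa using congrArg Subtype.val this

theorem nsub_sub [Finite G] (K : Subgroup G) [K.Normal] {q : ℕ} (hq : q.Prime)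
    (hi : ¬ q ∣ K.index) : nsub G q = nsub K q := by
  rw [nsub, nsub]
  refine Nat.card_congr
    { toFun := fun H => ⟨H.1.subgroupOf K, ?_⟩
      invFun := fun H => ⟨H.1.map K.subtype, ?_⟩
      left_inv := fun H => ?_
      right_inv := fun H => ?_ }
  · exact (Nat.card_congr (subgroupOfEquivOfLe (le_of_card K hq hi H.2)).toEquiv).trans H.2
  · exact (Nat.card_congr
      (H.1.equivMapOfInjective _ K.subtype_injective).symm.toEquiv).trans H.2
  · apply Subtype.ext
    exact map_subgroupOf_eq_of_le (le_of_card K hq hi H.2)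
  · apply Subtype.ext
    simp only
    rw [subgroupOf, comap_map_eq_self_of_injective K.subtype_injective]

theorem exists_half [Finite G] {m : ℕ} (hn : Nat.card G = 2 * m) (hm : ¬ 2 ∣ m) :
    ∃ K : Subgroup G, K.Normal ∧ Nat.card K = m ∧ K.index = 2 := by
  have : Fact (Nat.Prime 2) := ⟨Nat.prime_two⟩
  obtain ⟨P⟩ := (inferInstance : Nonempty (Sylow 2 G))
  have hP : Nat.card P = 2 := by
    have := sylow_card (a := 1) hn hm (by ring) P
    simpa using this
  have hc : IsCyclic P := isCyclic_of_prime_card (p := 2) hP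
  have hmin : (Nat.card G).minFac = 2 := by
    rw [Nat.minFac_eq_two_iff, hn]
    exact dvd_mul_right _ _
  have h1 := hc.isComplement' hmin
  refine ⟨(MonoidHom.transferSylow P (hc.normalizer_le_centralizer hmin)).ker,
    MonoidHom.normal_ker _, ?_, ?_⟩
  · have h2 := h1.card_mul_card
    rw [hn] at h2
    have h3 : Nat.card (P : Subgroup G) = 2 := hP
    rw [h3] at h2
    omega
  · rw [h1.symm.index_eq_card]
    exact hP

theorem kill90 [Finite G] (hG : NoRad G) (hn : Nat.card G = 90) : False := by
  obtain ⟨K, hK, hc, hi⟩ := exists_half (m := 45) hn (by norm_num)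
  have h1 := nsub_sub K (q := 5) (by norm_num) (by rw [hi]; norm_num)
  have h2 := nsub_dvd (G := K) (p := 5) (m := 9) (by norm_num) hc (by norm_num)
  have h3 := nsub_mod (G := K) (p := 5) (m := 9) (by norm_num) hc (by norm_num)
  rw [← h1] at h2 h3
  have h4 := nsub_ne_one hG (p := 5) (by norm_num)
  have h5 := Nat.le_of_dvd (by norm_num) h2
  interval_cases (nsub G 5) <;> omega

theorem kill306 [Finite G] (hG : NoRad G) (hn : Nat.card G = 306) : False := by
  obtain ⟨K, hK, hc, hi⟩ := exists_half (m := 153) hn (by norm_num)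
  have h1 := nsub_sub K (q := 17) (by norm_num) (by rw [hi]; norm_num)
  have h2 := nsub_dvd (G := K) (p := 17) (m := 9) (by norm_num) hc (by norm_num)
  have h3 := nsub_mod (G := K) (p := 17) (m := 9) (by norm_num) hc (by norm_num)
  rw [← h1] at h2 h3
  have h4 := nsub_ne_one hG (p := 17) (by norm_num)
  have h5 := Nat.le_of_dvd (by norm_num) h2
  interval_cases (nsub G 17) <;> omega

theorem kill24 [Finite G] (hG : NoRad G) (hn : Nat.card G = 24) : False := by
  classical
  have : Fact (Nat.Prime 2) := ⟨Nat.prime_two⟩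
  obtain ⟨P⟩ := (inferInstance : Nonempty (Sylow 2 G))
  obtain ⟨h1, h2⟩ := sylow_num (p := 2) (a := 3) (m := 3) hn (by norm_num) (by norm_num)
  have h3 : Nat.card (Sylow 2 G) ≠ 1 := by
    intro h
    have : Subsingleton (Sylow 2 G) := (Nat.card_eq_one_iff_unique.1 h).1
    exact sylow_not_normal hG (a := 3) (m := 3) hn (by norm_num) (by norm_num) (by norm_num) P
      (Sylow.normal_of_subsingleton P)
  have h4 : Nat.card (Sylow 2 G) = 3 := ((Nat.dvd_prime (by norm_num)).1 h1).resolve_left h3
  have h5 := P.card_eq_index_normalizer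
  have h6 := (normalizer (P : Set G)).card_mul_index
  rw [← h5, h4, hn] at h6
  have h7 : Nat.card (normalizer (P : Set G)) = 8 := by omega
  set φ := MulAction.toPermHom G (Sylow 2 G) with hφ
  have h8 : φ.ker ≤ normalizer (P : Set G) := by
    intro g hg
    rw [MonoidHom.mem_ker] at hg
    have h9 : g • P = P := by
      have := congrArg (fun e : Equiv.Perm (Sylow 2 G) => e P) hg
      exact this
    have h10 : g ∈ stabilizer G P := h9
    rwa [Sylow.stabilizer_eq_normalizer] at h10
  have h9 : IsPGroup 2 φ.ker := by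
    have h10 := Subgroup.card_dvd_of_le h8
    rw [h7] at h10
    have h11 : Nat.card φ.ker ∣ 2 ^ 3 := by norm_num; exact h10
    obtain ⟨k, -, hk⟩ := (Nat.dvd_prime_pow Nat.prime_two).1 h11
    exact IsPGroup.of_card hk
  have h10 := hG 2 Nat.prime_two φ.ker (MonoidHom.normal_ker _) h9
  have h11 : Function.Injective φ := (MonoidHom.ker_eq_bot_iff φ).1 h10
  have h12 := Nat.card_le_card_of_injective _ h11
  have := Fintype.ofFinite (Sylow 2 G)
  rw [hn, Nat.card_eq_fintype_card (α := Equiv.Perm (Sylow 2 G)), Fintype.card_perm,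
    ← Nat.card_eq_fintype_card, h4] at h12
  norm_num [Nat.factorial] at h12

theorem kill60 [Finite G] [Nontrivial G] (hG : NoRad G) (hn : Nat.card G = 60) :
    32 ≤ Nat.card (Cyc G) := by
  classical
  have f3 : Fact (Nat.Prime 3) := ⟨Nat.prime_three⟩
  have h5 : nsub G 5 = 6 := by
    have h2 := nsub_dvd (G := G) (p := 5) (m := 12) (by norm_num) hn (by norm_num)
    have h3 := nsub_mod (G := G) (p := 5) (m := 12) (by norm_num) hn (by norm_num)
    have h4 := nsub_ne_one hG (p := 5) (by norm_num)
    have h5 := Nat.le_of_dvd (by norm_num) h2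
    interval_cases (nsub G 5) <;> omega
  have h3 : nsub G 3 = 10 := by
    have h2 := nsub_dvd (G := G) (p := 3) (m := 20) (by norm_num) hn (by norm_num)
    have h3 := nsub_mod (G := G) (p := 3) (m := 20) (by norm_num) hn (by norm_num)
    have h4 := nsub_ne_one hG (p := 3) (by norm_num)
    have h5' := Nat.le_of_dvd (by norm_num) h2
    have h6 : nsub G 3 = 4 ∨ nsub G 3 = 10 := by
      interval_cases (nsub G 3) <;> omega
    refine h6.resolve_left fun h7 => ?_
    -- the normalizer of a Sylow 3-subgroup has order 15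
    obtain ⟨P⟩ := (inferInstance : Nonempty (Sylow 3 G))
    have h8 := P.card_eq_index_normalizer
    rw [← nsub_eq_sylow (m := 20) (by norm_num) hn (by norm_num), h7] at h8
    have h9 := (normalizer (P : Set G)).card_mul_index
    rw [← h8, hn] at h9
    have h10 : Nat.card (normalizer (P : Set G)) = 15 := by omega
    have f5 : Fact (Nat.Prime 5) := ⟨Nat.prime_five⟩
    obtain ⟨⟨x, hx⟩, hxo⟩ := exists_prime_orderOf_dvd_card' (G := normalizer (P : Set G)) 5
      (by rw [h10]; norm_num)
    rw [orderOf_mk] at hxo
    have hPc : Nat.card (P : Subgroup G) = 3 := by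
      have := sylow_card (p := 3) (a := 1) (m := 20) hn (by norm_num) (by norm_num) P
      simpa using this
    obtain ⟨⟨y, hy⟩, hyo⟩ := exists_prime_orderOf_dvd_card' (G := (P : Subgroup G)) 3
      (by rw [hPc])
    rw [orderOf_mk] at hyo
    have hyP : zpowers y = (P : Subgroup G) := by
      refine eq_of_le_of_card_ge ?_ ?_
      · rw [zpowers_le]; exact hy
      · rw [hPc, Nat.card_zpowers, hyo]
    have h11 : x * y * x⁻¹ ∈ (P : Subgroup G) := (mem_normalizer_iff.1 hx y).1 hy
    rw [← hyP] at h11
    obtain ⟨k, -, hk⟩ := (mem_zpowers_iff_mem_range_orderOf.1 h11 |> Finset.mem_image.1)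
    have hy3 : y ^ 3 = 1 := by rw [← hyo]; exact pow_orderOf_eq_one y
    have hx5 : x ^ 5 = 1 := by rw [← hxo]; exact pow_orderOf_eq_one x
    have hk' : y ^ k = x * y * x⁻¹ := hk
    have h12 : x * (x * y * x⁻¹) * x⁻¹ = y ^ (k * k) := by
      rw [← hk', ← conj_pow, ← hk', ← pow_mul]
    have h13 : y ^ (k * k) = y := by
      have hk3 : k * k % 3 = 1 := by
        have : k % 3 ≠ 0 := by
          intro h0
          obtain ⟨c, rfl⟩ := Nat.dvd_of_mod_eq_zero h0
          rw [pow_mul, hy3, one_pow] at hk'
          have : y = 1 := by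
            have := hk'.symm
            rwa [mul_inv_eq_one, mul_eq_left] at this
          rw [this, orderOf_one] at hyo
          omega
        have h14 : k % 3 = 1 ∨ k % 3 = 2 := by omega
        rcases h14 with h | h <;> simp [Nat.mul_mod, h]
      have := pow_mod_orderOf y (k * k)
      rw [hyo, hk3, pow_one] at this
      exact this.symm
    have h15 : Commute (x ^ 2) y := by
      rw [h13] at h12
      have : x * (x * y * x⁻¹) * x⁻¹ = x ^ 2 * y * (x ^ 2)⁻¹ := by
        rw [pow_two]; group
      rw [this, mul_inv_eq_iff_eq_mul] at h12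
      exact h12
    have h16 : Commute x y := by
      have h17 : (x ^ 2) ^ 3 = x := by
        rw [← pow_mul]
        calc x ^ (2 * 3) = x ^ 5 * x := by rw [← pow_succ]
          _ = x := by rw [hx5, one_mul]
      have := h15.pow_left 3
      rwa [h17] at this
    have h17 : orderOf (x * y) = 15 := by
      rw [h16.orderOf_mul_eq_mul_orderOf_of_coprime (by rw [hxo, hyo]; norm_num), hxo, hyo]
    have h18 := order_sq hG ⟨zpowers (x * y), inferInstance⟩
    rw [Nat.card_zpowers, h17, hn] at h18
    omega
  -- a normal subgroup of order 15 or 20 is impossible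
  have hK : ∀ K : Subgroup G, K.Normal → Nat.card K * 4 = 60 ∨ Nat.card K * 3 = 60 → False := by
    intro K hKn hKc
    have h1 := K.card_mul_index
    rw [hn] at h1
    rcases hKc with hKc | hKc
    · have h2 : Nat.card K = 15 := by omega
      have h4 : K.index = 4 := by rw [h2] at h1; omega
      have h6 := nsub_sub K (q := 5) (by norm_num) (by rw [h4]; norm_num)
      have h7 := nsub_dvd (G := K) (p := 5) (m := 3) (by norm_num) h2 (by norm_num)
      rw [← h6, h5] at h7
      exact absurd h7 (by norm_num)
    · have h2 : Nat.card K = 20 := by omega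
      have h4 : K.index = 3 := by rw [h2] at h1; omega
      have h6 := nsub_sub K (q := 5) (by norm_num) (by rw [h4]; norm_num)
      have h7 := nsub_dvd (G := K) (p := 5) (m := 4) (by norm_num) h2 (by norm_num)
      rw [← h6, h5] at h7
      exact absurd h7 (by norm_num)
  have hE : ∀ g : G, orderOf g ∈ ({1, 2, 3, 5} : Finset ℕ) := by
    intro g
    by_contra hg
    have h1 := order_sq hG ⟨zpowers g, inferInstance⟩
    rw [Nat.card_zpowers, hn] at h1
    have h2 : orderOf g ∣ 60 := by rw [← hn]; exact orderOf_dvd_natCard g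
    have h4 : orderOf g ≤ 7 := by
      by_contra hlt
      push Not at hlt
      have := Nat.mul_le_mul hlt hlt
      omega
    have h6 : orderOf g = 4 ∨ orderOf g = 6 := by
      have h7 : ∀ m ≤ 7, m ∣ 60 → m ∉ ({1, 2, 3, 5} : Finset ℕ) → m = 4 ∨ m = 6 := by decide
      exact h7 _ h4 h2 hg
    rcases h6 with h6 | h6
    · have : Fact (Nat.Prime 2) := ⟨Nat.prime_two⟩
      have hf : (Nat.card G).factorization 2 = 2 := by
        rw [hn, show (60 : ℕ) = 2 ^ 2 * 15 by norm_num, Nat.factorization_mul (by norm_num) (by norm_num),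
          Finsupp.add_apply, Nat.prime_two.factorization_pow, Finsupp.single_eq_same,
          Nat.factorization_eq_zero_of_not_dvd (by norm_num)]
      let P : Sylow 2 G := Sylow.ofCard (zpowers g) (by rw [Nat.card_zpowers, h6, hf]; norm_num)
      have hc : IsCyclic P := (inferInstance : IsCyclic (zpowers g))
      have hmin : (Nat.card G).minFac = 2 := by
        rw [Nat.minFac_eq_two_iff, hn]; norm_num
      have h8 := (hc.isComplement' hmin).card_mul_card
      have h9 : Nat.card (P : Subgroup G) = 4 := by
        change Nat.card (zpowers g) = 4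
        rw [Nat.card_zpowers, h6]
      rw [h9, hn] at h8
      exact hK _ (MonoidHom.normal_ker _) (Or.inl h8)
    · obtain ⟨y, hy⟩ : ∃ y, y = g ^ 2 := ⟨_, rfl⟩
      have hyo : orderOf y = 3 := by
        rw [hy, orderOf_pow, h6]
        norm_num
      have hf : (Nat.card G).factorization 3 = 1 := by
        rw [hn, show (60 : ℕ) = 3 * 20 by norm_num, Nat.factorization_mul (by norm_num) (by norm_num),
          Finsupp.add_apply, Nat.prime_three.factorization_self,
          Nat.factorization_eq_zero_of_not_dvd (by norm_num)]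
      let P : Sylow 3 G := Sylow.ofCard (zpowers y) (by rw [Nat.card_zpowers, hyo, hf]; norm_num)
      have hPy : (P : Subgroup G) = zpowers y := rfl
      have h8 := P.card_eq_index_normalizer
      rw [← nsub_eq_sylow (m := 20) (by norm_num) hn (by norm_num), h3] at h8
      have h9 := (normalizer (P : Set G)).card_mul_index
      rw [← h8, hn] at h9
      have h10 : Nat.card (normalizer (P : Set G)) = 6 := by omega
      have hgc : zpowers g ≤ centralizer (P : Set G) := by
        rw [zpowers_le, mem_centralizer_iff]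
        intro z hz
        have hz' : z ∈ zpowers y := hz
        obtain ⟨k, rfl⟩ := mem_zpowers_iff.1 hz'
        have : Commute (y ^ k) g := by
          rw [hy]
          exact ((Commute.refl g).pow_left 2).zpow_left k
        exact this
      have hle : centralizer (P : Set G) ≤ normalizer (P : Set G) := by
        exact centralizer_le_normalizer _
      have hgn : zpowers g = normalizer (P : Set G) := by
        refine eq_of_le_of_card_ge (hgc.trans hle) ?_
        rw [h10, Nat.card_zpowers, h6]
      have hNC : normalizer (P : Set G) ≤ centralizer (P : Set G) := by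
        rw [← hgn]; exact hgc
      have h11 := (MonoidHom.ker_transferSylow_isComplement' P hNC).card_mul_card
      have h12 : Nat.card (P : Subgroup G) = 3 := by
        rw [hPy, Nat.card_zpowers, hyo]
      rw [h12, hn] at h11
      exact hK _ (MonoidHom.normal_ker _) (Or.inr h11)
  have hprE : ∀ q ∈ ({1, 2, 3, 5} : Finset ℕ), q = 1 ∨ q.Prime := by decide
  have h60 := card_orderOf_mem (G := G) {1, 2, 3, 5} hprE
  have huniv : {g : G | orderOf g ∈ ({1, 2, 3, 5} : Finset ℕ)} = Set.univ :=
    Set.eq_univ_of_forall hE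
  rw [huniv, Set.ncard_univ, hn] at h60
  have t2 : Nat.totient 2 = 1 := by decide
  have t3 : Nat.totient 3 = 2 := by decide
  have t5 : Nat.totient 5 = 4 := by decide
  rw [Finset.sum_insert (by decide), Finset.sum_insert (by decide), Finset.sum_insert (by decide),
    Finset.sum_singleton, nsub_one, Nat.totient_one, t2, t3, t5, h3, h5] at h60
  have hL : ∀ C : Cyc G, Nat.totient (Nat.card C.1) ≤ 4 := by
    intro C
    have hC := C.2
    obtain ⟨⟨x, hx⟩, hxg⟩ := hC.exists_generator
    have h1 : Nat.card C.1 = orderOf x := by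
      rw [← orderOf_mk x hx]
      exact (orderOf_eq_card_of_forall_mem_zpowers hxg).symm
    rw [h1]
    have h7 : ∀ m ∈ ({1, 2, 3, 5} : Finset ℕ), Nat.totient m ≤ 4 := by decide
    exact h7 _ (hE x)
  have hc2 := count2 hL {1, 2, 3, 5} hprE
  rw [Finset.sum_insert (by decide), Finset.sum_insert (by decide), Finset.sum_insert (by decide),
    Finset.sum_singleton, nsub_one, Nat.totient_one, t2, t3, t5, h3, h5, hn] at hc2
  omega

end Pool.Agent.W2helper29.CY
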