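import Pool.Agent.W2helper29.CY8

/-!
# The base case and the main theorem
-/

set_option autoImplicit false

universe u

namespace Pool.Agent.W2helper29.CY

open Subgroup MulAction

variable {G : Type u} [Group G]

theorem base2 [Finite G] (hG : NoRad G)
    (hb : Nat.card G ∈ bad 2) : False := by
  have hb2 : Nat.card G ∈ ([12, 18, 20, 24, 28, 40, 45, 50, 56, 63] : List ℕ) := by simpa [bad] using hb
  simp only [List.mem_cons, List.not_mem_nil, or_false] at hb2
  rcases hb2 with h | h | h | h | h | h | h | h | h | h
  · exact killCount hG 2 2 3 [(3, 4)] h (by norm_num) (by norm_num) (by norm_num) (by norm_num)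
      (by decide +kernel) (by decide +kernel) (by decide +kernel)
  · exact forced hG 3 2 2 h (by norm_num) (by norm_num) (by norm_num) (by norm_num) (by decide +kernel)
  · exact forced hG 5 1 4 h (by norm_num) (by norm_num) (by norm_num) (by norm_num) (by decide +kernel)
  · exact kill24 hG h
  · exact forced hG 7 1 4 h (by norm_num) (by norm_num) (by norm_num) (by norm_num) (by decide +kernel)
  · exact forced hG 5 1 8 h (by norm_num) (by norm_num) (by norm_num) (by norm_num) (by decide +kernel)
  · exact forced hG 3 2 5 h (by norm_num) (by norm_num) (by norm_num) (by norm_num) (by decide +kernel)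
  · exact forced hG 5 2 2 h (by norm_num) (by norm_num) (by norm_num) (by norm_num) (by decide +kernel)
  · exact killCount hG 2 3 7 [(7, 8)] h (by norm_num) (by norm_num) (by norm_num) (by norm_num)
      (by decide +kernel) (by decide +kernel) (by decide +kernel)
  · exact forced hG 7 1 9 h (by norm_num) (by norm_num) (by norm_num) (by norm_num) (by decide +kernel)

theorem base3 [Finite G] [Nontrivial G] (hG : NoRad G) (hM : Nat.card (Cyc G) ≤ 31)
    (hb : Nat.card G ∈ bad 3) : False := by
  have hb2 : Nat.card G ∈ ([60, 84, 90, 120, 126, 132, 140, 168, 180, 198, 220, 234, 240, 260, 264, 306, 308, 312, 340, 364, 380, 408, 456, 476, 532, 552, 644] : List ℕ) := by simpa [bad] using hb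
  simp only [List.mem_cons, List.not_mem_nil, or_false] at hb2
  rcases hb2 with h | h | h | h | h | h | h | h | h | h | h | h | h | h | h | h | h | h | h | h | h | h | h | h | h | h | h
  · have := kill60 hG h
    omega
  · exact forced hG 7 1 12 h (by norm_num) (by norm_num) (by norm_num) (by norm_num) (by decide +kernel)
  · exact kill90 hG h
  · exact killB2 hG 4 11 [(2, 2), (3, 4), (5, 6)] h hM (by norm_num) (by decide +kernel) (by decide +kernel)
      (by decide +kernel) (by decide +kernel)
  · exact forced hG 7 1 18 h (by norm_num) (by norm_num) (by norm_num) (by norm_num) (by decide +kernel)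
  · exact killCount hG 2 2 33 [(3, 4), (11, 12)] h (by norm_num) (by norm_num) (by norm_num) (by norm_num)
      (by decide +kernel) (by decide +kernel) (by decide +kernel)
  · exact forced hG 5 1 28 h (by norm_num) (by norm_num) (by norm_num) (by norm_num) (by decide +kernel)
  · exact killB2 hG 6 13 [(2, 2), (3, 4), (7, 8)] h hM (by norm_num) (by decide +kernel) (by decide +kernel)
      (by decide +kernel) (by decide +kernel)
  · exact killB2 hG 6 14 [(2, 2), (3, 2), (5, 6)] h hM (by norm_num) (by decide +kernel) (by decide +kernel)
      (by decide +kernel) (by decide +kernel)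
  · exact forced hG 11 1 18 h (by norm_num) (by norm_num) (by norm_num) (by norm_num) (by decide +kernel)
  · exact forced hG 11 1 20 h (by norm_num) (by norm_num) (by norm_num) (by norm_num) (by decide +kernel)
  · exact forced hG 13 1 18 h (by norm_num) (by norm_num) (by norm_num) (by norm_num) (by decide +kernel)
  · exact killB2 hG 8 16 [(2, 2), (3, 4), (5, 6)] h hM (by norm_num) (by decide +kernel) (by decide +kernel)
      (by decide +kernel) (by decide +kernel)
  · exact forced hG 13 1 20 h (by norm_num) (by norm_num) (by norm_num) (by norm_num) (by decide +kernel)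
  · exact killB2 hG 10 17 [(2, 2), (3, 4), (11, 12)] h hM (by norm_num) (by decide +kernel) (by decide +kernel)
      (by decide +kernel) (by decide +kernel)
  · exact kill306 hG h
  · exact forced hG 11 1 28 h (by norm_num) (by norm_num) (by norm_num) (by norm_num) (by decide +kernel)
  · exact forced hG 13 1 24 h (by norm_num) (by norm_num) (by norm_num) (by norm_num) (by decide +kernel)
  · exact forced hG 5 1 68 h (by norm_num) (by norm_num) (by norm_num) (by norm_num) (by decide +kernel)
  · exact forced hG 7 1 52 h (by norm_num) (by norm_num) (by norm_num) (by norm_num) (by decide +kernel)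
  · exact killB2 hG 18 20 [(2, 2), (5, 76), (19, 20)] h hM (by norm_num) (by decide +kernel) (by decide +kernel)
      (by decide +kernel) (by decide +kernel)
  · exact forced hG 17 1 24 h (by norm_num) (by norm_num) (by norm_num) (by norm_num) (by decide +kernel)
  · exact forced hG 19 1 24 h (by norm_num) (by norm_num) (by norm_num) (by norm_num) (by decide +kernel)
  · exact forced hG 7 1 68 h (by norm_num) (by norm_num) (by norm_num) (by norm_num) (by decide +kernel)
  · exact forced hG 7 1 76 h (by norm_num) (by norm_num) (by norm_num) (by norm_num) (by decide +kernel)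
  · exact killB2 hG 22 24 [(2, 2), (3, 4), (23, 24)] h hM (by norm_num) (by decide +kernel) (by decide +kernel)
      (by decide +kernel) (by decide +kernel)
  · exact forced hG 23 1 28 h (by norm_num) (by norm_num) (by norm_num) (by norm_num) (by decide +kernel)

theorem base4 [Finite G] [Nontrivial G] (hG : NoRad G) (hM : Nat.card (Cyc G) ≤ 63)
    (hb : Nat.card G ∈ bad 4) : False := by
  have hb2 : Nat.card G ∈ ([420, 630, 1050, 1260, 1380, 1470, 1740, 1860, 2220, 2460, 2580, 2820, 3180, 3540] : List ℕ) := by simpa [bad] using hb
  simp only [List.mem_cons, List.not_mem_nil, or_false] at hb2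
  rcases hb2 with h | h | h | h | h | h | h | h | h | h | h | h | h | h
  · exact killB2 hG 8 21 [(2, 2), (3, 4), (5, 6), (7, 15)] h hM (by norm_num) (by decide +kernel) (by decide +kernel)
      (by decide +kernel) (by decide +kernel)
  · exact killB2 hG 12 26 [(2, 3), (3, 2), (5, 6), (7, 15)] h hM (by norm_num) (by decide +kernel) (by decide +kernel)
      (by decide +kernel) (by decide +kernel)
  · exact killB2 hG 20 33 [(2, 3), (3, 7), (5, 2), (7, 15)] h hM (by norm_num) (by decide +kernel) (by decide +kernel)
      (by decide +kernel) (by decide +kernel)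
  · exact killB2 hG 24 36 [(2, 2), (3, 2), (5, 6), (7, 15)] h hM (by norm_num) (by decide +kernel) (by decide +kernel)
      (by decide +kernel) (by decide +kernel)
  · exact forced hG 23 1 60 h (by norm_num) (by norm_num) (by norm_num) (by norm_num) (by decide +kernel)
  · exact killB2 hG 24 39 [(2, 3), (3, 7), (5, 6), (7, 2)] h hM (by norm_num) (by decide +kernel) (by decide +kernel)
      (by decide +kernel) (by decide +kernel)
  · exact killB2 hG 28 42 [(2, 2), (3, 4), (5, 6), (29, 30)] h hM (by norm_num) (by decide +kernel) (by decide +kernel)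
      (by decide +kernel) (by decide +kernel)
  · exact forced hG 31 1 60 h (by norm_num) (by norm_num) (by norm_num) (by norm_num) (by decide +kernel)
  · exact forced hG 37 1 60 h (by norm_num) (by norm_num) (by norm_num) (by norm_num) (by decide +kernel)
  · exact forced hG 41 1 60 h (by norm_num) (by norm_num) (by norm_num) (by norm_num) (by decide +kernel)
  · exact forced hG 43 1 60 h (by norm_num) (by norm_num) (by norm_num) (by norm_num) (by decide +kernel)
  · exact forced hG 47 1 60 h (by norm_num) (by norm_num) (by norm_num) (by norm_num) (by decide +kernel)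
  · exact forced hG 53 1 60 h (by norm_num) (by norm_num) (by norm_num) (by norm_num) (by decide +kernel)
  · exact killB2 hG 58 60 [(2, 2), (3, 4), (5, 6), (59, 60)] h hM (by norm_num) (by decide +kernel) (by decide +kernel)
      (by decide +kernel) (by decide +kernel)

theorem base5 [Finite G] [Nontrivial G] (hG : NoRad G) (hM : Nat.card (Cyc G) ≤ 127)
    (hb : Nat.card G ∈ bad 5) : False := by
  have hb2 : Nat.card G ∈ ([4620, 5460, 6930] : List ℕ) := by simpa [bad] using hb
  simp only [List.mem_cons, List.not_mem_nil, or_false] at hb2
  rcases hb2 with h | h | h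
  · exact killB2 hG 40 68 [(2, 2), (3, 4), (5, 6), (7, 15), (11, 12)] h hM (by norm_num) (by decide +kernel) (by decide +kernel)
      (by decide +kernel) (by decide +kernel)
  · exact killB2 hG 48 74 [(2, 2), (3, 4), (5, 6), (7, 15), (13, 14)] h hM (by norm_num) (by decide +kernel) (by decide +kernel)
      (by decide +kernel) (by decide +kernel)
  · exact killB2 hG 60 84 [(2, 3), (3, 2), (5, 6), (7, 15), (11, 45)] h hM (by norm_num) (by decide +kernel) (by decide +kernel)
      (by decide +kernel) (by decide +kernel)

theorem npr_pos [Finite G] [Nontrivial G] : 0 < npr G := by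
  rw [npr, Finset.card_pos, Nat.nonempty_primeFactors]
  exact Finite.one_lt_card

theorem base (G : Type u) [Group G] [Finite G] (hG : NoRad G) (hs : ¬ Group.IsSolvable G) :
    2 ^ (npr G + 2) ≤ Nat.card (Cyc G) := by
  by_contra hlt
  push Not at hlt
  have hM : Nat.card (Cyc G) ≤ 2 ^ (npr G + 2) - 1 := by omega
  have hnt : Nontrivial G := by
    rcases subsingleton_or_nontrivial G with h | h
    · exact absurd (inferInstance : Group.IsSolvable G) hs
    · exact h
  obtain ⟨C, hC⟩ : ∃ C : Cyc G, Nat.card G ≤ (2 ^ (npr G + 2) - 1) * Nat.totient (Nat.card C.1) := by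
    by_contra hno
    push Not at hno
    exact not_small hM hno
  have h1 := order_sq hG C
  have h2 := C.1.card_mul_index
  have hm0 : 0 < Nat.card C.1 := Nat.card_pos
  have hmj : Nat.card C.1 < C.1.index := by
    rw [← h2] at h1
    exact Nat.lt_of_mul_lt_mul_left h1
  have hsf : ¬ Squarefree (Nat.card G) := by
    intro h
    have : IsZGroup G := IsZGroup.of_squarefree h
    exact hs inferInstance
  have ht : 2 ≤ npr G := by
    by_contra hlt2
    have h3 : npr G = 1 := by have := npr_pos (G := G); omega
    rw [npr, Finset.card_eq_one] at h3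
    obtain ⟨p, hp⟩ := h3
    have hpp : p.Prime := Nat.prime_of_mem_primeFactors (by rw [hp]; exact Finset.mem_singleton_self _)
    have h4 : IsPGroup p (⊤ : Subgroup G) := by
      refine IsPGroup.of_card (n := (Nat.card G).factorization p) ?_
      rw [Subgroup.card_top]
      conv_lhs => rw [← Nat.prod_factorization_pow_eq_self (n := Nat.card G) Nat.card_pos.ne']
      rw [Finsupp.prod, Nat.support_factorization, hp, Finset.prod_singleton]
    have h5 := hG p hpp ⊤ inferInstance h4
    exact absurd h5.symm bot_ne_top
  have hb := num_main hm0 hmj ht (by rw [h2]; exact hC) (by rw [h2]; rfl) (by rw [h2]; exact hsf)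
  rw [h2] at hb
  by_cases h6 : npr G ≤ 5
  · have h7 : npr G = 2 ∨ npr G = 3 ∨ npr G = 4 ∨ npr G = 5 := by omega
    rcases h7 with h7 | h7 | h7 | h7 <;> rw [h7] at hb hM
    · exact base2 hG hb
    · exact base3 hG hM hb
    · exact base4 hG hM hb
    · exact base5 hG hM hb
  · rw [bad, if_neg (by omega), if_neg (by omega), if_neg (by omega), if_neg (by omega)] at hb
    exact absurd hb List.not_mem_nil

theorem main (G : Type u) [Group G] [Finite G]
    (h : Nat.card (Cyc G) < 2 ^ (npr G + 2)) : Group.IsSolvable G := by
  by_contra hs
  have := reduction base (Nat.card G) G le_rfl hs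
  omega

end Pool.Agent.W2helper29.CY
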